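import Pool.Agent.MP_1a6d78_lc.PR.Spec

/-! PROJECT PR: closure rules for predicates and bounded operators. -/

namespace Pool.Agent.MP_1a6d78_lc.PR

open Classical ED

namespace K

variable {κ : List Bool → ℕ}

theorem cg {f g : List Bool → Env → ℕ} (h : Cn κ f) (e : ∀ x ρ, f x ρ = g x ρ) : Cn κ g := by
  have : f = g := funext fun x => funext fun ρ => e x ρ
  exact this ▸ h

theorem cgP {P Q : List Bool → Env → Prop} (h : Cp κ P) (e : ∀ x ρ, P x ρ ↔ Q x ρ) : Cp κ Q := by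
  have : P = Q := funext fun x => funext fun ρ => propext (e x ρ)
  exact this ▸ h

theorem c (n : ℕ) : Cn κ fun _ _ => n := (kitOne κ).const n

theorem v (i : ℕ) : Cn κ fun _ ρ => hd (ρ i) := (kitOne κ).hdv i

theorem vL (i : ℕ) : Cm κ fun _ ρ => ρ i := (kitOne κ).var i

theorem w {f : List Bool → Env → ℕ} (h : Cn κ f) : Cn κ fun x ρ => f x (tl ρ) := (kitOne κ).tlN h

theorem wL {f : List Bool → Env → List ℕ} (h : Cm κ f) : Cm κ fun x ρ => f x (tl ρ) :=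
  (kitOne κ).tl h

theorem wP {P : List Bool → Env → Prop} (h : Cp κ P) : Cp κ fun x ρ => P x (tl ρ) :=
  (kitOne κ).tlN (f := fun x ρ => if P x ρ then 1 else 0) h

theorem app {f : List Bool → Env → ℕ → ℕ} {a : List Bool → Env → ℕ} (hf : F1 κ f) (ha : Cn κ a) :
    Cn κ fun x ρ => f x ρ (a x ρ) :=
  (kitA κ).bind (fun x ρ => [a x ρ]) (fun x ρ => [f x (tl ρ) (hd (ρ 0))]) ha hf

theorem wF {f : List Bool → Env → ℕ → ℕ} (hf : F1 κ f) : F1 κ fun x ρ => f x (tl ρ) :=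
  (kitA κ).ren (fun x ρ => [f x (tl ρ) (hd (ρ 0))]) (fun i => match i with
    | 0 => 0
    | i + 1 => i + 2) hf

theorem appP {P : List Bool → Env → ℕ → Prop} {a : List Bool → Env → ℕ} (hP : P1 κ P)
    (ha : Cn κ a) : Cp κ fun x ρ => P x ρ (a x ρ) :=
  app (f := fun x ρ m => if P x ρ m then 1 else 0) hP ha

theorem wP1 {P : List Bool → Env → ℕ → Prop} (hP : P1 κ P) : P1 κ fun x ρ => P x (tl ρ) :=
  wF (f := fun x ρ m => if P x ρ m then 1 else 0) hP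

section
variable {a b : List Bool → Env → ℕ}

theorem add (ha : Cn κ a) (hb : Cn κ b) : Cn κ fun x ρ => a x ρ + b x ρ := (kitOne κ).add ha hb

theorem sub (ha : Cn κ a) (hb : Cn κ b) : Cn κ fun x ρ => a x ρ - b x ρ := (kitOne κ).sub ha hb

theorem mul (ha : Cn κ a) (hb : Cn κ b) : Cn κ fun x ρ => a x ρ * b x ρ := (kitTwo κ).mul ha hb

theorem div (ha : Cn κ a) (hb : Cn κ b) : Cn κ fun x ρ => a x ρ / b x ρ := (kitTwo κ).div ha hb

theorem mod (ha : Cn κ a) (hb : Cn κ b) : Cn κ fun x ρ => a x ρ % b x ρ := (kitTwo κ).mod ha hb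

theorem min (ha : Cn κ a) (hb : Cn κ b) : Cn κ fun x ρ => min (a x ρ) (b x ρ) :=
  (kitTwo κ).min ha hb

theorem max (ha : Cn κ a) (hb : Cn κ b) : Cn κ fun x ρ => max (a x ρ) (b x ρ) :=
  (kitTwo κ).max ha hb

theorem pow (e : ℕ) (ha : Cn κ a) : Cn κ fun x ρ => a x ρ ^ e := (kitTwo κ).pow e ha

theorem gt {l : List Bool → Env → List ℕ} (hl : Cm κ l) (ha : Cn κ a) :
    Cn κ fun x ρ => gt (l x ρ) (a x ρ) := (kitOne κ).gt hl ha

theorem le (ha : Cn κ a) (hb : Cn κ b) : Cp κ fun x ρ => a x ρ ≤ b x ρ :=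
  cg ((kitOne κ).ile ha hb (c 1) (c 0)) fun _ _ => by congr

theorem lt (ha : Cn κ a) (hb : Cn κ b) : Cp κ fun x ρ => a x ρ < b x ρ := le (add ha (c 1)) hb

theorem eq (ha : Cn κ a) (hb : Cn κ b) : Cp κ fun x ρ => a x ρ = b x ρ :=
  cg ((kitTwo κ).ieq ha hb (c 1) (c 0)) fun _ _ => by congr

variable {P Q : List Bool → Env → Prop}

theorem ite {i : ∀ x ρ, Decidable (P x ρ)} (hP : Cp κ P) (ha : Cn κ a) (hb : Cn κ b) :
    Cn κ fun x ρ => @ite _ (P x ρ) (i x ρ) (a x ρ) (b x ρ) :=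
  cg ((kitOne κ).ile hP (c 0) hb ha) fun x ρ => by by_cases h : P x ρ <;> simp [h]

theorem not (hP : Cp κ P) : Cp κ fun x ρ => ¬P x ρ :=
  cg (ite (i := fun _ _ => propDecidable _) hP (c 0) (c 1)) fun x ρ => by
    by_cases h : P x ρ <;> simp [h]

theorem ne (ha : Cn κ a) (hb : Cn κ b) : Cp κ fun x ρ => a x ρ ≠ b x ρ := not (eq ha hb)

theorem and (hP : Cp κ P) (hQ : Cp κ Q) : Cp κ fun x ρ => P x ρ ∧ Q x ρ :=
  cg (ite (i := fun _ _ => propDecidable _) hP hQ (c 0)) fun x ρ => by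
    by_cases h : P x ρ <;> simp [h]

theorem or (hP : Cp κ P) (hQ : Cp κ Q) : Cp κ fun x ρ => P x ρ ∨ Q x ρ :=
  cg (ite (i := fun _ _ => propDecidable _) hP (c 1) hQ) fun x ρ => by
    by_cases h : P x ρ <;> simp [h]

theorem imp (hP : Cp κ P) (hQ : Cp κ Q) : Cp κ fun x ρ => P x ρ → Q x ρ :=
  cgP (or (not hP) hQ) fun _ _ => imp_iff_not_or.symm

end

section
variable {n : List Bool → Env → ℕ} {P : List Bool → Env → ℕ → Prop}

theorem cnt (hn : Cn κ n) (hP : P1 κ P) : Cn κ fun x ρ => cnt (n x ρ) (P x ρ) :=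
  cg ((kitOne κ).sum (fun x ρ m => if P x ρ m then 1 else 0) hn hP) fun x ρ => by
    rw [PR.cnt, Finset.card_filter]

theorem ex (hn : Cn κ n) (hP : P1 κ P) : Cp κ fun x ρ => ∃ m < n x ρ, P x ρ m :=
  cgP (lt (c 0) (cnt hn hP)) fun x ρ => by
    simp [PR.cnt, Finset.card_pos, Finset.Nonempty]

theorem all (hn : Cn κ n) (hP : P1 κ P) : Cp κ fun x ρ => ∀ m < n x ρ, P x ρ m :=
  cgP (not (ex (P := fun x ρ m => ¬P x ρ m) hn (not hP))) fun x ρ => by simp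

theorem lst_eq (n : ℕ) (P : ℕ → Prop) : (if ∃ m < n, P m then
    PR.cnt n fun m => ∀ j < m + 1, ¬P j else 0) = lst n P := by
  split_ifs with h
  · have h1 : lst n P ∈ {m | m < n ∧ P m} := Nat.sInf_mem h
    have : (Finset.range n).filter (fun m => ∀ j < m + 1, ¬P j) = Finset.range (lst n P) := by
      ext m
      simp only [Finset.mem_filter, Finset.mem_range]
      constructor
      · rintro ⟨_, h3⟩
        by_contra h4
        exact h3 _ (by omega) h1.2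
      · intro h3
        refine ⟨h3.trans h1.1, fun j hj hp => ?_⟩
        have : lst n P ≤ j := Nat.sInf_le ⟨by have := h1.1; omega, hp⟩
        omega
    rw [PR.cnt]
    convert (congrArg Finset.card this).trans (Finset.card_range _)
  · have : {m | m < n ∧ P m} = ∅ := Set.eq_empty_of_forall_notMem fun m hm => h ⟨m, hm⟩
    rw [lst, this, Nat.sInf_empty]

theorem lst (hn : Cn κ n) (hP : P1 κ P) : Cn κ fun x ρ => lst (n x ρ) (P x ρ) :=
  cg (ite (i := fun _ _ => propDecidable _) (ex hn hP)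
    (cnt (P := fun x ρ m => ∀ j < m + 1, ¬P x ρ j) hn
      (all (P := fun x ρ j => ¬P x (tl ρ) j) (add (v 0) (c 1)) (not (wP1 hP)))) (c 0))
    fun _ _ => by convert lst_eq _ _

theorem it {f : List Bool → Env → ℕ → ℕ} {t d : List Bool → Env → ℕ} (hn : Cn κ n) (hf : F1 κ f)
    (ht : Cn κ t) (hd : Cn κ d) : Cn κ fun x ρ => it (n x ρ) (f x ρ) (t x ρ) (d x ρ) :=
  (kitOne κ).fold (fun x ρ _ a => Min.min (f x ρ a) (n x ρ)) (fun x ρ _ => n x ρ) ht hd
    (min (app (wF (wF hf)) (v 0)) (w (w hn))) (w hn)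
    fun _ _ _ _ _ _ h => (min_le_right _ _).trans h

theorem sc {f : List Bool → Env → ℕ → ℕ} {a b : List Bool → Env → ℕ} (hn : Cn κ n) (hf : F1 κ f)
    (ha : Cn κ a) (hb : Cn κ b) : Cp κ fun x ρ => Sc (n x ρ) (f x ρ) (a x ρ) (b x ρ) :=
  ex (P := fun x ρ t => PR.it (n x ρ) (f x ρ) t (a x ρ) = b x ρ) hn
    (eq (it (w hn) (wF hf) (v 0) (w ha)) (w hb))

theorem amin {f : List Bool → Env → ℕ → ℕ} (hn : Cn κ n) (hf : F1 κ f) :
    Cn κ fun x ρ => amin (n x ρ) (f x ρ) :=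
  lst (P := fun x ρ m => ∀ m' < n x ρ, f x ρ m ≤ f x ρ m') hn
    (all (P := fun x ρ m' => f x (tl ρ) (hd (ρ 0)) ≤ f x (tl ρ) m') (w hn)
      (le (app (wF (wF hf)) (v 1)) (app (wF (wF hf)) (v 0))))

theorem sel (hn : Cn κ n) (hP : P1 κ P) : F1 κ fun x ρ => sel (n x ρ) (P x ρ) :=
  lst (P := fun x ρ y => y = n x (tl ρ) ∨ (P x (tl ρ) y ∧ PR.cnt y (P x (tl ρ)) = hd (ρ 0)))
    (add (w hn) (c 1))
    (or (eq (v 0) (w (w hn))) (and (appP (wP1 (wP1 hP)) (v 0))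
      (eq (cnt (v 0) (wP1 (wP1 hP))) (v 1))))

end

end K

end Pool.Agent.MP_1a6d78_lc.PR
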