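import Pool.Agent.MP_1a6d78_lc.PR.Spec

/-! PROJECT PR: basic facts on bounded operators, cycles and components. -/

namespace Pool.Agent.MP_1a6d78_lc.PR

open Classical ED

theorem lst_spec {n : ℕ} {P : ℕ → Prop} (h : ∃ m < n, P m) : lst n P < n ∧ P (lst n P) :=
  Nat.sInf_mem (s := {m | m < n ∧ P m}) h

theorem lst_le {n m : ℕ} {P : ℕ → Prop} (h : m < n) (hP : P m) : lst n P ≤ m :=
  Nat.sInf_le (s := {m | m < n ∧ P m}) ⟨h, hP⟩

theorem lst_none {n : ℕ} {P : ℕ → Prop} (h : ¬∃ m < n, P m) : lst n P = 0 := by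
  have : {m | m < n ∧ P m} = ∅ := Set.eq_empty_of_forall_notMem fun m hm => h ⟨m, hm⟩
  rw [lst, this, Nat.sInf_empty]

theorem lst_lt {n : ℕ} (P : ℕ → Prop) (h : 0 < n) : lst n P < n := by
  by_cases h1 : ∃ m < n, P m
  · exact (lst_spec h1).1
  · rw [lst_none h1]; exact h

theorem lst_congr {n : ℕ} {P Q : ℕ → Prop} (h : ∀ m < n, P m ↔ Q m) : lst n P = lst n Q := by
  unfold lst
  congr 1
  ext m
  exact ⟨fun k => ⟨k.1, (h m k.1).1 k.2⟩, fun k => ⟨k.1, (h m k.1).2 k.2⟩⟩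

theorem amin_spec {n : ℕ} (f : ℕ → ℕ) (h : 0 < n) :
    amin n f < n ∧ ∀ m < n, f (amin n f) ≤ f m := by
  obtain ⟨m, h1, h2⟩ := Finset.exists_min_image (Finset.range n) f ⟨0, Finset.mem_range.2 h⟩
  exact lst_spec ⟨m, Finset.mem_range.1 h1, fun m' k => h2 m' (Finset.mem_range.2 k)⟩

theorem cnt_le (n : ℕ) (P : ℕ → Prop) : cnt n P ≤ n :=
  (Finset.card_filter_le _ _).trans (Finset.card_range n).le

theorem cnt_succ (n : ℕ) (P : ℕ → Prop) : cnt (n + 1) P = cnt n P + if P n then 1 else 0 := by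
  simp only [cnt, Finset.card_filter, Finset.sum_range_succ]

/-- Counting by an injection. -/
theorem cnt_inj {n m : ℕ} {P Q : ℕ → Prop} (f : ℕ → ℕ) (h1 : ∀ a < n, P a → f a < m ∧ Q (f a))
    (h2 : ∀ a < n, ∀ b < n, P a → P b → f a = f b → a = b) : cnt n P ≤ cnt m Q := by
  refine Finset.card_le_card_of_injOn f (fun a ha => ?_) fun a ha b hb e => ?_
  · simp only [Finset.coe_filter, Finset.mem_range, Set.mem_ofPred_eq] at ha ⊢
    exact h1 a ha.1 ha.2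
  · simp only [Finset.coe_filter, Finset.mem_range, Set.mem_ofPred_eq] at ha hb
    exact h2 a ha.1 b hb.1 ha.2 hb.2 e

theorem cnt_mono {n : ℕ} {P Q : ℕ → Prop} (h : ∀ a < n, P a → Q a) : cnt n P ≤ cnt n Q :=
  cnt_inj id (fun a ha k => ⟨ha, h a ha k⟩) fun _ _ _ _ _ _ e => e

theorem cnt_congr {n : ℕ} {P Q : ℕ → Prop} (h : ∀ a < n, P a ↔ Q a) : cnt n P = cnt n Q :=
  le_antisymm (cnt_mono fun a k => (h a k).1) (cnt_mono fun a k => (h a k).2)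

theorem cnt_or (n : ℕ) (P Q : ℕ → Prop) : cnt n (fun a => P a ∨ Q a) ≤ cnt n P + cnt n Q := by
  induction n with
  | zero => simp [cnt]
  | succ n ih =>
    rw [cnt_succ, cnt_succ, cnt_succ]
    by_cases h1 : P n <;> by_cases h2 : Q n <;> simp [h1, h2] <;> omega

theorem cnt_lt {n a : ℕ} {P Q : ℕ → Prop} (h : ∀ a < n, P a → Q a) (ha : a < n) (h1 : Q a)
    (h2 : ¬P a) : cnt n P < cnt n Q := by
  refine Finset.card_lt_card ⟨fun b hb => ?_, fun k => ?_⟩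
  · simp only [Finset.mem_filter, Finset.mem_range] at hb ⊢
    exact ⟨hb.1, h b hb.1 hb.2⟩
  · have := k (Finset.mem_filter.2 ⟨Finset.mem_range.2 ha, h1⟩)
    exact h2 (Finset.mem_filter.1 this).2

theorem cnt_pos {n a : ℕ} {P : ℕ → Prop} (ha : a < n) (h : P a) : 0 < cnt n P :=
  Finset.card_pos.2 ⟨a, Finset.mem_filter.2 ⟨Finset.mem_range.2 ha, h⟩⟩

theorem sel_le (n : ℕ) (P : ℕ → Prop) (e : ℕ) : sel n P e ≤ n :=
  Nat.lt_succ_iff.1 (lst_lt _ n.succ_pos)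

theorem sel_spec {n e : ℕ} {P : ℕ → Prop} (h : sel n P e < n) :
    P (sel n P e) ∧ cnt (sel n P e) P = e :=
  (lst_spec (P := fun x => x = n ∨ (P x ∧ cnt x P = e)) ⟨n, n.lt_succ_self, Or.inl rfl⟩).2.resolve_left
    h.ne

theorem cnt_lt_of {x y : ℕ} {P : ℕ → Prop} (h : x < y) (hP : P x) : cnt x P < cnt y P := by
  induction y, h using Nat.le_induction with
  | base => rw [cnt_succ, if_pos hP]; omega
  | succ y _ ih => rw [cnt_succ]; omega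

/-- Every number below `n` with `P` is selected. -/
theorem sel_cnt {n x : ℕ} {P : ℕ → Prop} (h : x < n) (hP : P x) :
    sel n P (cnt x P) = x ∧ cnt x P < cnt n P := by
  have h1 : sel n P (cnt x P) ≤ x := lst_le (by omega) (Or.inr ⟨hP, rfl⟩)
  obtain ⟨h2, h3⟩ := sel_spec (h1.trans_lt h)
  refine ⟨h1.eq_or_lt.resolve_right fun k => ?_, cnt_lt_of h hP⟩
  have := cnt_lt_of k h2
  omega

theorem iter_inv {Q : ℕ → Prop} {f : ℕ → ℕ} (hf : ∀ a, Q a → Q (f a)) {d : ℕ} (hd : Q d)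
    (t : ℕ) : Q (f^[t] d) := by
  induction t with
  | zero => exact hd
  | succ t ih => rw [Function.iterate_succ_apply']; exact hf _ ih

theorem it_eq' {n : ℕ} {Q : ℕ → Prop} {f : ℕ → ℕ} (hf : ∀ a, Q a → Q (f a))
    (hQ : ∀ a, Q a → a < n) {d : ℕ} (hd : Q d) (t : ℕ) : it n f t d = f^[t] d := by
  induction t with
  | zero => rfl
  | succ t ih =>
    have := hQ _ (iter_inv hf hd (t + 1))
    rw [Function.iterate_succ_apply'] at this ⊢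
    show min (f (it n f t d)) n = _
    rw [ih, min_eq_left this.le]

theorem it_eq {n : ℕ} {f : ℕ → ℕ} (hf : ∀ a < n, f a < n) {d : ℕ} (hd : d < n) (t : ℕ) :
    it n f t d = f^[t] d :=
  it_eq' (Q := fun a => a < n) hf (fun _ h => h) hd t

/-- Up to the first visit of a point the iterates are distinct. -/
theorem iter_first {f : ℕ → ℕ} {a b l : ℕ} (h : f^[l] a = b) (hl : ∀ t < l, f^[t] a ≠ b) :
    ∀ s ≤ l, ∀ t ≤ l, f^[s] a = f^[t] a → s = t := by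
  have key : ∀ s t, s < t → t ≤ l → f^[s] a ≠ f^[t] a := fun s t h1 h2 e => by
    refine hl (l - t + s) (by omega) ?_
    rw [Function.iterate_add_apply, e, ← Function.iterate_add_apply, Nat.sub_add_cancel h2, h]
  intro s hs t ht e
  rcases lt_trichotomy s t with k | k | k
  · exact absurd e (key s t k ht)
  · exact k
  · exact absurd e.symm (key t s k hs)

theorem iter_bnd' {n : ℕ} {Q : ℕ → Prop} {f : ℕ → ℕ} (hf : ∀ a, Q a → Q (f a))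
    (hQ : ∀ a, Q a → a < n) {a b t : ℕ} (ha : Q a) (h : f^[t] a = b) : ∃ s < n, f^[s] a = b := by
  have ex : ∃ t, f^[t] a = b := ⟨t, h⟩
  refine ⟨Nat.find ex, ?_, Nat.find_spec ex⟩
  have := cnt_inj (n := Nat.find ex + 1) (m := n) (P := fun _ => True) (Q := fun _ => True)
    (fun s => f^[s] a) (fun s _ _ => ⟨hQ _ (iter_inv hf ha s), trivial⟩) fun s hs u hu _ _ e =>
      iter_first (Nat.find_spec ex) (fun _ k => Nat.find_min ex k) s (by omega) u (by omega) e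
  simpa [cnt] using this

theorem sc_iff {n : ℕ} {f : ℕ → ℕ} (hf : ∀ a < n, f a < n) {a b : ℕ} (ha : a < n) :
    Sc n f a b ↔ ∃ t, f^[t] a = b := by
  constructor
  · rintro ⟨t, _, h⟩
    exact ⟨t, (it_eq hf ha t).symm.trans h⟩
  · rintro ⟨t, h⟩
    obtain ⟨s, h1, h2⟩ := iter_bnd' (Q := fun a => a < n) hf (fun _ h => h) ha h
    exact ⟨s, h1, (it_eq hf ha s).trans h2⟩

theorem Sc.refl {n a : ℕ} (f : ℕ → ℕ) (ha : a < n) : Sc n f a a := ⟨0, by omega, rfl⟩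

theorem Sc.lt {n : ℕ} {f : ℕ → ℕ} (hf : ∀ a < n, f a < n) {a b : ℕ} (ha : a < n)
    (h : Sc n f a b) : b < n := by
  obtain ⟨t, rfl⟩ := (sc_iff hf ha).1 h
  exact iter_inv (Q := fun a => a < n) hf ha t

theorem Sc.step {n : ℕ} {f : ℕ → ℕ} (hf : ∀ a < n, f a < n) {a : ℕ} (ha : a < n) :
    Sc n f a (f a) := (sc_iff hf ha).2 ⟨1, rfl⟩

theorem Sc.trans {n : ℕ} {f : ℕ → ℕ} (hf : ∀ a < n, f a < n) {a b c : ℕ} (ha : a < n)
    (h : Sc n f a b) (h' : Sc n f b c) : Sc n f a c := by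
  obtain ⟨s, rfl⟩ := (sc_iff hf (h.lt hf ha)).1 h'
  obtain ⟨t, rfl⟩ := (sc_iff hf ha).1 h
  exact (sc_iff hf ha).2 ⟨s + t, Function.iterate_add_apply _ _ _ _⟩

/-- Induction along a cycle. -/
theorem Sc.ind {n : ℕ} {f : ℕ → ℕ} (hf : ∀ a < n, f a < n) {Q : ℕ → Prop} {a b : ℕ} (ha : a < n)
    (h0 : Q a) (hs : ∀ d < n, Q d → Q (f d)) (h : Sc n f a b) : Q b := by
  obtain ⟨t, rfl⟩ := (sc_iff hf ha).1 h
  exact (iter_inv (Q := fun d => d < n ∧ Q d) (fun d k => ⟨hf d k.1, hs d k.1 k.2⟩) ⟨ha, h0⟩ t).2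

theorem Pm.iter_inj {n : ℕ} {f : ℕ → ℕ} (hf : Pm n f) (t : ℕ) {a b : ℕ} (ha : a < n) (hb : b < n)
    (e : f^[t] a = f^[t] b) : a = b := by
  induction t with
  | zero => exact e
  | succ t ih =>
    rw [Function.iterate_succ_apply', Function.iterate_succ_apply'] at e
    exact ih (hf.2 _ (iter_inv (Q := fun a => a < n) hf.1 ha t) _
      (iter_inv (Q := fun a => a < n) hf.1 hb t) e)

theorem Pm.period {n : ℕ} {f : ℕ → ℕ} (hf : Pm n f) {a : ℕ} (ha : a < n) :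
    ∃ p, 0 < p ∧ f^[p] a = a := by
  obtain ⟨s, h1, h2⟩ := iter_bnd' (Q := fun a => a < n) hf.1 (fun _ h => h) ha
    (rfl : f^[n] a = f^[n] a)
  refine ⟨n - s, by omega, (hf.iter_inj s (iter_inv (Q := fun a => a < n) hf.1 ha _) ha ?_)⟩
  rw [← Function.iterate_add_apply, Nat.add_sub_cancel' h1.le, h2]

theorem Sc.symm {n : ℕ} {f : ℕ → ℕ} (hf : Pm n f) {a b : ℕ} (ha : a < n) (h : Sc n f a b) :
    Sc n f b a := by
  refine Sc.ind hf.1 (Q := fun d => Sc n f d a) ha (Sc.refl f ha) (fun d hd k => ?_) h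
  obtain ⟨p, h1, h2⟩ := hf.period hd
  obtain ⟨p, rfl⟩ : ∃ p', p = p' + 1 := ⟨p - 1, by omega⟩
  exact Sc.trans hf.1 (hf.1 d hd) ((sc_iff hf.1 (hf.1 d hd)).2 ⟨p, h2⟩) k

theorem Pm.eqv {n : ℕ} {f : ℕ → ℕ} (hf : Pm n f) : Eqv n (Sc n f) :=
  ⟨fun _ h => Sc.refl f h, fun _ h _ _ k => k.symm hf h, fun _ h _ _ _ _ k k' => k.trans hf.1 h k'⟩

theorem Sc.congr {n : ℕ} {f g : ℕ → ℕ} (hf : ∀ a < n, f a < n) (e : ∀ a < n, f a = g a)
    {a b : ℕ} (ha : a < n) (h : Sc n f a b) : Sc n g a b :=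
  have hg : ∀ a < n, g a < n := fun a k => e a k ▸ hf a k
  Sc.ind hf ha (Sc.refl g ha) (fun d hd k => e d hd ▸ k.trans hg ha (Sc.step hg hd)) h

/-- Going round a cycle with the step into `m` missing. -/
theorem Sc.round {n : ℕ} {f lab : ℕ → ℕ} (hf : ∀ a < n, f a < n) {m a : ℕ} (hm : m < n)
    (hs : ∀ d < n, Sc n f m d → f d ≠ m → lab (f d) = lab d) (h : Sc n f m a) : lab a = lab m := by
  refine (Sc.ind hf (Q := fun d => Sc n f m d ∧ lab d = lab m) hm ⟨Sc.refl f hm, rfl⟩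
    (fun d hd k => ⟨k.1.trans hf hm (Sc.step hf hd), ?_⟩) h).2
  by_cases e : f d = m
  · rw [e]
  · rw [hs d hd k.1 e, k.2]

theorem Iv.pm {n : ℕ} {γ : ℕ → ℕ} (h : Iv n γ) : Pm n γ :=
  ⟨fun d k => (h d k).1, fun a ha b hb e => by rw [← (h a ha).2, e, (h b hb).2]⟩

theorem Pm.comp {n : ℕ} {f g : ℕ → ℕ} (hf : Pm n f) (hg : Pm n g) : Pm n fun d => f (g d) :=
  ⟨fun d k => hf.1 _ (hg.1 d k), fun a ha b hb e =>
    hg.2 a ha b hb (hf.2 _ (hg.1 a ha) _ (hg.1 b hb) e)⟩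

theorem Iv.add {n a b : ℕ} {γ : ℕ → ℕ} (h : Iv n γ) (ha : a < n) (hb : b < n) (ea : γ a = a)
    (eb : γ b = b) : Iv n fun d => γ (sw a b d) := by
  intro d hd
  by_cases h1 : d = a
  · by_cases h2 : b = a <;> simp [sw, h1, h2, ea, eb, ha, hb]
  by_cases h2 : d = b
  · subst h2; simp [sw, h1, ea, eb, ha]
  have k1 : γ d ≠ a := fun e => h1 (by rw [← (h d hd).2, e, ea])
  have k2 : γ d ≠ b := fun e => h2 (by rw [← (h d hd).2, e, eb])
  simp [sw, h1, h2, k1, k2, h d hd]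

theorem Iv.del {n a : ℕ} {γ : ℕ → ℕ} (h : Iv n γ) (ha : a < n) : Iv n (del γ a) := by
  intro d hd
  by_cases h1 : d = a ∨ d = γ a
  · simp only [PR.del, if_pos h1]; exact ⟨hd, trivial⟩
  have k : ¬(γ d = a ∨ γ d = γ a) := by
    rintro (e | e)
    · exact h1 (Or.inr (by rw [← e, (h d hd).2]))
    · exact h1 (Or.inl (h.pm.2 d hd a ha e))
  simp only [PR.del, if_neg h1, if_neg k]
  exact h d hd

theorem del_sb (n a : ℕ) (γ : ℕ → ℕ) : Sb n (del γ a) γ := fun d _ => by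
  unfold del
  split_ifs
  · exact Or.inl rfl
  · exact Or.inr rfl

theorem del_eq {n a : ℕ} {γ : ℕ → ℕ} (h : Iv n γ) (ha : a < n) (d : ℕ) :
    γ (sw a (γ a) d) = del γ a d := by
  by_cases h1 : d = a
  · simp [sw, del, h1, h a ha]
  by_cases h2 : d = γ a
  · subst h2; simp [sw, del, h1]
  simp [sw, del, h1, h2]

theorem Sb.trans {n : ℕ} {γ γ' β : ℕ → ℕ} (h : Sb n γ γ') (h' : Sb n γ' β) : Sb n γ β :=
  fun d hd => (h d hd).elim Or.inl fun e => e ▸ h' d hd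

theorem Conn.refl (n : ℕ) (ρ γ : ℕ → ℕ) (a : ℕ) : Conn n ρ γ a a := Relation.EqvGen.refl a

theorem Conn.symm {n : ℕ} {ρ γ : ℕ → ℕ} {a b : ℕ} (h : Conn n ρ γ a b) : Conn n ρ γ b a :=
  Relation.EqvGen.symm _ _ h

theorem Conn.trans {n : ℕ} {ρ γ : ℕ → ℕ} {a b c : ℕ} (h : Conn n ρ γ a b) (h' : Conn n ρ γ b c) :
    Conn n ρ γ a c := Relation.EqvGen.trans _ _ _ h h'

theorem Conn.rho {n : ℕ} (ρ γ : ℕ → ℕ) {a : ℕ} (h : a < n) : Conn n ρ γ a (ρ a) :=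
  Relation.EqvGen.rel _ _ ⟨h, Or.inl rfl⟩

theorem Conn.gam {n : ℕ} (ρ γ : ℕ → ℕ) {a : ℕ} (h : a < n) : Conn n ρ γ a (γ a) :=
  Relation.EqvGen.rel _ _ ⟨h, Or.inr rfl⟩

theorem Conn.eqv (n : ℕ) (ρ γ : ℕ → ℕ) : Eqv n (Conn n ρ γ) :=
  ⟨fun a _ => Conn.refl n ρ γ a, fun _ _ _ _ h => h.symm, fun _ _ _ _ _ _ h h' => h.trans h'⟩

/-- An equivalence that contains the steps contains `Conn`. -/
theorem Conn.ind {n : ℕ} {ρ γ : ℕ → ℕ} {r : ℕ → ℕ → Prop} (hr : Equivalence r)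
    (h1 : ∀ a < n, r a (ρ a)) (h2 : ∀ a < n, r a (γ a)) {a b : ℕ} (h : Conn n ρ γ a b) : r a b := by
  induction h with
  | rel a b k => rcases k with ⟨k, rfl | rfl⟩; exacts [h1 a k, h2 a k]
  | refl a => exact hr.refl a
  | symm _ _ _ ih => exact hr.symm ih
  | trans _ _ _ _ _ ih ih' => exact hr.trans ih ih'

theorem Conn.le {n : ℕ} {ρ γ γ' : ℕ → ℕ} (h2 : ∀ a < n, Conn n ρ γ' a (γ a)) {a b : ℕ}
    (h : Conn n ρ γ a b) : Conn n ρ γ' a b :=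
  Conn.ind ⟨Conn.refl n ρ γ', Conn.symm, Conn.trans⟩ (fun _ k => Conn.rho ρ γ' k) h2 h

theorem Conn.mono {n : ℕ} {ρ γ γ' : ℕ → ℕ} (hs : Sb n γ γ') {a b : ℕ} (h : Conn n ρ γ a b) :
    Conn n ρ γ' a b :=
  h.le fun a k => (hs a k).elim (fun e => e.symm ▸ Conn.refl n ρ γ' a)
    fun e => e.symm ▸ Conn.gam ρ γ' k

theorem Sc.conn {n : ℕ} {ρ γ : ℕ → ℕ} (hρ : Pm n ρ) (hγ : Iv n γ) {a b : ℕ} (ha : a < n)
    (h : Sc n (fun d => ρ (γ d)) a b) : Conn n ρ γ a b :=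
  Sc.ind (hρ.comp hγ.pm).1 ha (Conn.refl n ρ γ a)
    (fun d hd k => k.trans ((Conn.gam ρ γ hd).trans (Conn.rho ρ γ (hγ d hd).1))) h

theorem Sc.conn' {n : ℕ} {ρ : ℕ → ℕ} (γ : ℕ → ℕ) (hρ : Pm n ρ) {a b : ℕ} (ha : a < n)
    (h : Sc n ρ a b) : Conn n ρ γ a b :=
  Sc.ind hρ.1 ha (Conn.refl n ρ γ a) (fun _ hd k => k.trans (Conn.rho ρ γ hd)) h

theorem Pl.sub {n : ℕ} {ρ β β' : ℕ → ℕ} (h : Pl n ρ β) (hs : Sb n β' β) : Pl n ρ β' := by
  intro γ h1 h2 a ha e k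
  rcases hs a ha with e' | e'
  · rw [e']; exact Sc.refl _ ha
  · rw [e'] at k ⊢; exact h γ h1 (h2.trans hs) a ha e k

namespace Mp

variable {M : Mp}

theorem nd_spec {d : ℕ} (hd : d < M.n) : M.nd d < M.n ∧ Sc M.n M.ρ d (M.nd d) :=
  lst_spec ⟨d, hd, Sc.refl _ hd⟩

theorem nd_iff (h : Pm M.n M.ρ) {a b : ℕ} (ha : a < M.n) (hb : b < M.n) :
    M.nd a = M.nd b ↔ Sc M.n M.ρ a b := by
  constructor
  · intro e
    exact (nd_spec ha).2.trans h.1 ha (e ▸ (nd_spec hb).2.symm h hb)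
  · intro k
    exact lst_congr fun m _ => ⟨fun k' => (k.symm h ha).trans h.1 hb k', fun k' => k.trans h.1 ha k'⟩

theorem nd_nd (h : Pm M.n M.ρ) {d : ℕ} (hd : d < M.n) : M.nd (M.nd d) = M.nd d :=
  ((nd_iff h hd (nd_spec hd).1).2 (nd_spec hd).2).symm

theorem arc_lt (h : Iv M.n M.β) (u v : ℕ) (k : M.arc u v) : u < M.n ∧ v < M.n := by
  obtain ⟨d, h1, _, rfl, rfl⟩ := k
  exact ⟨(nd_spec h1).1, (nd_spec (h d h1).1).1⟩

end Mp

end Pool.Agent.MP_1a6d78_lc.PR
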