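import Pool.Agent.MP_1a6d78_lc.PR.Basic
import Pool.Agent.MP_1a6d78_lc.PR.Kit
import Mathlib.NumberTheory.Bertrand
import Mathlib.Algebra.Field.ZMod

-- ======== part 0: formerly Pool.Agent.MP_1a6d78_lc.PR.ABall
section MrgPart0

/-! PROJECT PR, row ABALL: membership in the frozen balls is computable. -/

namespace Pool.Agent.MP_1a6d78_lc.PR

open Classical ED

namespace ABallA

/-- The first `K` members below `q`, with sentinel `q`. -/
noncomputable def enc (q K : ℕ) (P : ℕ → Prop) : List ℕ := tab K (sel q P)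

def mem (q K : ℕ) (l : List ℕ) (u : ℕ) : Prop := u < q ∧ ∃ e < K, gt l e = u

def nxt (q k : ℕ) (nb : ℕ → ℕ → ℕ) (B : ℕ → Prop) (u : ℕ) : Prop :=
  B u ∨ (cnt q B < k ∧ ∃ w < q, B w ∧ ∃ r < 4, nb w r = u)

noncomputable def step (q k : ℕ) (nb : ℕ → ℕ → ℕ) (l : List ℕ) : List ℕ :=
  enc q (5 * k + 1) (nxt q k nb (mem q (5 * k + 1) l))

theorem gt_tab {K e : ℕ} (f : ℕ → ℕ) (h : e < K) : gt (tab K f) e = f e := by
  simp [gt, tab, List.getD_eq_getElem?_getD, h]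

theorem mem_enc {q K : ℕ} {P : ℕ → Prop} (h : cnt q P ≤ K) (u : ℕ) :
    mem q K (enc q K P) u ↔ u < q ∧ P u := by
  constructor
  · rintro ⟨hu, e, he, h1⟩
    rw [enc, gt_tab _ he] at h1
    subst h1
    exact ⟨hu, (sel_spec hu).1⟩
  · rintro ⟨hu, hP⟩
    have h1 : cnt u P < K := (cnt_lt_of hu hP).trans_le h
    exact ⟨hu, cnt u P, h1, by rw [enc, gt_tab _ h1, (sel_cnt hu hP).1]⟩

theorem enc_congr {q K : ℕ} {P Q : ℕ → Prop} (h : ∀ u < q, P u ↔ Q u) :
    enc q K P = enc q K Q := by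
  have : sel q P = sel q Q := by
    funext e
    refine lst_congr fun m hm => ?_
    by_cases h1 : m = q
    · simp [h1]
    · have h2 : m < q := by omega
      rw [h m h2, cnt_congr (P := P) (Q := Q) fun a ha => h a (ha.trans h2)]
  rw [enc, enc, this]

theorem nxt_congr {q k : ℕ} {nb : ℕ → ℕ → ℕ} {P Q : ℕ → Prop} (h : ∀ u < q, P u ↔ Q u) :
    ∀ u < q, nxt q k nb P u ↔ nxt q k nb Q u := by
  intro u hu
  rw [nxt, nxt, h u hu, cnt_congr h]
  refine or_congr Iff.rfl (and_congr Iff.rfl (exists_congr fun w => ?_))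
  exact and_congr_right fun hw => by rw [h w hw]

theorem cnt_nb (q : ℕ) (nb : ℕ → ℕ → ℕ) (B : ℕ → Prop) :
    cnt q (fun u => ∃ w < q, B w ∧ ∃ r < 4, nb w r = u) ≤ cnt q B * 4 := by
  have h1 : cnt q B * 4 = (((Finset.range q).filter B) ×ˢ Finset.range 4).card := by
    rw [Finset.card_product, Finset.card_range, cnt]
  rw [h1]
  refine le_trans (Finset.card_le_card ?_)
    (Finset.card_image_le (f := fun p : ℕ × ℕ => nb p.1 p.2))
  intro u hu
  simp only [Finset.mem_filter] at hu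
  obtain ⟨-, w, hw, hB, r, hr, rfl⟩ := hu
  exact Finset.mem_image.2 ⟨(w, r), Finset.mem_product.2
    ⟨Finset.mem_filter.2 ⟨Finset.mem_range.2 hw, hB⟩, Finset.mem_range.2 hr⟩, rfl⟩

theorem cnt_ball (q : ℕ) (nb : ℕ → ℕ → ℕ) (k v t : ℕ) : cnt q (ball q nb k v t) ≤ 5 * k + 1 := by
  induction t with
  | zero =>
    have : cnt q (ball q nb k v 0) ≤ cnt 1 fun _ => True :=
      cnt_inj (fun _ => 0) (fun _ _ _ => ⟨by omega, trivial⟩) (by
        intro a _ b _ ha hb _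
        exact ha.trans hb.symm)
    have h2 := cnt_le 1 fun _ => True
    omega
  | succ t ih =>
    by_cases h : cnt q (ball q nb k v t) < k
    · have h1 : cnt q (ball q nb k v (t + 1)) ≤ cnt q fun u => ball q nb k v t u ∨
          ∃ w < q, ball q nb k v t w ∧ ∃ r < 4, nb w r = u :=
        cnt_mono fun a _ ha => ha.imp id And.right
      have h2 := cnt_or q (ball q nb k v t)
        fun u => ∃ w < q, ball q nb k v t w ∧ ∃ r < 4, nb w r = u
      have h3 := cnt_nb q nb (ball q nb k v t)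
      omega
    · exact le_trans (cnt_mono fun a _ ha => ha.elim id fun h1 => absurd h1.1 h) ih

theorem itr_step (q : ℕ) (nb : ℕ → ℕ → ℕ) (k v t : ℕ) :
    itr (fun _ l => step q k nb l) (enc q (5 * k + 1) fun u => u = v) t =
      enc q (5 * k + 1) (ball q nb k v t) := by
  induction t with
  | zero => rfl
  | succ t ih =>
    rw [itr, ih, step]
    refine enc_congr (nxt_congr (Q := ball q nb k v t) fun u hu => ?_)
    rw [mem_enc (cnt_ball q nb k v t)]
    exact and_iff_right hu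

theorem enc_le (q K : ℕ) (P : ℕ → Prop) : ∀ a ∈ enc q K P, a ≤ q := by
  intro a ha
  obtain ⟨e, -, rfl⟩ := List.mem_map.1 ha
  exact sel_le _ _ _

variable {κ q k : List Bool → ℕ}

theorem memC (hq : Cn κ fun x _ => q x) (hk : Cn κ fun x _ => k x)
    {l : List Bool → Env → List ℕ} {u : List Bool → Env → ℕ} (hl : Cm κ l) (hu : Cn κ u) :
    Cp κ fun x ρ => mem (q x) (5 * k x + 1) (l x ρ) (u x ρ) :=
  K.and (K.lt hu hq) (K.ex (P := fun x ρ e => gt (l x ρ) e = u x ρ)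
    (K.add (K.mul (K.c 5) hk) (K.c 1)) (K.eq (K.gt (K.wL hl) (K.v 0)) (K.w hu)))

theorem encC (hq : Cn κ fun x _ => q x) (hk : Cn κ fun x _ => k x) (hκ : ∀ x, 5 * k x + 1 ≤ κ x)
    {P : List Bool → Env → ℕ → Prop} (hP : P1 κ P) :
    Cm κ fun x ρ => enc (q x) (5 * k x + 1) (P x ρ) :=
  (kitOne κ).tab (fun x ρ => sel (q x) (P x ρ)) hκ (K.add (K.mul (K.c 5) hk) (K.c 1))
    (K.sel (n := fun x _ => q x) hq hP)

theorem stepC {nb : List Bool → ℕ → ℕ → ℕ} (hq : Cn κ fun x _ => q x) (hk : Cn κ fun x _ => k x)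
    (hκ : ∀ x, 5 * k x + 1 ≤ κ x)
    (hnb : ∀ a b : List Bool → Env → ℕ, Cn κ a → Cn κ b → Cn κ fun x ρ => nb x (a x ρ) (b x ρ))
    {l : List Bool → Env → List ℕ} (hl : Cm κ l) :
    Cm κ fun x ρ => step (q x) (k x) (nb x) (l x ρ) :=
  encC hq hk hκ (P := fun x ρ => nxt (q x) (k x) (nb x) (mem (q x) (5 * k x + 1) (l x ρ)))
    (K.or (memC hq hk (K.wL hl) (K.v 0))
      (K.and
        (K.lt (K.cnt (n := fun x _ => q x)
          (P := fun x ρ => mem (q x) (5 * k x + 1) (l x (tl ρ))) hq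
          (memC hq hk (K.wL (K.wL hl)) (K.v 0))) hk)
        (K.ex (n := fun x _ => q x) (P := fun x ρ w => mem (q x) (5 * k x + 1) (l x (tl ρ)) w ∧
            ∃ r < 4, nb x w r = hd (ρ 0)) hq
          (K.and (memC hq hk (K.wL (K.wL hl)) (K.v 0))
            (K.ex (n := fun _ _ => 4) (P := fun x ρ r => nb x (hd (ρ 0)) r = hd (ρ 1)) (K.c 4)
              (K.eq (hnb _ _ (K.v 1) (K.v 0)) (K.v 2)))))))

end ABallA

open ABallA in
theorem aBall : ABall := by
  intro κ q k nb hq hk hκ hnb v t u hv ht hu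
  have h0 : Cm κ fun x ρ => enc (q x) (5 * k x + 1) fun u => u = v x ρ :=
    encC hq hk hκ (P := fun x ρ u => u = v x ρ) (K.eq (K.v 0) (K.w hv))
  have h1 := (kitOne κ).foldL (fun x _ _ l => step (q x) (k x) (nb x) l) (fun x _ _ => q x) ht h0
    (stepC hq hk hκ hnb (K.vL 0)) hq
    fun x _ _ _ _ _ h a ha => (enc_le _ _ _ a ha).trans h
  refine K.cgP (memC hq hk h1 hu) fun x ρ => ?_
  rw [itr_step, mem_enc (cnt_ball _ _ _ _ _)]

end Pool.Agent.MP_1a6d78_lc.PR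

end MrgPart0

-- ======== part 1: formerly Pool.Agent.MP_1a6d78_lc.PR.AFm
section MrgPart1

/-! PROJECT PR, rows AFM and ALN: forests, contours and sectors are computable. -/

namespace Pool.Agent.MP_1a6d78_lc.PR

open Classical ED

namespace AF

variable {κ : List Bool → ℕ}

section
variable {F : List Bool → Fm} (h : Fm.C κ F)
include h

theorem isF : P1 κ fun x _ => (F x).isF := by
  obtain ⟨_, _, hβ, hnd, hpd, _⟩ := h
  have b : Cn κ fun x ρ => (F x).β (hd (ρ 0)) := hβ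
  exact K.or (K.eq (K.app hpd hnd) (K.v 0)) (K.eq (K.app hpd (K.app hnd b)) b)

theorem wt : F1 κ fun x _ => (F x).wt := by
  have hF := isF h
  obtain ⟨hn, _, hβ, hnd, _, hht⟩ := h
  have b : Cn κ fun x ρ => (F x).β (hd (ρ 0)) := hβ
  exact K.add (K.mul (K.add (K.mul (K.max (K.app hht hnd) (K.app hht (K.app hnd b))) (K.c 2))
    (K.ite hF (K.c 0) (K.c 1))) hn) (K.min (K.v 0) b)

theorem tau : F1 κ fun x _ => (F x).tau := by
  have hw := wt h
  obtain ⟨hn, hρ, hβ, _⟩ := h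
  have b : Cn κ fun x ρ => (F x).β (hd (ρ 0)) := hβ
  have w0 : Cn κ fun x ρ => (F x).wt (hd (ρ 0)) := hw
  have hf : F1 κ fun x ρ e =>
      (F x).ρ (if (F x).wt e < (F x).wt (hd (ρ 0)) then (F x).β e else e) :=
    K.app hρ (K.ite (K.lt w0 (K.app hw (K.v 1))) b (K.v 0))
  exact K.ite (K.sc hn hf (K.v 0) b) (K.v 0) b

end

section
variable {n : List Bool → Env → ℕ} {φ : List Bool → Env → ℕ → ℕ} {rt : List Bool → Env → ℕ → Prop}

theorem st (hn : Cn κ n) (hφ : F1 κ φ) (hr : P1 κ rt) :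
    F1 κ fun x ρ => st (n x ρ) (φ x ρ) (rt x ρ) :=
  K.lst (P := fun x ρ e => Sc (n x (tl ρ)) (φ x (tl ρ)) (hd (ρ 0)) e ∧ rt x (tl ρ) e) (K.w hn)
    (K.and (K.sc (K.w (K.w hn)) (K.wF (K.wF hφ)) (K.v 1) (K.v 0))
      (K.appP (K.wP1 (K.wP1 hr)) (K.v 0)))

theorem ps (hn : Cn κ n) (hφ : F1 κ φ) (hr : P1 κ rt) :
    F1 κ fun x ρ => ps (n x ρ) (φ x ρ) (rt x ρ) :=
  K.add (K.mul (st hn hφ hr) (K.w hn))
    (K.lst (P := fun x ρ t => it (n x (tl ρ)) (φ x (tl ρ)) t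
      (PR.st (n x (tl ρ)) (φ x (tl ρ)) (rt x (tl ρ)) (hd (ρ 0))) = hd (ρ 0)) (K.w hn)
      (K.eq (K.it (K.w (K.w hn)) (K.wF (K.wF hφ)) (K.v 0)
        (K.app (K.wF (K.wF (st hn hφ hr))) (K.v 1))) (K.v 1)))

end

section
variable {L : List Bool → Env → Ln} (h : Ln.C κ L)
include h

theorem wk : Ln.C κ fun x ρ => L x (tl ρ) :=
  ⟨K.w h.1, K.wF h.2.1, K.wF h.2.2.1, K.wP1 h.2.2.2⟩

theorem blk : F1 κ fun x ρ => (L x ρ).blk := by
  have h2 := wk (wk h)
  exact K.add (K.mul (K.c 2) (K.cnt (P := fun x ρ e => (L x (tl ρ)).sp e ∧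
    (L x (tl ρ)).pos e < (L x (tl ρ)).pos (hd (ρ 0))) (K.w h.1)
    (K.and (K.appP h2.2.2.2 (K.v 0)) (K.lt (K.app h2.2.1 (K.v 0)) (K.app h2.2.1 (K.v 1))))))
    (K.ite h.2.2.2 (K.c 1) (K.c 0))

theorem ess : P1 κ fun x ρ => (L x ρ).ess := K.ne (K.app (K.wF (blk h)) h.2.2.1) (blk h)

theorem aft {a b : List Bool → Env → ℕ} (ha : Cn κ a) (hb : Cn κ b) :
    Cp κ fun x ρ => (L x ρ).aft (a x ρ) (b x ρ) :=
  K.and (K.eq (K.app (blk h) hb) (K.app (blk h) ha))
    (K.and (K.le (K.app h.2.1 ha) (K.app h.2.1 hb)) (K.appP (ess h) hb))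

theorem key : F1 κ fun x ρ => (L x ρ).key := by
  have h1 := wk h
  have h2 := wk h1
  have h3 := wk h2
  have e0 : Cn κ fun x ρ => lst (L x (tl ρ)).n fun e => (L x (tl ρ)).aft (hd (ρ 0)) e ∧
      ∀ e' < (L x (tl ρ)).n, (L x (tl ρ)).aft (hd (ρ 0)) e' →
        (L x (tl ρ)).pos e ≤ (L x (tl ρ)).pos e' :=
    K.lst h1.1 (K.and (aft h2 (K.v 1) (K.v 0))
      (K.all (P := fun x ρ e' => (L x (tl (tl ρ))).aft (hd (ρ 1)) e' →
        (L x (tl (tl ρ))).pos (hd (ρ 0)) ≤ (L x (tl (tl ρ))).pos e') h2.1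
        (K.imp (aft h3 (K.v 2) (K.v 0)) (K.le (K.app h3.2.1 (K.v 1)) (K.app h3.2.1 (K.v 0))))))
  exact K.ite (K.ex (P := fun x ρ e => (L x (tl ρ)).aft (hd (ρ 0)) e) h1.1
    (aft h2 (K.v 1) (K.v 0))) (K.add (K.app (blk h1) (K.app h1.2.2.1 e0)) (K.c 1)) (K.c 0)

theorem fs : P1 κ fun x ρ => (L x ρ).fs := by
  have h2 := wk (wk h)
  exact K.all (P := fun x ρ e => (L x (tl ρ)).blk e = (L x (tl ρ)).blk (hd (ρ 0)) →
    (L x (tl ρ)).key e = (L x (tl ρ)).key (hd (ρ 0)) →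
      (L x (tl ρ)).pos (hd (ρ 0)) ≤ (L x (tl ρ)).pos e) (K.w h.1)
    (K.imp (K.eq (K.app (blk h2) (K.v 0)) (K.app (blk h2) (K.v 1)))
      (K.imp (K.eq (K.app (key h2) (K.v 0)) (K.app (key h2) (K.v 1)))
        (K.le (K.app h2.2.1 (K.v 1)) (K.app h2.2.1 (K.v 0)))))

theorem rk : F1 κ fun x ρ => (L x ρ).rk := by
  have h2 := wk (wk h)
  exact K.sub (K.cnt (P := fun x ρ e => (L x (tl ρ)).fs e ∧
    (L x (tl ρ)).pos e ≤ (L x (tl ρ)).pos (hd (ρ 0))) (K.w h.1)
    (K.and (K.appP (fs h2) (K.v 0)) (K.le (K.app h2.2.1 (K.v 0)) (K.app h2.2.1 (K.v 1))))) (K.c 1)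

theorem ind {P : List Bool → Env → ℕ → Prop} {f : List Bool → Env → ℕ → ℕ} (hP : P1 κ P)
    (hf : F1 κ f) : F1 κ fun x ρ => (L x ρ).ind (P x ρ) (f x ρ) := by
  have h1 := wk h
  have c : P1 κ fun x ρ d => (L x (tl ρ)).rk d = hd (ρ 0) ∧ P x (tl ρ) d :=
    K.and (K.eq (K.app (rk (wk h1)) (K.v 0)) (K.v 1)) (K.appP (K.wP1 (K.wP1 hP)) (K.v 0))
  exact K.ite (K.ex h1.1 c) (K.app (rk h1) (K.app (K.wF hf) (K.lst h1.1 c))) (K.v 0)

end

end AF

theorem aFm : AFm := fun _ =>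
  ⟨fun _ h => ⟨AF.tau h, K.and (K.ne (AF.tau h) (K.v 0)) (K.not (AF.isF h))⟩,
    fun _ _ _ hn hφ hr => AF.ps hn hφ hr⟩

theorem aLn : ALn := fun _ _ h =>
  ⟨AF.fs h, AF.rk h, K.cnt h.1 (AF.fs h), AF.ind h (AF.ess h) h.2.2.1,
    fun _ _ hP hf => AF.ind h hP hf⟩

end Pool.Agent.MP_1a6d78_lc.PR

end MrgPart1

-- ======== part 2: formerly Pool.Agent.MP_1a6d78_lc.PR.ALd
section MrgPart2

/-! PROJECT PR, rows ALD and ALEV: the levels are computable. -/

namespace Pool.Agent.MP_1a6d78_lc.PR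

open Classical ED

theorem aLd : AFm → ALn → APt → ALd := by
  intro hF hL hP κ D M ⟨hn, hρ, hβ, hdir, hs, _⟩ hD hκ
  have nd : F1 κ fun x _ => (M x).nd :=
    K.lst (P := fun x ρ => Sc (M x).n (M x).ρ (hd (ρ 0))) hn (K.sc hn hρ (K.v 1) (K.v 0))
  have n0 : Cn κ fun x ρ => (M x).nd (hd (ρ 0)) := nd
  have nb : Cn κ fun x ρ => (M x).nd ((M x).β (hd (ρ 0))) := K.app nd hβ
  refine ⟨nd, fun a b ha hb => K.ex (P := fun x ρ d => (M x).dir d ∧ (M x).nd d = a x ρ ∧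
    (M x).nd ((M x).β d) = b x ρ) hn
    (K.and hdir (K.and (K.eq n0 (K.w ha)) (K.eq nb (K.w hb)))), fun f hf => ?_⟩
  have F : Fm.C κ fun x => (M x).F (f x) :=
    ⟨hn, hρ, K.ite (K.and (K.appP hf.2.2.2.1 n0) (K.appP hf.2.2.2.1 nb)) hβ (K.v 0), nd,
      K.ite (K.and hf.2.2.2.1 (K.ne hf.1 (K.v 0)))
        (K.lst (P := fun x ρ d => (M x).nd d = hd (ρ 0) ∧
          (M x).nd ((M x).β d) = (f x).par (hd (ρ 0))) hn
          (K.and (K.eq n0 (K.v 1)) (K.eq nb (K.app hf.1 (K.v 1))))) hn, hf.2.1⟩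
  obtain ⟨tau, con⟩ := (hF κ).1 _ F
  have L : Ln.C κ fun x _ => (M x).L (f x) :=
    ⟨hn, (hF κ).2 (fun x _ => (M x).n) (fun x _ d => (M x).ρ (((M x).F (f x)).tau d))
      (fun x _ => (M x).rt (f x)) hn (K.app hρ tau) (K.le hn (K.app F.2.2.2.2.1 n0)),
      K.ite (K.eq tau (K.v 0)) F.2.2.1 (K.v 0), K.or con hf.2.2.2.2⟩
  obtain ⟨fs, rk, q, up, ind⟩ := hL κ _ L
  have dn := ind _ _ con tau
  obtain ⟨S, lab⟩ := hP κ (fun x => (M x).G (D x) (f x)) ⟨q, up, dn, hD, hκ⟩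
  have mate : Cn κ fun x ρ => (M x).mate (D x) (f x) (hd (ρ 0)) := K.ite (K.eq up (K.v 0)) dn up
  have l2 : F1 κ fun x _ => (M x).l2 (D x) (f x) :=
    K.ite (K.not S) (K.mul (K.c 2) lab) (K.ite (K.not (K.appP S mate))
      (K.mul (K.c 2) (K.app lab mate)) (K.add (K.mul (K.c 2) (K.min (K.v 0) mate)) (K.c 1)))
  have X : P1 κ fun x _ => (M x).X (D x) (f x) :=
    K.or (K.eq (K.v 0) (K.app nd hs)) (K.and hf.2.2.2.1 (K.ex
      (P := fun x ρ d => (M x).nd d = hd (ρ 0) ∧ ((M x).L (f x)).fs d ∧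
        (((M x).G (D x) (f x)).S (((M x).L (f x)).rk d) ∨
          ((M x).G (D x) (f x)).S (((M x).L (f x)).rk d - 1))) hn
      (K.and (K.eq n0 (K.v 1)) (K.and fs (K.or (K.appP S rk) (K.appP S (K.sub rk (K.c 1))))))))
  have pc : Cn κ fun x ρ => (M x).l2 (D x) (f x) (((M x).L (f x)).rk (hd (ρ 0))) := K.app l2 rk
  exact ⟨⟨hf, K.ex (P := fun x ρ y => (M x).X (D x) (f x) y ∧
    ∃ t < (M x).n, it (M x).n (f x).par t y = hd (ρ 0)) hn (K.and X
      (K.ex (P := fun x ρ t => it (M x).n (f x).par t (hd (ρ 0)) = hd (ρ 1)) hn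
        (K.eq (K.it hn hf.1 (K.v 0) (K.v 1)) (K.v 2)))), pc⟩, X⟩

theorem aLev : ATm → ALd → ALev := by
  intro hT hL r hr
  have num : ∀ {a : List Bool → Env → ℕ}, Cn (kap r) a → Cn (kap r) fun x ρ => num x (a x ρ) :=
    AlgD.numC (kitOne _) (kitTwo _)
  have hn : Cn (kap r) fun x _ => (inp x).n := num (K.c 0)
  have hM : Mp.C (kap r) inp :=
    ⟨hn, num (K.add (K.c 3) (K.v 0)), num (K.add (K.add (K.c 3) hn) (K.v 0)),
      K.eq (num (K.add (K.add (K.add (K.c 3) hn) hn) (K.v 0))) (K.c 1), num (K.c 1), num (K.c 2)⟩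
  have hD : Cn (kap r) fun x _ => 5000 * kk r x :=
    K.mul (K.c 5000) (AlgD.kkC (kitOne _) (kitTwo _) r)
  have hR : Cn (kap r) fun x _ => kap r x := K.mul (K.c ((r + 1) * 1000)) (K.pow 4 hD)
  have hκ : ∀ x, 5 * (5000 * kk r x) ^ 4 + 1 ≤ kap r x := fun x => by
    have : 0 < (5000 * kk r x) ^ 4 := pow_pos (by have := (kkS r x hr).1; omega) 4
    unfold kap
    nlinarith
  obtain ⟨nd, arc, ld⟩ := hL (kap r) (fun x => 5000 * kk r x) inp hM hD hκ
  have hT' := hT (kap r) (fun x => (inp x).n) (kap r) (fun x => (inp x).arc) hn hR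
    (fun _ => le_rfl) arc
  have lev : ∀ j, Fo.C (kap r) (fun x => ((inp x).lev (5000 * kk r x) (kap r x) j).1) ∧
      ∃ Ls : List (List Bool → LD), (∀ l ∈ Ls, LD.C (kap r) l) ∧
        ∀ x, ((inp x).lev (5000 * kk r x) (kap r x) j).2 = Ls.map fun l => l x := by
    intro j
    induction j with
    | zero =>
      have v : P1 (kap r) fun x _ v => v < (inp x).n ∧ (inp x).nd v = v :=
        K.and (K.lt (K.v 0) hn) (K.eq nd (K.v 0))
      exact ⟨⟨K.v 0, K.c 0, K.c 1, v, v⟩, [], fun _ h => absurd h List.not_mem_nil, fun _ => rfl⟩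
    | succ j ih =>
      obtain ⟨hf, Ls, h1, h2⟩ := ih
      obtain ⟨hl, X⟩ := ld _ hf
      have h3 := List.forall_mem_cons.2 ⟨hl, h1⟩
      obtain ⟨W, T⟩ := hT' _ h3
      have T := T _ hl.2.1
      refine ⟨?_, _, h3, fun x => congrArg (List.cons _) (h2 x)⟩
      simp only [Mp.lev, h2]
      exact ⟨K.ite hl.2.1 hf.1 (K.ite (K.lt T W) (K.lst hn (K.and (arc _ _ (K.v 0) (K.v 1))
        (K.lt T (K.app T (K.v 1))))) (K.v 0)),
        K.ite hl.2.1 hf.2.1 (K.add hf.2.2.1 T), K.add hf.2.2.1 W, K.lt T W, X⟩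
  obtain ⟨hf, Ls, h1, h2⟩ := lev r
  have s : P1 (kap r) fun x _ v => v = (inp x).nd (inp x).s :=
    K.eq (K.v 0) (K.app nd hM.2.2.2.2.1)
  obtain ⟨W, T⟩ := hT' _ (List.forall_mem_cons.2
    ⟨(⟨hf, s, K.c 0⟩ : LD.C (kap r) fun x => ⟨((inp x).lev (5000 * kk r x) (kap r x) r).1,
      fun v => v = (inp x).nd (inp x).s, fun _ => 0⟩), h1⟩)
  simp only [Mp.ans, Mp.top, h2]
  exact K.lt (K.app (T _ s) (K.app nd hM.2.2.2.2.2)) W

end Pool.Agent.MP_1a6d78_lc.PR

end MrgPart2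

-- ======== part 3: formerly Pool.Agent.MP_1a6d78_lc.PR.APt
section MrgPart3

/-! PROJECT PR, row APT: the partition of a two-page graph is computable. -/

namespace Pool.Agent.MP_1a6d78_lc.PR

open Classical ED

namespace AP

variable {κ : List Bool → ℕ}

theorem r4 : F1 κ fun _ _ => r4 :=
  K.add (K.mul (K.c 4) (K.div (K.v 0) (K.c 4))) (K.mod (K.add (K.v 0) (K.c 1)) (K.c 4))

variable {G : List Bool → Pt} (h : Pt.C κ G)
include h

theorem β : F1 κ fun x _ => (G x).β := by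
  obtain ⟨hq, hu, hd, _⟩ := h
  have m : Cn κ fun _ ρ => ED.hd (ρ 0) % 4 := K.mod (K.v 0) (K.c 4)
  have d : Cn κ fun _ ρ => ED.hd (ρ 0) / 4 := K.div (K.v 0) (K.c 4)
  exact K.ite (K.eq m (K.c 0)) (K.ite (K.lt (K.add d (K.c 1)) hq) (K.add (K.v 0) (K.c 6)) (K.v 0))
    (K.ite (K.eq m (K.c 1)) (K.add (K.mul (K.c 4) (K.app hu d)) (K.c 1))
      (K.ite (K.eq m (K.c 2)) (K.ite (K.lt (K.c 0) d) (K.sub (K.v 0) (K.c 6)) (K.v 0))
        (K.add (K.mul (K.c 4) (K.app hd d)) (K.c 3))))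

theorem nb (a b : List Bool → Env → ℕ) (ha : Cn κ a) (hb : Cn κ b) :
    Cn κ fun x ρ => (G x).nb (a x ρ) (b x ρ) :=
  K.div (K.app (β h) (K.add (K.mul (K.c 4) ha) hb)) (K.c 4)

variable (hB : ABall)
include hB

theorem bl {v t u : List Bool → Env → ℕ} (hv : Cn κ v) (ht : Cn κ t) (hu : Cn κ u) :
    Cp κ fun x ρ => u x ρ < (G x).q ∧
      ball (G x).q (G x).nb ((G x).D ^ 4) (v x ρ) (t x ρ) (u x ρ) :=
  hB κ (fun x => (G x).q) (fun x => (G x).D ^ 4) (fun x => (G x).nb) h.1 (K.pow 4 h.2.2.2.1)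
    h.2.2.2.2 (nb h) v t u hv ht hu

theorem cs {s v : List Bool → Env → ℕ} (hs : Cn κ s) (hv : Cn κ v) :
    Cp κ fun x ρ => (G x).cs (s x ρ) (v x ρ) := by
  have hM : Cn κ fun x _ => 2 * (G x).q + 1 := K.add (K.mul (K.c 2) h.1) (K.c 1)
  have hh : ∀ s u : List Bool → Env → ℕ, Cn κ s → Cn κ u →
      Cp κ fun x ρ => hsh (2 * (G x).q + 1) ((G x).D ^ 2) (s x ρ) (u x ρ) := fun s u hs hu =>
    K.le (K.mod (K.add (K.mul (K.mod (K.div hs hM) hM) hu) (K.mod hs hM)) (K.div (K.div hs hM) hM))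
      (K.div (K.div (K.div hs hM) hM) (K.pow 2 h.2.2.2.1))
  refine K.or (hh s v hs hv) (K.cgP (K.all (P := fun x ρ u => (u < (G x).q ∧
    ball (G x).q (G x).nb ((G x).D ^ 4) (v x ρ) ((G x).D ^ 4) u) →
      ¬hsh (2 * (G x).q + 1) ((G x).D ^ 2) (s x ρ) u) h.1
    (K.imp (bl h hB (K.w hv) (K.pow 4 h.2.2.2.1) (K.v 0)) (K.not (hh _ _ (K.w hs) (K.v 0))))) ?_)
  exact fun x ρ => ⟨fun k u hu b => k u hu ⟨hu, b⟩, fun k u hu b => k u hu b.2⟩

theorem c : P1 κ fun x _ => (G x).c :=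
  cs h hB (K.amin (f := fun x _ s => cnt (G x).q ((G x).cs s))
    (K.pow 3 (K.add (K.mul (K.c 2) h.1) (K.c 1)))
    (K.cnt (P := fun x ρ => (G x).cs (hd (ρ 0))) h.1 (cs h hB (K.v 1) (K.v 0)))) (K.v 0)

theorem g : F1 κ fun x _ => (G x).g := by
  refine K.lst (P := fun x ρ t => ∃ u < (G x).q,
    ball (G x).q (G x).nb ((G x).D ^ 4) (hd (ρ 0)) t u ∧ (G x).c u)
    (K.add (K.pow 4 h.2.2.2.1) (K.c 1)) (K.cgP (K.ex (P := fun x ρ u => (u < (G x).q ∧
      ball (G x).q (G x).nb ((G x).D ^ 4) (hd (ρ 1)) (hd (ρ 0)) u) ∧ (G x).c u) h.1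
      (K.and (bl h hB (K.v 2) (K.v 1) (K.v 0)) (c h hB))) ?_)
  exact fun x ρ => ⟨fun ⟨u, k1, k2, k3⟩ => ⟨u, k1, k2.2, k3⟩,
    fun ⟨u, k1, k2, k3⟩ => ⟨u, k1, ⟨k1, k2⟩, k3⟩⟩

theorem hh : F1 κ fun x _ => (G x).h :=
  K.add (g h hB) (K.amin (f := fun x _ a => cnt (G x).q fun u => ((G x).g u + a) % (G x).D = 0)
    h.2.2.2.1 (K.cnt (P := fun x ρ u => ((G x).g u + hd (ρ 0)) % (G x).D = 0) h.1
      (K.eq (K.mod (K.add (g h hB) (K.v 1)) h.2.2.2.1) (K.c 0))))

theorem pd : F1 κ fun x _ => (G x).pd :=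
  K.ite (K.eq (g h hB) (K.c 0)) (K.mul (K.c 4) h.1) (K.add (K.mul (K.c 4) (K.v 0))
    (K.lst (P := fun x ρ r => (G x).g ((G x).nb (hd (ρ 0)) r) < (G x).g (hd (ρ 0))) (K.c 4)
      (K.lt (K.app (g h hB) (nb h _ _ (K.v 1) (K.v 0))) (K.app (g h hB) (K.v 1)))))

theorem par : F1 κ fun x _ => (G x).par :=
  K.ite (K.eq (g h hB) (K.c 0)) (K.v 0) (K.div (K.app (β h) (pd h hB)) (K.c 4))

theorem F : Fm.C κ fun x => (G x).F :=
  ⟨K.mul (K.c 4) h.1, r4, β h, K.div (K.v 0) (K.c 4), pd h hB, g h hB⟩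

theorem ok {i : List Bool → Env → ℕ} (hi : Cn κ i) : P1 κ fun x ρ => (G x).ok (i x ρ) :=
  K.and (K.lt (K.app (hh h hB) (K.div (K.v 0) (K.c 4))) (K.mul (K.add (K.w hi) (K.c 1)) h.2.2.2.1))
    (K.lt (K.app (hh h hB) (K.div (β h) (K.c 4))) (K.mul (K.add (K.w hi) (K.c 1)) h.2.2.2.1))

variable (hF : AFm)
include hF

theorem ti {i : List Bool → Env → ℕ} (hi : Cn κ i) : F1 κ fun x ρ => (G x).ti (i x ρ) :=
  K.ite (ok h hB hi) ((hF κ).1 _ (F h hB)).1 (K.v 0)

theorem psi {i : List Bool → Env → ℕ} (hi : Cn κ i) : F1 κ fun x ρ => (G x).psi (i x ρ) :=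
  (hF κ).2 (fun x _ => 4 * (G x).q) (fun x ρ d => PR.r4 ((G x).ti (i x ρ) d))
    (fun x ρ => (G x).rt (i x ρ)) (K.mul (K.c 4) h.1) (K.app r4 (ti h hB hF hi))
    (K.or (K.eq (K.app (g h hB) (K.div (K.v 0) (K.c 4))) (K.c 0))
      (K.le (K.mul (K.add (K.w hi) (K.c 1)) h.2.2.2.1) (K.app (hh h hB) (K.div (K.v 0) (K.c 4)))))

theorem L {i : List Bool → Env → ℕ} (hi : Cn κ i) : Ln.C κ fun x ρ => (G x).L (i x ρ) := by
  have sl : Cn κ fun x ρ => (G x).h (hd (ρ 0) / 4) / (G x).D :=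
    K.div (K.app (hh h hB) (K.div (K.v 0) (K.c 4))) h.2.2.2.1
  have p2 := psi h hB hF (K.w (K.w hi))
  have ix : F1 κ fun x ρ => (G x).idx (i x ρ) :=
    K.cnt (P := fun x ρ e => (G x).h (e / 4) / (G x).D = i x (tl ρ) ∧
      (G x).psi (i x (tl ρ)) e ≤ (G x).psi (i x (tl ρ)) (hd (ρ 0))) (K.mul (K.c 4) h.1)
      (K.and (K.eq sl (K.w (K.w hi))) (K.le (K.app p2 (K.v 0)) (K.app p2 (K.v 1))))
  exact ⟨K.mul (K.c 4) h.1, psi h hB hF hi,
    K.ite (K.eq (ti h hB hF hi) (K.v 0)) (K.ite (ok h hB hi) (β h) (K.v 0)) (K.v 0),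
    K.and (K.eq sl (K.w hi)) (K.or (K.eq (K.mod ix (K.pow 2 h.2.2.2.1)) (K.c 0))
      ((hF κ).1 _ (F h hB)).2)⟩

end AP

theorem aPt : AFm → ALn → ABall → APt := by
  intro hF hL hB κ G h
  have sl : ∀ j, Cn κ fun x ρ => (G x).h (hd (ρ j)) / (G x).D := fun j =>
    K.div (K.app (AP.hh h hB) (K.v j)) h.2.2.2.1
  have l0 := hL κ _ (AP.L h hB hF (sl 0))
  have l1 := hL κ _ (AP.L h hB hF (sl 1))
  have r := K.app l0.2.1 (K.mul (K.c 4) (K.v 0))
  refine ⟨K.or (K.eq (AP.g h hB) (K.c 0)) (K.or (K.eq (K.mod (AP.hh h hB) h.2.2.2.1) (K.c 0))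
    (K.ex (P := fun x ρ d => (G x).h (d / 4) / (G x).D = (G x).h (hd (ρ 0)) / (G x).D ∧
      ((G x).L ((G x).h (hd (ρ 0)) / (G x).D)).fs d ∧
        ∃ s < (G x).D, it (G x).q (G x).par s (d / 4) = hd (ρ 0)) (K.mul (K.c 4) h.1)
      (K.and (K.eq (K.div (K.app (AP.hh h hB) (K.div (K.v 0) (K.c 4))) h.2.2.2.1) (sl 1))
        (K.and (K.appP l1.1 (K.v 0))
          (K.ex (P := fun x ρ s => it (G x).q (G x).par s (hd (ρ 0) / 4) = hd (ρ 1)) h.2.2.2.1
            (K.eq (K.it h.1 (AP.par h hB) (K.v 0) (K.div (K.v 1) (K.c 4))) (K.v 2))))))), ?_⟩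
  exact K.add (K.mul (sl 0) (K.mul (K.c 4) h.1)) (K.min r (K.app l0.2.2.2.1 r))

end Pool.Agent.MP_1a6d78_lc.PR

end MrgPart3

-- ======== part 4: formerly Pool.Agent.MP_1a6d78_lc.PR.ATm
section MrgPart4

/-! PROJECT PR, row ATM: the search is computable. -/

namespace Pool.Agent.MP_1a6d78_lc.PR

open Classical ED

namespace AT

variable {κ N R : List Bool → ℕ} {l : List Bool → LD} (hN : Cn κ fun x _ => N x)
  (hR : Cn κ fun x _ => R x) (hκ : ∀ x, R x ≤ κ x) (hl : LD.C κ l)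
include hN hl

theorem ml {z e : List Bool → Env → ℕ} (hz : Cn κ z) (he : Cn κ e) :
    Cn κ fun x ρ => (l x).ml (N x) (z x ρ) (e x ρ) :=
  K.app (K.sel (P := fun x ρ y => (l x).fo.mk' y ∧ ¬(l x).K y ∧ (l x).pc y = (l x).pc (z x ρ)) hN
    (K.and hl.1.2.2.2.2 (K.and (K.not hl.2.1) (K.eq hl.2.2 (K.app hl.2.2 (K.w hz)))))) he

include hR

theorem inP {z : List Bool → Env → ℕ} {T : List Bool → Env → List ℕ} (hz : Cn κ z) (hT : Cm κ T) :
    P1 κ fun x ρ => (l x).inP (N x) (R x) (z x ρ) (T x ρ) :=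
  K.ex (P := fun x ρ e => (l x).ml (N x) (z x (tl ρ)) e < N x ∧ ∃ s < gt (T x (tl ρ)) e,
    it (N x) (l x).fo.par s ((l x).ml (N x) (z x (tl ρ)) e) = hd (ρ 0)) hR
    (K.and (K.lt (ml hN hl (K.w (K.w hz)) (K.v 0)) hN)
      (K.ex (P := fun x ρ s => it (N x) (l x).fo.par s
        ((l x).ml (N x) (z x (tl (tl ρ))) (hd (ρ 0))) = hd (ρ 1))
        (K.gt (K.wL (K.wL hT)) (K.v 0))
        (K.eq (K.it hN hl.1.1 (K.v 0) (ml hN hl (K.w (K.w (K.w hz))) (K.v 1))) (K.v 2))))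

include hκ

theorem tb {f : List Bool → (ℕ → Prop) → ℕ → Prop}
    (hf : ∀ B, P1 κ B → P1 κ fun x ρ => f x (B x ρ)) {B : List Bool → Env → ℕ → Prop}
    (hB : P1 κ B) {z t : List Bool → Env → ℕ} (hz : Cn κ z) (ht : Cn κ t) :
    Cm κ fun x ρ => (l x).tb (N x) (R x) (f x) (B x ρ) (z x ρ) (t x ρ) := by
  have z2 := K.w (K.w hz)
  have u : P1 κ fun x ρ u => B x (tl (tl ρ)) u ∨
      (l x).inP (N x) (R x) (z x (tl (tl ρ))) (ρ 0) u :=
    K.or (K.wP1 (K.wP1 hB)) (inP hN hR hl z2 (K.vL 0))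
  have a : Cn κ fun x ρ => it (N x) (l x).fo.par (hd (ρ 0))
      ((l x).ml (N x) (z x (tl (tl (tl (tl (tl ρ)))))) (hd (ρ 2))) :=
    K.it hN hl.1.1 (K.v 0) (ml hN hl (K.w (K.w (K.w z2))) (K.v 2))
  refine (kitOne κ).foldL (fun x ρ _ T => tab (R x) fun e => lst (N x + 1) fun τ => ∀ s < N x,
    ¬(l x).K (it (N x) (l x).fo.par s ((l x).ml (N x) (z x ρ) e)) →
      f x (fun u => B x ρ u ∨ (l x).inP (N x) (R x) (z x ρ) T u)
        (it (N x) (l x).fo.par s ((l x).ml (N x) (z x ρ) e)) → s < τ) (fun x _ _ => N x) ht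
    ((kitOne κ).tab (fun _ _ _ => 0) hκ hR (K.c 0))
    ((kitOne κ).tab (fun x ρ e => lst (N x + 1) fun τ => ∀ s < N x,
      ¬(l x).K (it (N x) (l x).fo.par s ((l x).ml (N x) (z x (tl (tl ρ))) e)) →
        f x (fun u => B x (tl (tl ρ)) u ∨ (l x).inP (N x) (R x) (z x (tl (tl ρ))) (ρ 0) u)
          (it (N x) (l x).fo.par s ((l x).ml (N x) (z x (tl (tl ρ))) e)) → s < τ) hκ hR
      (K.lst (K.add hN (K.c 1)) (K.all (P := fun x ρ s =>
        ¬(l x).K (it (N x) (l x).fo.par s ((l x).ml (N x) (z x (tl (tl (tl (tl ρ))))) (hd (ρ 1)))) →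
          f x (fun u => B x (tl (tl (tl (tl ρ)))) u ∨
            (l x).inP (N x) (R x) (z x (tl (tl (tl (tl ρ))))) (ρ 2) u)
            (it (N x) (l x).fo.par s ((l x).ml (N x) (z x (tl (tl (tl (tl ρ))))) (hd (ρ 1)))) →
              s < hd (ρ 0)) hN
        (K.imp (K.not (K.appP hl.2.1 a)) (K.imp (K.appP (K.wP1 (K.wP1 (K.wP1 (hf _ u)))) a)
          (K.lt (K.v 0) (K.v 1))))))) hN ?_
  intro x ρ _ T b _ hb a ha
  obtain ⟨e, _, rfl⟩ := List.mem_map.1 ha
  exact (Nat.lt_succ_iff.1 (lst_lt _ (Nat.succ_pos _))).trans hb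

end AT

theorem aTm : ATm := by
  intro κ N R arc hN hR hκ ha Ls
  induction Ls with
  | nil =>
    refine fun _ => ⟨K.c 2, fun B hB => K.ite hB (K.c 0) (K.ite (K.ex
      (P := fun x ρ u => B x (tl ρ) u ∧ arc x u (hd (ρ 0))) hN
      (K.and (K.appP (K.wP1 (K.wP1 hB)) (K.v 0)) (ha _ _ (K.v 0) (K.v 1)))) (K.c 1) (K.c 2))⟩
  | cons l Ls ih =>
    intro h
    have hl : LD.C κ l := h l List.mem_cons_self
    obtain ⟨hW, ih⟩ := ih fun l' k => h l' (List.mem_cons_of_mem _ k)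
    have hC : Cn κ fun x _ => (l x).fo.H + Wd (N x) (Ls.map fun l => l x) := K.add hl.1.2.2.1 hW
    have hW' : Cn κ fun x _ => Wd (N x) (l x :: Ls.map fun l => l x) :=
      K.add (K.mul (K.add hN (K.c 1)) hC) (K.c 1)
    refine ⟨hW', fun B hB => ?_⟩
    have hB4 := K.wP1 (K.wP1 (K.wP1 (K.wP1 hB)))
    have hP : P1 κ fun x ρ => (l x).P (N x) (R x)
        (fun B u => tm (N x) (R x) (arc x) (Ls.map fun l => l x) B u <
          Wd (N x) (Ls.map fun l => l x)) (B x (tl (tl (tl (tl ρ))))) (hd (ρ 1)) (hd (ρ 0)) :=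
      AT.inP hN hR hl (K.v 1) (AT.tb hN hR hκ hl (f := fun x B u =>
        tm (N x) (R x) (arc x) (Ls.map fun l => l x) B u < Wd (N x) (Ls.map fun l => l x))
        (fun B hB => K.lt (ih B hB) hW) hB4 (K.v 1) (K.v 0))
    have hT := K.app (ih (fun x ρ u => B x (tl (tl (tl (tl ρ)))) u ∨ (l x).P (N x) (R x)
        (fun B u => tm (N x) (R x) (arc x) (Ls.map fun l => l x) B u <
          Wd (N x) (Ls.map fun l => l x)) (B x (tl (tl (tl (tl ρ))))) (hd (ρ 1)) (hd (ρ 0)) u)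
      (K.or hB4 hP)) (K.v 3)
    have hm := K.mul (K.v 0) hC
    have hin := K.or (K.and (K.appP hP (K.v 3))
        (K.eq (K.v 2) (K.add (K.add hm (K.app hl.1.2.1 (K.v 3))) (K.c 1))))
      (K.and (K.lt hT hW) (K.eq (K.v 2) (K.add (K.add (K.add hm hl.1.2.2.1) hT) (K.c 1))))
    exact K.ite hB (K.c 0) (K.lst (K.add hW' (K.c 1))
      (K.or (K.eq (K.v 0) hW') (K.ex hN (K.ex (K.add hN (K.c 1)) hin))))

end Pool.Agent.MP_1a6d78_lc.PR

end MrgPart4

-- ======== part 5: formerly Pool.Agent.MP_1a6d78_lc.PR.Ball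
section MrgPart5

/-! PROJECT PR, row BALL: frozen balls, centres and the distance to the centres. -/

namespace Pool.Agent.MP_1a6d78_lc.PR

open Classical ED

namespace Ball

/-- The unfrozen balls. -/
def tb (q : ℕ) (nb : ℕ → ℕ → ℕ) (v : ℕ) : ℕ → ℕ → Prop
  | 0 => fun u => u = v
  | t + 1 => fun u => tb q nb v t u ∨ ∃ w < q, tb q nb v t w ∧ ∃ r < 4, nb w r = u

variable {q : ℕ} {nb : ℕ → ℕ → ℕ} {k : ℕ}

theorem tb_mono {v u s t : ℕ} (h : s ≤ t) (hu : tb q nb v s u) : tb q nb v t u := by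
  induction t, h using Nat.le_induction with
  | base => exact hu
  | succ t _ ih => exact Or.inl ih

theorem tb_head {v r : ℕ} (hv : v < q) (hr : r < 4) (t : ℕ) :
    ∀ u, tb q nb (nb v r) t u → tb q nb v (t + 1) u := by
  induction t with
  | zero => exact fun u h => Or.inr ⟨v, hv, rfl, r, hr, h.symm⟩
  | succ t ih =>
    rintro u (h | ⟨w, hw, h, e⟩)
    · exact Or.inl (ih u h)
    · exact Or.inr ⟨w, hw, ih w h, e⟩

theorem tb_tail {v : ℕ} (t : ℕ) :
    ∀ u, tb q nb v (t + 1) u → u = v ∨ ∃ r < 4, tb q nb (nb v r) t u := by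
  induction t with
  | zero =>
    rintro u (h | ⟨w, _, h, r, hr, e⟩)
    · exact Or.inl h
    · have h' : w = v := h
      exact Or.inr ⟨r, hr, by rw [← h']; exact e.symm⟩
  | succ t ih =>
    rintro u (h | ⟨w, hw, h, r, hr, e⟩)
    · exact (ih u h).imp id fun ⟨r, hr, h⟩ => ⟨r, hr, Or.inl h⟩
    · rcases ih w h with h' | ⟨r', hr', h'⟩
      · refine Or.inr ⟨r, hr, tb_mono (Nat.zero_le _) ?_⟩
        rw [← h']; exact e.symm
      · exact Or.inr ⟨r', hr', Or.inr ⟨w, hw, h', r, hr, e⟩⟩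

theorem mono {v u s t : ℕ} (h : s ≤ t) (hu : ball q nb k v s u) : ball q nb k v t u := by
  induction t, h using Nat.le_induction with
  | base => exact hu
  | succ t _ ih => exact Or.inl ih

theorem self (v t : ℕ) : ball q nb k v t v := mono (Nat.zero_le t) rfl

theorem sub {v : ℕ} (t : ℕ) : ∀ u, ball q nb k v t u → tb q nb v t u := by
  induction t with
  | zero => exact fun _ h => h
  | succ t ih =>
    rintro u (h | ⟨_, w, hw, h, e⟩)
    · exact Or.inl (ih u h)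
    · exact Or.inr ⟨w, hw, ih w h, e⟩

theorem cnt_step (v t : ℕ) : cnt q (ball q nb k v t) ≤ cnt q (ball q nb k v (t + 1)) :=
  cnt_mono fun _ _ h => Or.inl h

/-- A frozen ball does not grow. -/
theorem frozen {v s t : ℕ} (h : s ≤ t) (hs : k ≤ cnt q (ball q nb k v s)) :
    k ≤ cnt q (ball q nb k v t) ∧ ∀ u, ball q nb k v t u → ball q nb k v s u := by
  induction t, h using Nat.le_induction with
  | base => exact ⟨hs, fun _ h => h⟩
  | succ t _ ih =>
    refine ⟨ih.1.trans (cnt_step v t), ?_⟩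
    rintro u (h | ⟨h, _⟩)
    · exact ih.2 u h
    · exact absurd ih.1 (not_le.2 h)

theorem alt (v t : ℕ) :
    (∀ u, tb q nb v t u → ball q nb k v t u) ∨ k ≤ cnt q (ball q nb k v t) := by
  induction t with
  | zero => exact Or.inl fun _ h => h
  | succ t ih =>
    by_cases h : k ≤ cnt q (ball q nb k v t)
    · exact Or.inr (h.trans (cnt_step v t))
    · have ih' := ih.resolve_right h
      refine Or.inl ?_
      rintro u (hu | ⟨w, hw, hu, e⟩)
      · exact Or.inl (ih' u hu)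
      · exact Or.inr ⟨not_le.1 h, w, hw, ih' w hu, e⟩

variable {hc : ℕ → Prop}

theorem centre {v : ℕ} (hv : v < q) : ∃ u < q, ball q nb k v k u ∧ ctr q nb k hc u := by
  by_cases h : ∀ u < q, ball q nb k v k u → ¬hc u
  · exact ⟨v, hv, self v k, Or.inr h⟩
  · push Not at h
    obtain ⟨u, h1, h2, h3⟩ := h
    exact ⟨u, h1, h2, Or.inl h3⟩

theorem gd_le (c : ℕ → Prop) (v : ℕ) : gd q nb k c v ≤ k :=
  Nat.lt_succ_iff.1 (lst_lt _ k.succ_pos)

theorem gd_spec {v : ℕ} (hv : v < q) :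
    ∃ u < q, tb q nb v (gd q nb k (ctr q nb k hc) v) u ∧ ctr q nb k hc u := by
  obtain ⟨u, h1, h2, h3⟩ := (lst_spec
    (P := fun t => ∃ u < q, ball q nb k v t u ∧ ctr q nb k hc u)
    ⟨k, k.lt_succ_self, centre hv⟩).2
  exact ⟨u, h1, sub _ u h2, h3⟩

theorem gd_min {v t u : ℕ} (hv : v < q) (hu : u < q) (h : tb q nb v t u)
    (hcu : ctr q nb k hc u) : gd q nb k (ctr q nb k hc) v ≤ t := by
  rcases le_or_gt k t with h1 | h1
  · exact (gd_le _ v).trans h1
  refine lst_le (P := fun t => ∃ u < q, ball q nb k v t u ∧ ctr q nb k hc u) (by omega) ?_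
  rcases alt (q := q) (nb := nb) (k := k) v t with h2 | h2
  · exact ⟨u, hu, h2 u h, hcu⟩
  · obtain ⟨w, h3, h4, h5⟩ := centre (nb := nb) (k := k) (hc := hc) hv
    exact ⟨w, h3, (frozen h1.le h2).2 w h4, h5⟩

/-- A set of nodes of the path that is neither empty nor everything has a boundary. -/
theorem bdry {P : ℕ → Prop} {v : ℕ} (hv : v < q) (hP : P v) (h : cnt q P < q) :
    ∃ i, i + 1 < q ∧ ¬(P i ↔ P (i + 1)) := by
  by_contra hn
  push Not at hn
  have h0 : ∀ i < q, (P i ↔ P 0) := by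
    intro i
    induction i with
    | zero => exact fun _ => Iff.rfl
    | succ i ih => exact fun hi => (hn i hi).symm.trans (ih (by omega))
  have h1 : cnt q (fun _ => True) ≤ cnt q P :=
    cnt_mono fun a ha _ => (h0 a ha).2 ((h0 v hv).1 hP)
  have h2 : cnt q (fun _ => True) = q := by simp [cnt]
  omega

theorem grow (hs : ∀ w < q, ∀ r < 4, ∃ r' < 4, nb (nb w r) r' = w)
    (hp : ∀ i, i + 1 < q → nb i 0 = i + 1) (hk : k ≤ q) {v : ℕ} (hv : v < q) (t : ℕ) :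
    min (t + 1) k ≤ cnt q (ball q nb k v t) := by
  induction t with
  | zero =>
    have := cnt_pos (P := ball q nb k v 0) hv rfl
    omega
  | succ t ih =>
    by_cases h : k ≤ cnt q (ball q nb k v t)
    · have := cnt_step (q := q) (nb := nb) (k := k) v t
      omega
    have h' := not_le.1 h
    obtain ⟨i, hi, hb⟩ := bdry hv (self (nb := nb) (k := k) v t) (h'.trans_le hk)
    have : cnt q (ball q nb k v t) < cnt q (ball q nb k v (t + 1)) := by
      by_cases h1 : ball q nb k v t i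
      · have h2 : ¬ball q nb k v t (i + 1) := fun h2 => hb ⟨fun _ => h2, fun _ => h1⟩
        exact cnt_lt (fun _ _ h => Or.inl h) hi
          (Or.inr ⟨h', i, by omega, h1, 0, by omega, hp i hi⟩) h2
      · have h2 : ball q nb k v t (i + 1) := by
          by_contra h2
          exact hb ⟨fun h => absurd h h1, fun h => absurd h h2⟩
        obtain ⟨r, hr, e⟩ := hs i (by omega) 0 (by omega)
        rw [hp i hi] at e
        exact cnt_lt (fun _ _ h => Or.inl h) (show i < q by omega)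
          (Or.inr ⟨h', i + 1, hi, h2, r, hr, e⟩) h1
    omega

end Ball

open Ball in
theorem ballS : BallS := by
  intro q nb k hc hlt hs
  refine ⟨gd_le _, fun v hv => ⟨fun h => ?_, fun h => ?_⟩, fun v hv r hr => ?_,
    fun v hv h => ?_, fun hp hk v hv => ?_⟩
  · obtain ⟨u, _, h2, h3⟩ := gd_spec (nb := nb) (k := k) (hc := hc) hv
    rw [h] at h2
    have e : u = v := h2
    exact e ▸ h3
  · exact Nat.le_zero.1 (gd_min (t := 0) hv hv rfl h)
  · obtain ⟨u, h1, h2, h3⟩ := gd_spec (nb := nb) (k := k) (hc := hc) hv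
    obtain ⟨r', hr', e⟩ := hs v hv r hr
    refine gd_min (hlt v hv r hr) h1 (tb_head (hlt v hv r hr) hr' _ u ?_) h3
    rw [e]; exact h2
  · obtain ⟨u, h1, h2, h3⟩ := gd_spec (nb := nb) (k := k) (hc := hc) hv
    obtain ⟨t, ht⟩ := Nat.exists_eq_succ_of_ne_zero h
    rw [ht] at h2
    rcases tb_tail t u h2 with e | ⟨r, hr, h4⟩
    · exact absurd (Nat.le_zero.1 (gd_min (t := 0) hv h1 e h3)) h
    · refine ⟨r, hr, ?_⟩
      have := gd_min (hlt v hv r hr) h1 h4 h3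
      omega
  · have := grow hs hp hk hv k
    omega

end Pool.Agent.MP_1a6d78_lc.PR

end MrgPart5

-- ======== part 6: formerly Pool.Agent.MP_1a6d78_lc.PR.Code
section MrgPart6

/-! PROJECT PR, row CODE: the map read from the code, and reachability on vertices. -/

namespace Pool.Agent.MP_1a6d78_lc.PR

open Classical ED ED.Code

section

variable {n : ℕ} (σ α : Equiv.Perm (Fin n)) (dir : Fin n → Bool) (s t : Fin n)

theorem cod_num (i : ℕ) : num (code σ α dir s t) i =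
    ([n, s.val, t.val] ++ (List.ofFn (fun a => (σ a).val) ++ (List.ofFn (fun a => (α a).val) ++
      List.ofFn fun a => if dir a then 1 else 0))).getD i 0 := by
  rw [code, num_unary, List.append_assoc, List.append_assoc]

theorem cod_n : num (code σ α dir s t) 0 = n := by rw [cod_num]; rfl

theorem cod_rho (a : Fin n) : num (code σ α dir s t) (3 + a) = σ a := by
  rw [cod_num, getD_right _ _ (n := 3) rfl,
    List.getD_append _ _ _ _ (by rw [List.length_ofFn]; exact a.2), getD_ofFn]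

theorem cod_beta (a : Fin n) : num (code σ α dir s t) (3 + n + a) = α a := by
  rw [cod_num, Nat.add_assoc, getD_right _ _ (n := 3) rfl, getD_right _ _ (n := n) List.length_ofFn,
    List.getD_append _ _ _ _ (by rw [List.length_ofFn]; exact a.2), getD_ofFn]

theorem cod_dir (a : Fin n) :
    num (code σ α dir s t) (3 + n + n + a) = if dir a then 1 else 0 := by
  rw [cod_num, Nat.add_assoc, Nat.add_assoc, getD_right _ _ (n := 3) rfl,
    getD_right _ _ (n := n) List.length_ofFn, getD_right _ _ (n := n) List.length_ofFn, getD_ofFn]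

theorem cod_rep : Rep σ α dir s t (inp (code σ α dir s t)) where
  hn := cod_n σ α dir s t
  ρ a := cod_rho σ α dir s t a
  β a := by
    show num _ (3 + num _ 0 + a) = _
    rw [cod_n, cod_beta]
  dir a := by
    show num _ (3 + num _ 0 + num _ 0 + a) = 1 ↔ _
    rw [cod_n, cod_dir]
    cases dir a <;> simp
  s := by
    show num _ 1 = _
    rw [cod_num]; rfl
  t := by
    show num _ 2 = _
    rw [cod_num]; rfl

variable {σ α dir s t} {M : Mp}

theorem Rep.cod_pm (h : Rep σ α dir s t M) : Pm M.n M.ρ := by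
  rw [h.hn]
  refine ⟨fun d hd => ?_, fun a ha b hb e => ?_⟩
  · rw [h.ρ ⟨d, hd⟩]; exact (σ _).2
  · rw [h.ρ ⟨a, ha⟩, h.ρ ⟨b, hb⟩] at e
    exact congrArg Fin.val (σ.injective (Fin.ext e))

theorem Rep.cod_lt (h : Rep σ α dir s t M) (a : Fin n) : a.val < M.n := by
  rw [h.hn]; exact a.2

/-- Darts of one vertex reach each other. -/
theorem Rep.cod_vertex (h : Rep σ α dir s t M) {a b : Fin n} (e : M.nd a = M.nd b) :
    Reach σ α dir a b := by
  have k := (Mp.nd_iff h.cod_pm (h.cod_lt a) (h.cod_lt b)).1 e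
  refine Sc.ind h.cod_pm.1 (Q := fun d => ∀ c : Fin n, c.val = d → Reach σ α dir a c)
    (h.cod_lt a) (fun c hc => ?_) (fun d hd ih c hc => ?_) k b rfl
  · rw [Fin.ext hc]; exact Relation.ReflTransGen.refl
  · rw [h.hn] at hd
    rw [h.ρ ⟨d, hd⟩] at hc
    exact (ih ⟨d, hd⟩ rfl).tail (Or.inl (Fin.ext hc))

theorem Rep.cod_to (h : Rep σ α dir s t M) {a b : Fin n} (k : Reach σ α dir a b) :
    Relation.ReflTransGen M.arc (M.nd a) (M.nd b) := by
  induction k with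
  | refl => exact Relation.ReflTransGen.refl
  | @tail b c _ k ih =>
    rcases k with rfl | ⟨k, rfl⟩
    · have e : M.nd b = M.nd (σ b) := by
        rw [← h.ρ b]
        exact (Mp.nd_iff h.cod_pm (h.cod_lt b) (h.cod_pm.1 _ (h.cod_lt b))).2
          (Sc.step h.cod_pm.1 (h.cod_lt b))
      rw [← e]; exact ih
    · exact ih.tail ⟨b, h.cod_lt b, (h.dir b).2 k, rfl, by rw [h.β b]⟩

theorem Rep.cod_from (h : Rep σ α dir s t M) {a : Fin n} {v : ℕ}
    (k : Relation.ReflTransGen M.arc (M.nd a) v) :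
    ∀ b : Fin n, M.nd b = v → Reach σ α dir a b := by
  induction k with
  | refl => exact fun b e => h.cod_vertex e.symm
  | tail _ k ih =>
    obtain ⟨d, hd, h1, h2, h3⟩ := k
    rw [h.hn] at hd
    intro b e
    have r1 : Reach σ α dir a ⟨d, hd⟩ := ih _ h2
    have r2 : Reach σ α dir a (α ⟨d, hd⟩) := r1.tail (Or.inr ⟨(h.dir ⟨d, hd⟩).1 h1, rfl⟩)
    refine r2.trans (h.cod_vertex ?_)
    rw [← h.β ⟨d, hd⟩, e]
    exact h3

end

theorem codS : CodS := by
  intro n σ α dir s t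
  refine ⟨cod_rep σ α dir s t, fun M h => ?_⟩
  rw [h.s, h.t]
  exact ⟨h.cod_to, fun k => h.cod_from k t rfl⟩

end Pool.Agent.MP_1a6d78_lc.PR

end MrgPart6

-- ======== part 7: formerly Pool.Agent.MP_1a6d78_lc.PR.Cont
section MrgPart7

/-! PROJECT PR, row CONT: the contour of a spanning forest. -/

namespace Pool.Agent.MP_1a6d78_lc.PR

open Classical ED

namespace Cont

variable {n : ℕ} {ρ β τ γ φ : ℕ → ℕ} {rt : ℕ → Prop}

/-- If all edges are bridges, the two darts of an edge lie on one face. -/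
theorem face (S : SwapK) (hρ : Pm n ρ) (hγ : Iv n γ)
    (hb : ∀ d < n, γ d ≠ d → ¬Conn n ρ (del γ d) d (γ d)) {d : ℕ} (hd : d < n) :
    Sc n (fun e => ρ (γ e)) d (γ d) := by
  by_cases e : γ d = d
  · rw [e]; exact Sc.refl _ hd
  have hg := hγ.del hd
  have hf := hρ.comp hg.pm
  have h1 := (hγ d hd).1
  have h2 : ¬Sc n (fun e => ρ (del γ d e)) d (γ d) := fun k => hb d hd e (k.conn hρ hg hd)
  have h3 := (S.merge hf hd h1 h2 d hd (γ d) h1).2
    (Or.inr (Or.inl ⟨Sc.refl _ hd, Sc.refl _ h1⟩))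
  refine Sc.congr (S.pm hf hd h1).1 (fun x hx => ?_) hd h3
  show ρ (del γ d (sw d (γ d) x)) = ρ (γ x)
  congr 1
  by_cases k1 : x = d
  · simp [sw, del, k1]
  by_cases k2 : x = γ d
  · subst k2; simp [sw, del, k1, hγ d hd]
  simp [sw, del, k1, k2]

/-- In a forest the components are the faces. -/
theorem conn_sc (S : SwapK) (hρ : Pm n ρ) (hγ : Iv n γ)
    (hb : ∀ d < n, γ d ≠ d → ¬Conn n ρ (del γ d) d (γ d)) {a b : ℕ} (ha : a < n)
    (h : Conn n ρ γ a b) : Sc n (fun e => ρ (γ e)) a b := by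
  have hf := hρ.comp hγ.pm
  have key : a = b ∨ (a < n ∧ b < n ∧ Sc n (fun e => ρ (γ e)) a b) := by
    refine Conn.ind (r := fun a b => a = b ∨ (a < n ∧ b < n ∧ Sc n (fun e => ρ (γ e)) a b))
      ⟨fun _ => Or.inl rfl, ?_, ?_⟩ (fun x hx => ?_) (fun x hx => ?_) h
    · rintro x y (k | ⟨k1, k2, k3⟩)
      · exact Or.inl k.symm
      · exact Or.inr ⟨k2, k1, k3.symm hf k1⟩
    · rintro x y z (k | ⟨k1, k2, k3⟩) k'
      · exact k ▸ k'
      · rcases k' with k' | ⟨_, k5, k6⟩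
        · exact k' ▸ Or.inr ⟨k1, k2, k3⟩
        · exact Or.inr ⟨k1, k5, k3.trans hf.1 k1 k6⟩
    · refine Or.inr ⟨hx, hρ.1 x hx, (face S hρ hγ hb hx).trans hf.1 hx ?_⟩
      have := Sc.step hf.1 (hγ x hx).1
      rwa [(hγ x hx).2] at this
    · exact Or.inr ⟨hx, (hγ x hx).1, face S hρ hγ hb hx⟩
  rcases key with k | k
  · exact k ▸ Sc.refl _ ha
  · exact k.2.2

/-- The number of steps from the start. -/
noncomputable def tm (n : ℕ) (φ : ℕ → ℕ) (rt : ℕ → Prop) (d : ℕ) : ℕ :=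
  lst n fun t => it n φ t (st n φ rt d) = d

theorem ps_eq (d : ℕ) : ps n φ rt d = st n φ rt d * n + tm n φ rt d := rfl

theorem st_spec (h : ∀ d < n, ∃ e < n, Sc n φ d e ∧ rt e) {d : ℕ} (hd : d < n) :
    st n φ rt d < n ∧ Sc n φ d (st n φ rt d) ∧ rt (st n φ rt d) := lst_spec (h d hd)

theorem st_eq (hf : Pm n φ) {a b : ℕ} (ha : a < n) (k : Sc n φ a b) :
    st n φ rt a = st n φ rt b :=
  have hb := k.lt hf.1 ha
  lst_congr fun _ _ => and_congr_left fun _ =>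
    ⟨fun k' => (k.symm hf ha).trans hf.1 hb k', fun k' => k.trans hf.1 ha k'⟩

theorem tm_spec (hf : Pm n φ) (h : ∀ d < n, ∃ e < n, Sc n φ d e ∧ rt e) {d : ℕ} (hd : d < n) :
    tm n φ rt d < n ∧ φ^[tm n φ rt d] (st n φ rt d) = d ∧
      ∀ t < tm n φ rt d, φ^[t] (st n φ rt d) ≠ d := by
  obtain ⟨h1, h2, -⟩ := st_spec h hd
  obtain ⟨k1, k2⟩ := lst_spec (P := fun t => it n φ t (st n φ rt d) = d) (h2.symm hf hd)
  refine ⟨k1, (it_eq hf.1 h1 _).symm.trans k2, fun t ht e => ?_⟩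
  exact absurd (lst_le (P := fun t => it n φ t (st n φ rt d) = d) (ht.trans k1)
    ((it_eq hf.1 h1 t).trans e)) (not_le.2 ht)

theorem st_le (hf : Pm n φ) (h : ∀ d < n, ∃ e < n, Sc n φ d e ∧ rt e) {a b : ℕ}
    (hb : b < n) (k : ps n φ rt a ≤ ps n φ rt b) : st n φ rt a ≤ st n φ rt b := by
  rw [ps_eq, ps_eq] at k
  have h1 := (tm_spec hf h hb).1
  by_contra e
  have := Nat.mul_le_mul_right n (Nat.succ_le_of_lt (not_le.1 e))
  rw [Nat.succ_mul] at this
  omega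

/-- Interlaced pairs on one cycle are separated by the swap. -/
theorem sep (S : SwapK) (hf : Pm n φ) (h : ∀ d < n, ∃ e < n, Sc n φ d e ∧ rt e) {a c a' c' : ℕ}
    (ha : a < n) (hc : c < n) (h1 : Sc n φ a a') (h2 : Sc n φ c c')
    (k1 : ps n φ rt a < ps n φ rt c) (k2 : ps n φ rt c < ps n φ rt a')
    (k3 : ps n φ rt a' < ps n φ rt c') : ¬Sc n (fun d => φ (sw a a' d)) c c' := by
  have ha' := h1.lt hf.1 ha
  have hc' := h2.lt hf.1 hc
  have e1 : st n φ rt a' = st n φ rt a := (st_eq hf ha h1).symm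
  have e2 : st n φ rt c = st n φ rt a :=
    le_antisymm (e1 ▸ st_le hf h ha' k2.le) (st_le hf h hc k1.le)
  have e3 : st n φ rt c' = st n φ rt a := (st_eq hf hc h2).symm.trans e2
  have t1 := (tm_spec hf h ha).2.1
  have t2 := (tm_spec hf h hc).2.1
  have t3 := (tm_spec hf h ha').2.1
  have t4 := (tm_spec hf h hc').2
  rw [ps_eq, ps_eq] at k1 k2 k3
  rw [e2] at t2 k1 k2
  rw [e1] at t3 k2 k3
  rw [e3] at t4 k3
  have := S.sep (i := tm n φ rt a) (j := tm n φ rt c) (k := tm n φ rt a') (l := tm n φ rt c') hf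
    (st_spec h ha).1 (by omega) (by omega) (by omega) (iter_first t4.1 t4.2)
  rwa [t1, t2, t3, t4.1] at this

theorem fix (hβ : Iv n β) (hτ : Iv n τ) (hs : Sb n τ β) {d : ℕ} (hd : d < n) (e : τ d = d) :
    τ (β d) = β d := by
  rcases hs _ (hβ d hd).1 with k | k
  · exact k
  · have := (hτ _ (hβ d hd).1).2
    rw [(hβ d hd).2] at k
    rw [k, e] at this
    rw [k]
    exact this

end Cont

open Cont

theorem contS : SwapK → ContS := by
  intro S n ρ β τ rt hρ hβ hp hτ hs hc hb hr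
  have hf := hρ.comp hτ.pm
  have h : ∀ d < n, ∃ e < n, Sc n (fun d => ρ (τ d)) d e ∧ rt e := fun d hd =>
    (hr d hd).imp fun e k => ⟨k.1, conn_sc S hρ hτ hb hd k.2.1, k.2.2⟩
  refine ⟨fun a ha b hb' e => ?_, fun d hd e => ?_, fun d hd => (st_spec h hd).2.2,
    fun a ha b _ k => st_eq hf ha (conn_sc S hρ hτ hb ha (k.conn' τ hρ ha)), fun d hd => ?_,
    fun a ha c hc' ⟨k1, k2, k3⟩ => ?_, fun a ha c hc' ⟨k1, k2, k3⟩ => ?_⟩
  · have e1 := le_antisymm (st_le hf h hb' e.le) (st_le hf h ha e.ge)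
    rw [ps_eq, ps_eq, e1, Nat.add_left_cancel_iff] at e
    have t1 := (tm_spec hf h ha).2.1
    rw [e1, e] at t1
    exact t1.symm.trans (tm_spec hf h hb').2.1
  · have hd' := hf.1 d hd
    have e1 : st n (fun d => ρ (τ d)) rt (ρ (τ d)) = st n (fun d => ρ (τ d)) rt d :=
      (st_eq hf hd (Sc.step hf.1 hd)).symm
    obtain ⟨-, t1, t2⟩ := tm_spec hf h hd
    obtain ⟨-, u1, u2⟩ := tm_spec hf h hd'
    rw [ps_eq, ps_eq, e1, Nat.add_assoc, Nat.add_left_cancel_iff]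
    rw [e1] at u1 u2 e
    generalize Cont.tm n (fun d => ρ (τ d)) rt (ρ (τ d)) = u at u1 u2 ⊢
    rcases u with _ | u
    · exact absurd u1 e
    rw [Function.iterate_succ_apply'] at u1
    have u3 := hf.2 _ (iter_inv (Q := fun a => a < n) hf.1 (st_spec h hd).1 u) _ hd u1
    have a1 : ¬u < Cont.tm n (fun d => ρ (τ d)) rt d := fun k => t2 u k u3
    have a2 : ¬Cont.tm n (fun d => ρ (τ d)) rt d + 1 < u + 1 := fun k =>
      u2 _ k (by rw [Function.iterate_succ_apply', t1])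
    omega
  · unfold out
    by_cases e : τ d = d
    · rw [if_pos e, if_pos (fix hβ hτ hs hd e)]
      exact hβ d hd
    · rw [if_neg e, if_neg e]
      exact ⟨hd, rfl⟩
  · have ea : τ a = a := by
      by_contra e
      rw [out, if_neg e] at k2
      omega
    have ec : τ c = c := by
      by_contra e
      rw [out.eq_def β τ c, if_neg e] at k3
      omega
    have oa : out β τ a = β a := if_pos ea
    have oc : out β τ c = β c := if_pos ec
    rw [oa] at k2 k3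
    rw [oc] at k3
    have eb := fix hβ hτ hs ha ea
    have n1 : c ≠ a := fun e => by rw [e] at k1; omega
    have n2 : c ≠ β a := fun e => by rw [← e] at k2; omega
    refine sep S hf h ha hc' (conn_sc S hρ hτ hb ha (hc a ha)) (conn_sc S hρ hτ hb hc' (hc c hc'))
      k1 k2 k3 (hp (fun d => τ (sw a (β a) d)) (hτ.add ha (hβ a ha).1 ea eb) (fun d hd => ?_) c hc'
        (by simp [sw, n1, n2, ec]) ((hc c hc').mono fun d _ => ?_))
    · by_cases m1 : d = a
      · exact Or.inr (by simp [sw, m1, eb])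
      by_cases m2 : d = β a
      · subst m2
        exact Or.inr (by simp [sw, m1, ea, hβ a ha])
      simpa [sw, m1, m2] using hs d hd
    · by_cases m1 : d = a
      · exact Or.inl (m1 ▸ ea)
      by_cases m2 : d = β a
      · exact Or.inl (m2 ▸ eb)
      exact Or.inr (by simp [sw, m1, m2])
  · have n1 : c ≠ a := fun e => by rw [e] at k1; omega
    have n2 : c ≠ τ a := fun e => by rw [← e] at k2; omega
    have hg := hτ.del ha
    have ec : del τ a c = τ c := by simp [del, n1, n2]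
    refine sep S hf h ha hc' (face S hρ hτ hb ha) (face S hρ hτ hb hc') k1 k2 k3 ?_
    have := face S hρ hg (fun d hd e k => ?_) hc'
    · rw [ec] at this
      exact this.congr (hρ.comp hg.pm).1 (fun x _ => by rw [del_eq hτ ha]) hc'
    · have e1 : del τ a d = τ d := (del_sb n a τ d hd).resolve_left e
      rw [e1] at e k
      refine hb d hd e (k.mono fun x hx => ?_)
      by_cases m : x = d ∨ x = τ d
      · exact Or.inl (by rw [del, e1, if_pos m])
      · rw [del.eq_def (del τ a) d x, e1, if_neg m, del.eq_def τ d x, if_neg m]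
        exact del_sb n a τ x hx

end Pool.Agent.MP_1a6d78_lc.PR

end MrgPart7

-- ======== part 8: formerly Pool.Agent.MP_1a6d78_lc.PR.Eul
section MrgPart8

/-! PROJECT PR, row EUL: the genus of a plane map is zero. -/

namespace Pool.Agent.MP_1a6d78_lc.PR

open Classical ED

namespace Eul

variable {n : ℕ}

theorem cnt_card (P : ℕ → Prop) : cnt n P = Nat.card {d // d < n ∧ P d} := by
  rw [cnt, ← Nat.card_eq_finsetCard]
  exact Nat.card_congr (Equiv.subtypeEquivRight fun d => by simp)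

theorem ncl_orb (H : Subgroup (Equiv.Perm (Fin n))) {r : ℕ → ℕ → Prop}
    (h : ∀ a b : Fin n, r a b ↔ ∃ g ∈ H, (g a : ℕ) = b) : ncl n (fun _ => True) r = orb H := by
  have e : ∀ a b : Fin n, MulAction.orbitRel H (Fin n) b a ↔ r a b := fun a b =>
    ⟨fun ⟨g, k⟩ => (h a b).2 ⟨g, g.2, congrArg Fin.val k⟩, fun k => by
      obtain ⟨g, k1, k2⟩ := (h a b).1 k
      exact ⟨⟨g, k1⟩, Fin.ext k2⟩⟩
  rw [ncl, cnt_card]
  refine Nat.card_eq_of_bijective (fun d => Quotient.mk (MulAction.orbitRel H (Fin n))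
    ⟨d.1, d.2.1⟩) ⟨fun a b k => ?_, fun x => ?_⟩
  · have k1 := Quotient.exact k
    exact Subtype.ext (le_antisymm
      (a.2.2.2 _ b.2.1 ((e _ _).1 ((MulAction.orbitRel H (Fin n)).symm k1)))
      (b.2.2.2 _ a.2.1 ((e _ _).1 k1)))
  · obtain ⟨a, rfl⟩ := Quotient.exists_rep x
    have k := (MulAction.orbitRel H (Fin n)).refl a
    obtain ⟨k1, k2⟩ := lst_spec (P := r a) ⟨a, a.2, (e a a).1 k⟩
    have k3 := (e a ⟨_, k1⟩).2 k2
    refine ⟨⟨lst n (r a), k1, trivial, fun b hb k4 => lst_le hb ((e a ⟨b, hb⟩).1 ?_)⟩,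
      Quotient.sound k3⟩
    exact (MulAction.orbitRel H (Fin n)).trans ((e ⟨_, k1⟩ ⟨b, hb⟩).2 k4) k3

theorem clo {k : Set (Equiv.Perm (Fin n))} {r : ℕ → ℕ → Prop} (hr : Eqv n r)
    (h : ∀ g ∈ k, ∀ a : Fin n, r a (g a)) {g : Equiv.Perm (Fin n)} (hg : g ∈ Subgroup.closure k) :
    ∀ a : Fin n, r a (g a) := by
  induction hg using Subgroup.closure_induction with
  | mem x hx => exact h x hx
  | one => exact fun a => hr.1 a a.2
  | mul x y _ _ h1 h2 => exact fun a => hr.2.2 _ a.2 _ (y a).2 _ (x (y a)).2 (h2 a) (h1 (y a))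
  | inv x _ h1 =>
    intro a
    have := h1 (x⁻¹ a)
    rw [show x (x⁻¹ a) = a from x.apply_symm_apply a] at this
    exact hr.2.1 _ (x⁻¹ a).2 _ a.2 this

theorem pm {π : Equiv.Perm (Fin n)} {f : ℕ → ℕ} (h : ∀ a : Fin n, f a = π a) : Pm n f :=
  ⟨fun d hd => (h ⟨d, hd⟩).trans_lt (π _).2, fun a ha b hb e => congrArg Fin.val
    (π.injective (Fin.ext ((h ⟨a, ha⟩).symm.trans (e.trans (h ⟨b, hb⟩)))))⟩

theorem step {H : Subgroup (Equiv.Perm (Fin n))} {π : Equiv.Perm (Fin n)} (hπ : π ∈ H)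
    {f : ℕ → ℕ} (h : ∀ a : Fin n, f a = π a) (x : Fin n) {d : ℕ} (hd : d < n) :
    (∃ g ∈ H, (g x : ℕ) = d) ↔ ∃ g ∈ H, (g x : ℕ) = f d := by
  constructor
  · rintro ⟨g, k, rfl⟩
    exact ⟨π * g, H.mul_mem hπ k, (h (g x)).symm⟩
  · rintro ⟨g, k, e⟩
    refine ⟨π⁻¹ * g, H.mul_mem (H.inv_mem hπ) k, ?_⟩
    have : g x = π ⟨d, hd⟩ := Fin.ext (e.trans (h ⟨d, hd⟩))
    rw [Equiv.Perm.mul_apply, this]
    exact congrArg Fin.val (π.symm_apply_apply ⟨d, hd⟩)

theorem ncl_sc {π : Equiv.Perm (Fin n)} {f : ℕ → ℕ} (h : ∀ a : Fin n, f a = π a) :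
    ncl n (fun _ => True) (Sc n f) = orb (Subgroup.zpowers π) := by
  refine ncl_orb _ fun a b => ⟨fun k => ?_, ?_⟩
  · exact Sc.ind (pm h).1 (Q := fun d => ∃ g ∈ Subgroup.zpowers π, (g a : ℕ) = d) a.2
      ⟨1, one_mem _, rfl⟩ (fun d hd => (step (Subgroup.mem_zpowers π) h a hd).1) k
  · rintro ⟨g, k, e⟩
    rw [Subgroup.zpowers_eq_closure] at k
    refine e ▸ clo (pm h).eqv (fun g hg a => ?_) k a
    rw [Set.mem_singleton_iff.1 hg, ← h]
    exact Sc.step (pm h).1 a.2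

theorem ncl_conn {σ α : Equiv.Perm (Fin n)} {ρ β : ℕ → ℕ} (h1 : ∀ a : Fin n, ρ a = σ a)
    (h2 : ∀ a : Fin n, β a = α a) :
    ncl n (fun _ => True) (Conn n ρ β) = orb (Subgroup.closure {σ, α}) := by
  refine ncl_orb _ fun a b => ⟨fun k => ?_, ?_⟩
  · exact (Conn.ind (r := fun c d => (∃ g ∈ Subgroup.closure {σ, α}, (g a : ℕ) = c) ↔
      ∃ g ∈ Subgroup.closure {σ, α}, (g a : ℕ) = d) ⟨fun _ => Iff.rfl, Iff.symm, Iff.trans⟩
      (fun d hd => step (Subgroup.subset_closure (Or.inl rfl)) h1 a hd)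
      (fun d hd => step (Subgroup.subset_closure (Or.inr rfl)) h2 a hd) k).1 ⟨1, one_mem _, rfl⟩
  · rintro ⟨g, k, e⟩
    refine e ▸ clo (Conn.eqv n ρ β) ?_ k a
    rintro g (rfl | rfl) a
    · exact h1 a ▸ Conn.rho ρ β a.2
    · exact h2 a ▸ Conn.gam ρ β a.2

end Eul

theorem eulS : EulS := by
  intro n σ α dir s t M h hα hP
  rw [h.hn]
  refine ⟨Eul.pm h.ρ, fun d hd => ⟨(Eul.pm h.β).1 d hd, ?_⟩, ?_⟩
  · rw [show M.β d = α ⟨d, hd⟩ from h.β ⟨d, hd⟩, h.β, ← Equiv.Perm.mul_apply, hα]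
    rfl
  · rw [gen, Eul.ncl_conn h.ρ h.β, Eul.ncl_sc h.β, Eul.ncl_sc h.ρ,
      Eul.ncl_sc (π := σ * α) fun a => by rw [h.β, h.ρ]; rfl]
    unfold Planar at hP
    omega

end Pool.Agent.MP_1a6d78_lc.PR

end MrgPart8

-- ======== part 9: formerly Pool.Agent.MP_1a6d78_lc.PR.Fin
section MrgPart9

/-! PROJECT PR, row FIN: from the modules to the theorem. -/

namespace Pool.Agent.MP_1a6d78_lc.PR

open Classical ED

namespace FinR

theorem time (C n : ℕ) : C * (n + 2) ^ 4 + 2 ≤ (n + 2) ^ (C + 5) := by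
  have h1 : C ≤ (n + 2) ^ C := (Nat.lt_pow_self (by omega)).le
  have h2 : C * (n + 2) ^ 4 ≤ (n + 2) ^ (C + 4) := by
    rw [pow_add]; exact Nat.mul_le_mul_right _ h1
  have h3 : n + 2 ≤ (n + 2) ^ (C + 4) := Nat.le_self_pow (by omega) _
  rw [pow_succ (n + 2) (C + 4)]
  nlinarith

theorem space {n k r c C : ℕ} (hr : 1 ≤ r) (h : n < k ^ r) :
    (C * k ^ 4 + 1) * (c * Nat.log 2 (C * (n + 2) ^ 4 + 2) + c) ≤
      (C + 1) * c * (r * (C + 5) + 1) * ((k + 1) ^ 4) ^ 2 := by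
  have h1 : k ^ r < (k + 1) ^ r := Nat.pow_lt_pow_left (by omega) (by omega)
  have h2 : (k + 1) ^ r ≤ (2 ^ k) ^ r := Nat.pow_le_pow_left Nat.lt_two_pow_self r
  have h3 : (n + 2) ^ (C + 5) ≤ ((2 ^ k) ^ r) ^ (C + 5) := Nat.pow_le_pow_left (by omega) _
  rw [← pow_mul, ← pow_mul] at h3
  have h4 : Nat.log 2 (C * (n + 2) ^ 4 + 2) ≤ k * (r * (C + 5)) :=
    (Nat.log_mono_right ((time C n).trans h3)).trans (Nat.log_pow (by norm_num) _).le
  have h7 : k ^ 4 ≤ (k + 1) ^ 4 := Nat.pow_le_pow_left (by omega) 4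
  have h8 : k + 1 ≤ (k + 1) ^ 4 := Nat.le_self_pow (by omega) _
  have h5 : C * k ^ 4 + 1 ≤ (C + 1) * (k + 1) ^ 4 := by
    have := Nat.mul_le_mul_left C h7
    rw [add_mul, one_mul]
    omega
  have h6 : Nat.log 2 (C * (n + 2) ^ 4 + 2) + 1 ≤ (r * (C + 5) + 1) * (k + 1) ^ 4 := by
    refine le_trans ?_ (Nat.mul_le_mul_left _ h8)
    generalize r * (C + 5) = m at h4 ⊢
    nlinarith
  calc _ = (C * k ^ 4 + 1) * (c * (Nat.log 2 (C * (n + 2) ^ 4 + 2) + 1)) := by ring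
    _ ≤ ((C + 1) * (k + 1) ^ 4) * (c * ((r * (C + 5) + 1) * (k + 1) ^ 4)) :=
      Nat.mul_le_mul h5 (Nat.mul_le_mul_left _ h6)
    _ = _ := by ring

theorem root {n k r : ℕ} {ε : ℝ} (hε : 0 < ε) (hr : 1 ≤ r) (h4 : 4 / (ε / 2) ≤ r)
    (h : (k - 1) ^ r ≤ n) : ((((k + 1) ^ 4) ^ 2 : ℕ) : ℝ) ≤ 6561 * ((n : ℝ) + 1) ^ ε := by
  have a := Fn.root (by positivity) hr h4 h
  have e : (((n : ℝ) + 1) ^ (ε / 2)) ^ 2 = ((n : ℝ) + 1) ^ ε := by
    rw [← Real.rpow_natCast, ← Real.rpow_mul (by positivity)]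
    congr 1
    push_cast
    ring
  rw [Nat.cast_pow, ← e]
  refine (pow_le_pow_left₀ (Nat.cast_nonneg _) a 2).trans (le_of_eq ?_)
  ring

theorem kap_eq (r : ℕ) : ∃ C, 1 ≤ C ∧ ∀ x, kap r x = C * kk r x ^ 4 :=
  ⟨(r + 1) * 1000 * 5000 ^ 4, Nat.mul_pos (by omega) (by norm_num), fun x => by
    rw [kap, mul_pow, ← mul_assoc]⟩

end FinR

open FinR in
theorem fin : ALev → LevS → CodS → EulS → GenK → MainS := by
  intro hA hL hC hE hG ε hε
  obtain ⟨r, hr, h4⟩ : ∃ r : ℕ, 1 ≤ r ∧ 4 / (ε / 2) ≤ r :=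
    ⟨⌈4 / (ε / 2)⌉₊, Nat.ceil_pos.2 (by positivity), Nat.le_ceil _⟩
  obtain ⟨C, C1, eC⟩ := kap_eq r
  obtain ⟨M, c, H⟩ := mach _ _ (hA r hr)
  refine ⟨M, (C + 5) * c + (C + 1) * c * (r * (C + 5) + 1) * 6561, fun x => ?_⟩
  obtain ⟨k1, k2, k3, k4⟩ := kkS r x hr
  have k5 : kk r x - 1 ≤ x.length := (Nat.le_self_pow (by omega) _).trans k3
  obtain ⟨H1, H2⟩ := H x (C * (x.length + 2) ^ 4)
    (eC x ▸ Nat.mul_pos C1 (Nat.pow_pos k1))
    (eC x ▸ Nat.mul_le_mul_left _ (Nat.pow_le_pow_left (by omega) 4))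
    (((Nat.le_add_right _ 2).trans (Nat.le_self_pow (by norm_num) _)).trans
      (Nat.le_mul_of_pos_left _ C1))
  refine ⟨(if (inp x).ans (5000 * kk r x) (kap r x) r then 1 else 0) != 0, ?_, fun t i => ?_,
    fun n σ α dir s t hα hP hx => ?_⟩
  · rw [Fn.halt M x H1, H1]
    refine (Nat.pow_le_pow_left (time C _) c).trans ?_
    rw [← pow_mul]
    exact Nat.pow_le_pow_right (by omega) (Nat.le_add_right _ _)
  · have a : ((M.run x t).head i : ℝ) ≤
        (((C + 1) * c * (r * (C + 5) + 1) * ((kk r x + 1) ^ 4) ^ 2 : ℕ) : ℝ) :=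
      Nat.cast_le.2 ((H2 t i).trans (eC x ▸ space hr k2))
    have b := root hε hr h4 k3
    have p : (0 : ℝ) ≤ ((x.length : ℝ) + 1) ^ ε := by positivity
    rw [Nat.cast_mul] at a
    refine (a.trans (mul_le_mul_of_nonneg_left b (Nat.cast_nonneg _))).trans ?_
    rw [← mul_assoc]
    refine mul_le_mul_of_nonneg_right ?_ p
    exact_mod_cast Nat.le_add_left _ _
  · obtain ⟨c1, c2⟩ := hC σ α dir s t
    rw [← hx] at c1
    obtain ⟨e1, e2, e3⟩ := hE σ α dir s t _ c1 hα hP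
    have ok : (inp x).Ok := ⟨e1, e2, hG.pl e1 e2 e3.le, by rw [c1.s, c1.hn]; exact s.2⟩
    rw [c2 _ c1, ← hL (inp x) (kk r x) (kap r x) r ok k1 ((k4 0).trans_lt k2) le_rfl]
    split_ifs with h <;> simp [h]

end Pool.Agent.MP_1a6d78_lc.PR

end MrgPart9

-- ======== part 10: formerly Pool.Agent.MP_1a6d78_lc.PR.GCnt
section MrgPart10

/-! PROJECT PR, row GCNT: the skeleton and the counts of one level. -/

namespace Pool.Agent.MP_1a6d78_lc.PR

open Classical ED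

namespace GCnt

theorem cnt_one (n a : ℕ) : cnt n (fun v => v = a) ≤ 1 := by
  have := cnt_inj (n := n) (m := 1) (P := fun v => v = a) (Q := fun _ => True) (fun _ => 0)
    (fun _ _ _ => ⟨Nat.one_pos, trivial⟩) fun _ _ _ _ h h' _ => h.trans h'.symm
  exact this.trans (cnt_le 1 _)

/-- Counting images of first darts. -/
theorem cnt_fs {L : Ln} (hK : L.SecK) (g : ℕ → ℕ) (S : ℕ → Prop) (c m : ℕ) :
    cnt m (fun v => ∃ d, d < L.n ∧ g d = v ∧ L.fs d ∧ c ≤ L.rk d ∧ S (L.rk d - c)) ≤ cnt L.q S := by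
  refine cnt_inj (fun v => if h : ∃ d, d < L.n ∧ g d = v ∧ L.fs d ∧ c ≤ L.rk d ∧ S (L.rk d - c)
    then L.rk h.choose - c else 0) (fun a _ h => ?_) fun a _ b _ h h' e => ?_
  · rw [dif_pos h]
    obtain ⟨h1, -, -, -, h2⟩ := h.choose_spec
    exact ⟨(Nat.sub_le _ _).trans_lt (hK.lt _ h1), h2⟩
  · simp only [dif_pos h, dif_pos h'] at e
    obtain ⟨h1, h2, h3, h4, -⟩ := h.choose_spec
    obtain ⟨k1, k2, k3, k4, -⟩ := h'.choose_spec
    rw [← h2, ← k2, hK.finj _ h1 _ k1 h3 k3 (by omega)]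

end GCnt

theorem gCntS : SectS → GCntS := by
  intro hS M D f hD _ hF hP
  have hK : (M.L f).SecK := hS _ hP.lok
  obtain ⟨hO, hR⟩ := hF
  have hpar : ∀ a, f.live a → f.live (f.par a) := fun a ha => by
    by_cases e : f.par a = a
    · rw [e]; exact ha
    · exact (hO.par a ha e).2.1
  have hX : ∀ x, M.X D f x → f.live x := by
    rintro x (rfl | h)
    · exact hR.ls
    · exact h.1
  have hKi : ∀ v, (M.ld D f).K v ↔ ∃ x, M.X D f x ∧ ∃ t, f.par^[t] x = v := fun v => by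
    constructor
    · rintro ⟨x, -, h1, t, -, h2⟩
      exact ⟨x, h1, t, (it_eq' hpar hO.lt (hX x h1) t).symm.trans h2⟩
    · rintro ⟨x, h1, t, h2⟩
      obtain ⟨s, h3, h4⟩ := iter_bnd' hpar hO.lt (hX x h1) h2
      exact ⟨x, hO.lt x (hX x h1), h1, s, h3, (it_eq' hpar hO.lt (hX x h1) s).trans h4⟩
  refine ⟨hKi, fun v hv => ?_, fun v hv => ?_, fun y => ?_, ?_⟩
  · obtain ⟨x, h1, t, rfl⟩ := (hKi v).1 hv
    exact (hKi _).2 ⟨x, h1, t + 1, Function.iterate_succ_apply' _ _ _⟩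
  · obtain ⟨x, h1, t, rfl⟩ := (hKi v).1 hv
    exact iter_inv hpar (hX x h1) t
  · refine le_trans (cnt_inj (M.L f).rk (fun a ha h => ⟨hK.lt a ha, h.2⟩)
      fun a ha b hb h _ e => ?_) (hP.size y)
    exact (hK.sing a ha b hb (Or.inr h.1) ((hK.same a ha b hb).1 e).1.symm).symm
  · have h0 := GCnt.cnt_one M.n (M.nd M.s)
    have h1 := GCnt.cnt_fs hK M.nd (M.G D f).S 0 M.n
    have h2 := GCnt.cnt_fs hK M.nd (M.G D f).S 1 M.n
    have h3 : cnt M.n (M.X D f) ≤ 1 + (cnt (M.L f).q (M.G D f).S + cnt (M.L f).q (M.G D f).S) := by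
      refine le_trans (cnt_mono ?_) ((cnt_or _ _ _).trans (Nat.add_le_add h0
        ((cnt_or _ _ _).trans (Nat.add_le_add h1 h2))))
      rintro a - (h | ⟨-, d, k1, k2, k3, k4⟩)
      · exact Or.inl h
      · refine Or.inr ?_
        rcases k4 with k4 | k4
        · exact Or.inl ⟨d, k1, k2, k3, Nat.zero_le _, k4⟩
        · rcases Nat.eq_zero_or_pos ((M.L f).rk d) with e | e
          · refine Or.inl ⟨d, k1, k2, k3, Nat.zero_le _, ?_⟩
            rw [e] at k4 ⊢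
            exact k4
          · exact Or.inr ⟨d, k1, k2, k3, e, k4⟩
    have h4 := Nat.mul_le_mul_left D h3
    have h5 := hP.few
    have h6 := hP.q
    have h7 : D ≤ D ^ 5 := Nat.le_self_pow (by norm_num) D
    rw [Nat.mul_add, Nat.mul_add, Nat.mul_one] at h4
    omega

end Pool.Agent.MP_1a6d78_lc.PR

end MrgPart10

-- ======== part 11: formerly Pool.Agent.MP_1a6d78_lc.PR.GLab
section MrgPart11

/-! PROJECT PR, row GLAB: the piece label is constant along arcs that avoid the skeleton. -/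

namespace Pool.Agent.MP_1a6d78_lc.PR

open Classical ED

namespace GLab

variable {M : Mp} {D : ℕ} {f : Fo}

/-- A dart moved by `tau` is moved along `F.β`. -/
theorem tau_eq (hS : M.SetK f) {d : ℕ} (hd : d < M.n) (h : (M.F f).tau d ≠ d) :
    (M.F f).tau d = (M.F f).β d := (hS.msf.sb d hd).resolve_left h

/-- The label is the same at the two ends of a connecting edge. -/
theorem con_lab (hP : M.PtK D f) (hk : (M.L f).SecK) {d : ℕ} (hd : d < M.n)
    (h : (M.F f).con d) :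
    M.l2 D f ((M.L f).rk ((M.F f).tau d)) = M.l2 D f ((M.L f).rk d) := by
  obtain ⟨h1, h2⟩ := hP.dn d hd h
  have e : M.mate D f ((M.L f).rk d) = (M.L f).rk ((M.F f).tau d) := by
    rw [Mp.mate, if_pos h2, h1]
  rw [← e]
  exact (hP.mate _ (hk.lt d hd)).2.2

/-- The label is the same at the two ends of an upper chord. -/
theorem up_lab (hP : M.PtK D f) {i : ℕ} (hi : i < (M.L f).q) :
    M.l2 D f ((M.L f).up i) = M.l2 D f i := by
  by_cases h : (M.G D f).up i = i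
  · have h' : (M.L f).up i = i := h
    rw [h']
  · have e : M.mate D f i = (M.L f).up i := by
      rw [Mp.mate, if_neg h]; rfl
    rw [← e]
    exact (hP.mate i hi).2.2

/-- One step along the contour into a live node outside the skeleton. -/
theorem step_lab (hP : M.PtK D f) (hC : M.CntK D f) (hk : (M.L f).SecK) {d e : ℕ} (hd : d < M.n)
    (he : e < M.n) (hp : (M.L f).pos e = (M.L f).pos d + 1) (hl : f.live (M.nd e))
    (hK : ¬(M.ld D f).K (M.nd e)) :
    M.l2 D f ((M.L f).rk e) = M.l2 D f ((M.L f).rk d) := by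
  rcases hk.step d hd e he hp with h | ⟨h, hf⟩
  · rw [h]
  have hX : ¬M.X D f (M.nd e) := fun k => hK ((hC.K _).2 ⟨_, k, 0, rfl⟩)
  have h1 : ¬((M.G D f).S ((M.L f).rk e) ∨ (M.G D f).S ((M.L f).rk e - 1)) :=
    fun k => hX (Or.inr ⟨hl, e, he, rfl, hf, k⟩)
  have h2 := hk.lt e he
  rw [h] at h1 h2 ⊢
  rw [Nat.add_sub_cancel, not_or] at h1
  exact hP.spine _ h2 h1.2 h1.1

/-- A forest edge leads from a node outside the skeleton to a higher node outside it. -/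
theorem child (hS : M.SetK f) (hC : M.CntK D f) {d : ℕ} (hd : d < M.n)
    (h : (M.F f).tau d ≠ d) (hp : (M.F f).pd (M.nd ((M.F f).tau d)) = (M.F f).tau d)
    (hK : ¬(M.ld D f).K (M.nd d)) :
    (f.live (M.nd ((M.F f).tau d)) ∧ ¬(M.ld D f).K (M.nd ((M.F f).tau d))) ∧
      f.ht (M.nd d) < f.ht (M.nd ((M.F f).tau d)) := by
  obtain ⟨he, hi⟩ := hS.msf.iv d hd
  have e1 : (M.F f).β ((M.F f).tau d) = d := by
    rw [← tau_eq hS he (by rw [hi]; exact h.symm), hi]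
  obtain ⟨h1, h2, h3⟩ := hS.child _ he hp
  have h4 := (hS.fok.par _ he hp).2
  rw [e1] at h3 h4
  rw [← h3] at h2
  exact ⟨⟨h1, fun k => hK (h2 ▸ hC.kpar _ k)⟩, h4⟩

end GLab

open GLab in
theorem gLabS : SectS → SecUS → StS → GLabS := by
  intro h1 h2 h3 M D f hM hF hS hP hC
  have hk : (M.L f).SecK := h1 _ hP.lok
  have hu : (M.L f).SecU := h2 _ hP.lok hk
  obtain ⟨A, B⟩ := h3 M.n f.H M.ρ (M.F f).tau M.nd (M.F f).pd f.ht
    (fun d => M.l2 D f ((M.L f).rk d)) (fun v => f.live v ∧ ¬(M.ld D f).K v)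
    (fun d => st M.n (fun d => M.ρ ((M.F f).tau d)) (M.rt f) d = d) hM.pm hS.msf.iv
    (fun a ha b hb => Mp.nd_iff hM.pm ha hb) hS.fok.pd (fun d _ k => (hF.1.ht _ k.1).le)
    (fun d hd k k' k'' => child hS hC hd k k' k''.2)
    (fun d hd k _ => by
      have := hS.cont.root d hd
      rw [k] at this
      exact this)
    (fun d hd e he k k' k'' => by
      rw [← k, ← k']
      exact hS.cont.uniq d hd e he ((Mp.nd_iff hM.pm hd he).1 k''))
    (fun d hd k k' => step_lab hP hC hk hd (hM.pm.1 _ (hS.msf.iv d hd).1)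
      (hS.cont.succ d hd k') k.1 k.2)
    (fun d hd k k' k'' _ => con_lab hP hk hd ⟨k, fun g => g.elim k' fun g => k'' (by
      rw [tau_eq hS hd k]; exact g)⟩)
  rintro u v hl ha hu' hv'
  have hlv := hF.1.clo u v hl ha
  obtain ⟨d, hd, -, rfl, rfl⟩ := ha
  have hb := (hM.iv d hd).1
  have eb : (M.F f).β d = M.β d := if_pos ⟨hl, hlv⟩
  have a1 := A d hd _ (Mp.nd_spec hd).1 (Mp.nd_nd hM.pm hd).symm ⟨hl, hu'⟩
  have a2 := A _ hb _ (Mp.nd_spec hb).1 (Mp.nd_nd hM.pm hb).symm ⟨hlv, hv'⟩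
  show M.l2 D f ((M.L f).rk (M.nd d)) = M.l2 D f ((M.L f).rk (M.nd (M.β d)))
  refine a1.symm.trans (Eq.trans (Eq.symm ?_) a2)
  by_cases ht : (M.F f).tau d = d
  · have eo : (M.L f).o d = M.β d := by
      show out (M.F f).β (M.F f).tau d = _
      rw [out, if_pos ht, eb]
    rcases hu.chord d hd with k | k
    · rw [← eo, k]
    · rw [← eo, k]
      exact up_lab hP (hk.lt d hd)
  · have et : (M.F f).tau d = M.β d := (tau_eq hS hd ht).trans eb
    have := B d hd ht ⟨hl, hu'⟩ (by rw [et]; exact ⟨hlv, hv'⟩)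
    rw [et] at this
    exact this

end Pool.Agent.MP_1a6d78_lc.PR

end MrgPart11

-- ======== part 12: formerly Pool.Agent.MP_1a6d78_lc.PR.GPt
section MrgPart12

/-! PROJECT PR: the two-page graph of a level and its labels. -/

namespace Pool.Agent.MP_1a6d78_lc.PR

open Classical ED

namespace GPt

theorem con_tau {F : Fm} (ok : F.Ok) (m : F.MsfK) (d : ℕ) (hd : d < F.n) (h : F.con d) :
    F.con (F.tau d) := by
  have e : F.tau d = F.β d := (m.sb d hd).resolve_left h.1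
  refine ⟨fun k => h.1 (k.symm.trans (m.iv d hd).2), fun k => h.2 ?_⟩
  rw [e, Fm.isF, (ok.iv d hd).2] at k
  exact k.symm

theorem nb0 (G : Pt) {i : ℕ} (h : i + 1 < G.q) : G.nb i 0 = i + 1 := by
  have a : (4 * i + 0) % 4 = 0 := by omega
  have b : (4 * i + 0) / 4 = i := by omega
  rw [Pt.nb, Pt.β, b2, if_pos a, b, if_pos h]
  omega

theorem nb1 (G : Pt) (i : ℕ) : G.nb i 1 = G.up i := by
  have a : (4 * i + 1) % 4 = 1 := by omega
  have b : (4 * i + 1) / 4 = i := by omega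
  rw [Pt.nb, Pt.β, b2, a, b, if_neg (by omega), if_pos rfl]
  omega

theorem nb3 (G : Pt) (i : ℕ) : G.nb i 3 = G.dn i := by
  have a : (4 * i + 3) % 4 = 3 := by omega
  have b : (4 * i + 3) / 4 = i := by omega
  rw [Pt.nb, Pt.β, b2, a, b, if_neg (by omega), if_neg (by omega), if_neg (by omega)]
  omega

theorem cnt_one (n a : ℕ) : cnt n (fun i => i = a) ≤ 1 := by
  have := cnt_inj (n := n) (m := 1) (P := fun i => i = a) (Q := fun _ => True) (fun _ => 0)
    (fun _ _ _ => ⟨Nat.one_pos, trivial⟩) fun _ _ _ _ p q _ => p.trans q.symm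
  exact this.trans (cnt_le _ _)

theorem mate_iv {q : ℕ} {up dn : ℕ → ℕ} (hu : Iv q up) (hd : Iv q dn)
    (one : ∀ i < q, up i = i ∨ dn i = i) : Iv q fun i => if up i = i then dn i else up i := by
  intro i hi
  by_cases a : up i = i
  · simp only [if_pos a]
    refine ⟨(hd i hi).1, ?_⟩
    rcases one _ (hd i hi).1 with b | b
    · rw [if_pos b, (hd i hi).2]
    · have c : dn i = i := b.symm.trans (hd i hi).2
      rw [c, if_pos a, c]
  · simp only [if_neg a]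
    refine ⟨(hu i hi).1, ?_⟩
    rw [(hu i hi).2, if_neg fun b => a b.symm]

end GPt

open GPt in
theorem gPtS (sect : SectS) (secu : SecUS) (secq : SecQS) (part : PartS) : GPtS := by
  intro M D f hD _ _ s
  have lok : (M.L f).Ok := ⟨s.cont.inj, s.cont.ivo, s.cont.nco⟩
  have su := secu _ lok (sect _ lok)
  obtain ⟨d1, d2, d3, d4⟩ := su.dn (M.F f).con (M.F f).tau s.msf.iv s.cont.nci
    (fun _ _ h => Or.inl h) (con_tau s.fok s.msf)
  have gok : (M.G D f).Ok := ⟨su.iv, d1, su.nc, d2, hD⟩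
  obtain ⟨edge, size, count⟩ := part _ gok
  have fix : ∀ d < M.n, (M.F f).con d → (M.G D f).up ((M.L f).rk d) = (M.L f).rk d :=
    fun d hd h => su.fix d hd (Or.inl h) (if_neg h.1)
  have one : ∀ i < (M.L f).q, (M.G D f).up i = i ∨ (M.G D f).dn i = i := fun i _ => by
    rcases d4 i with h | ⟨d, hd, rfl, h⟩
    · exact Or.inr h
    · exact Or.inl (fix d hd h)
  have iv : Iv (M.L f).q (M.mate D f) := mate_iv gok.iu gok.id one
  have lab : ∀ i < (M.L f).q, ¬(M.G D f).S i → ¬(M.G D f).S (M.mate D f i) →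
      (M.G D f).lab (M.mate D f i) = (M.G D f).lab i := fun i hi a b => by
    unfold Mp.mate at b ⊢
    split_ifs at b ⊢
    · rw [← nb3] at b ⊢
      exact edge i hi 3 (by omega) a b
    · rw [← nb1] at b ⊢
      exact edge i hi 1 (by omega) a b
  refine ⟨lok, gok, ?_, one, fun d hd h => ⟨d3 d hd h, fix d hd h⟩,
    fun i hi => ⟨(iv i hi).1, (iv i hi).2, ?_⟩, fun i hi a b => ?_, fun y => ?_, count⟩
  · have a := secq _ lok
    have b : cnt (M.L f).n (M.L f).sp ≤ _ := cnt_or M.n (M.F f).con f.mk'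
    have c := s.con
    omega
  · unfold Mp.l2
    rw [(iv i hi).2]
    by_cases a : (M.G D f).S i <;> by_cases b : (M.G D f).S (M.mate D f i)
    · simp only [a, b, not_true, if_false, min_comm]
    · simp only [a, b, not_true, not_false_iff, if_false, if_true]
    · simp only [a, b, not_true, not_false_iff, if_false, if_true]
    · rw [if_pos b, if_pos a, lab i hi a b]
  · unfold Mp.l2
    have c := edge i (Nat.lt_of_succ_lt hi) 0 (by omega) a
    rw [nb0 (M.G D f) hi] at c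
    rw [if_pos b, if_pos a, c b]
  · have z : cnt (M.L f).q (fun v => ¬(M.G D f).S v ∧ (M.G D f).lab v = y / 2) ≤ 2 * D ^ 2 :=
      size (y / 2)
    by_cases p : y % 2 = 0
    · have a := cnt_or (M.L f).q (fun v => ¬(M.G D f).S v ∧ (M.G D f).lab v = y / 2)
        fun v => ¬(M.G D f).S (M.mate D f v) ∧ (M.G D f).lab (M.mate D f v) = y / 2
      have b := cnt_inj (n := (M.L f).q) (m := (M.L f).q)
        (P := fun v => ¬(M.G D f).S (M.mate D f v) ∧ (M.G D f).lab (M.mate D f v) = y / 2)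
        (Q := fun v => ¬(M.G D f).S v ∧ (M.G D f).lab v = y / 2) (M.mate D f)
        (fun v hv h => ⟨(iv v hv).1, h⟩) fun v hv w hw _ _ e => iv.pm.2 v hv w hw e
      refine le_trans (cnt_mono fun v _ h => ?_) (a.trans (by omega))
      unfold Mp.l2 at h
      split_ifs at h with c e
      · omega
      · exact Or.inr ⟨e, by omega⟩
      · exact Or.inl ⟨c, by omega⟩
    · have a := cnt_or (M.L f).q (fun v => v = y / 2) fun v => v = M.mate D f (y / 2)
      have b := cnt_one (M.L f).q (y / 2)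
      have c := cnt_one (M.L f).q (M.mate D f (y / 2))
      have e : 1 ≤ D ^ 2 := Nat.one_le_pow _ _ hD
      refine le_trans (cnt_mono fun v hv h => ?_) (a.trans (by omega))
      unfold Mp.l2 at h
      split_ifs at h
      · rcases le_total v (M.mate D f v) with k | k
        · rw [min_eq_left k] at h
          exact Or.inl (by omega)
        · rw [min_eq_right k] at h
          have : y / 2 = M.mate D f v := by omega
          rw [this, (iv v hv).2]
          exact Or.inr rfl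
      · omega
      · omega

end Pool.Agent.MP_1a6d78_lc.PR

end MrgPart12

-- ======== part 13: formerly Pool.Agent.MP_1a6d78_lc.PR.GSet
section MrgPart13

/-! PROJECT PR, row GSET: the map with the parent darts of a forest. -/

namespace Pool.Agent.MP_1a6d78_lc.PR

open Classical ED

namespace GSet

variable {M : Mp} {f : Fo}

theorem pd_of (hM : M.Ok) (hf : f.Ok M.n M.arc) {v : ℕ} (h : f.live v ∧ f.par v ≠ v) :
    (M.F f).pd v < M.n ∧ M.nd ((M.F f).pd v) = v ∧ M.nd (M.β ((M.F f).pd v)) = f.par v := by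
  obtain ⟨e, h1, -, h2, h3⟩ := (hf.par v h.1 h.2).1
  simp only [Mp.F, if_pos h]
  exact lst_spec ⟨M.β e, (hM.iv e h1).1, h3, by rw [(hM.iv e h1).2, h2]⟩

theorem of_pd {v : ℕ} (h : (M.F f).pd v < M.n) : f.live v ∧ f.par v ≠ v := by
  by_contra k
  simp only [Mp.F, if_neg k] at h
  exact lt_irrefl _ h

theorem child (hM : M.Ok) (hf : f.Ok M.n M.arc) {d : ℕ} (hd : d < M.n)
    (h : (M.F f).pd (M.nd d) = d) :
    f.live (M.nd d) ∧ f.par (M.nd d) = M.nd (M.β d) ∧ (M.F f).β d = M.β d := by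
  have k := of_pd (h.symm ▸ hd : (M.F f).pd (M.nd d) < M.n)
  have e := (pd_of hM hf k).2.2
  rw [h] at e
  exact ⟨k.1, e.symm, if_pos ⟨k.1, e ▸ (hf.par _ k.1 k.2).2.1⟩⟩

theorem fok (hM : M.Ok) (hf : f.Ok M.n M.arc) : (M.F f).Ok where
  pm := hM.pm
  iv d hd := by
    by_cases h : f.live (M.nd d) ∧ f.live (M.nd (M.β d))
    · simp only [Mp.F, h, (hM.iv d hd).2, and_self, if_true, and_true]
      exact (hM.iv d hd).1
    · simp only [Mp.F, if_neg h, and_true]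
      exact hd
  pl := hM.pl.sub fun d _ => by
    by_cases h : f.live (M.nd d) ∧ f.live (M.nd (M.β d))
    exacts [Or.inr (if_pos h), Or.inl (if_neg h)]
  nd _ ha _ hb := Mp.nd_iff hM.pm ha hb
  pd _ _ h := (pd_of hM hf (of_pd h)).2.1
  par d hd h := by
    obtain ⟨h1, h2, h3⟩ := child hM hf hd h
    have k := (of_pd (h.symm ▸ hd : (M.F f).pd (M.nd d) < M.n)).2
    rw [h3]
    exact ⟨fun e => k (h2.trans (congrArg M.nd e)), show f.ht (M.nd _) < _ from h2 ▸ (hf.par _ h1 k).2.2⟩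

/-- Every dart is joined to a root by the forest. -/
theorem root {F : Fm} (h : F.Ok) (m : F.MsfK) (d : ℕ) (hd : d < F.n) :
    ∃ e < F.n, Conn F.n F.ρ F.tau d e ∧ F.n ≤ F.pd (F.nd e) := by
  induction hk : F.ht (F.nd d) using Nat.strong_induction_on generalizing d with
  | _ k ih =>
    rcases le_or_gt F.n (F.pd (F.nd d)) with a | a
    · exact ⟨d, hd, Conn.refl _ _ _ _, a⟩
    have b := h.pd d hd a
    have c : F.pd (F.nd (F.pd (F.nd d))) = F.pd (F.nd d) := by rw [b]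
    obtain ⟨e, h1, h2, h3⟩ := ih _ ((h.par _ a c).2.trans_eq (by rw [b, hk])) _ (h.iv _ a).1 rfl
    refine ⟨e, h1, (Sc.conn' _ h.pm hd ((h.nd _ hd _ a).1 b.symm)).trans (Conn.trans ?_ h2), h3⟩
    rw [← m.phi _ a (Or.inl c)]
    exact Conn.gam _ _ a

theorem roots {N s : ℕ} {arc : ℕ → ℕ → Prop} {V : ℕ → Prop} (hf : f.Ok N arc) (hr : f.Rt s V) :
    cnt N (fun e => f.live e ∧ f.par e = e) ≤ cnt N f.mk' := by
  choose! x hx t ht using hr.rt
  have key : ∀ a b, f.live a ∧ f.par a = a → f.live b ∧ f.par b = b → x a = x b → t a ≤ t b →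
      a = b := fun a b ha hb e k => by
    rw [← ht b hb.1 hb.2, ← Nat.sub_add_cancel k, Function.iterate_add_apply, ← e,
      ht a ha.1 ha.2, Function.iterate_fixed ha.2]
  refine cnt_inj x (fun a _ ha => ⟨hf.lt _ (hf.mk' _ (hx a ha.1 ha.2)), hx a ha.1 ha.2⟩)
    fun a _ b _ ha hb e => ?_
  rcases le_total (t a) (t b) with k | k
  exacts [key a b ha hb e k, (key b a hb ha e.symm k).symm]

end GSet

open GSet in
theorem gSetS : MsfS → MsfC → ContS → GSetS := by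
  intro hS hC hT M f hM hf
  have ok := fok hM hf.1
  have m := hS _ ok
  refine ⟨ok, m, hT _ _ _ _ _ ok.pm ok.iv ok.pl m.iv m.sb
    (fun d hd => (m.span d hd).mono fun e _ => ?_) m.br (root ok m), ?_,
    fun d hd => child hM hf.1 hd⟩
  · split_ifs
    exacts [Or.inr rfl, Or.inl rfl]
  refine (hC _ (fun d => f.live (M.nd d)) (fun e => f.live e ∧ f.par e = e) ok m
    (fun d hd => ?_) (fun d _ h => if_neg fun k => h k.1) fun d hd h k => ?_).trans
    (Nat.mul_le_mul_left 2 (roots hf.1 hf.2))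
  · rw [(Mp.nd_iff hM.pm hd (hM.pm.1 d hd)).2 (Sc.step hM.pm.1 hd)]
    exact Iff.rfl
  · refine ⟨M.nd d, (Mp.nd_spec hd).1, ⟨h, ?_⟩, Mp.nd_nd hM.pm hd⟩
    by_contra e
    exact absurd (pd_of hM hf.1 ⟨h, e⟩).1 (not_lt.2 k)

end Pool.Agent.MP_1a6d78_lc.PR

end MrgPart13

-- ======== part 14: formerly Pool.Agent.MP_1a6d78_lc.PR.Gen
section MrgPart14

/-! PROJECT PR, row GEN: the genus never drops when an edge is added. -/

namespace Pool.Agent.MP_1a6d78_lc.PR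

open Classical ED

namespace GEN

theorem sw_sw (a b d : ℕ) : sw a b (sw a b d) = d := by
  unfold sw
  split_ifs <;> simp_all

theorem sc_congr {n : ℕ} {f g : ℕ → ℕ} (hf : ∀ a < n, f a < n) (e : ∀ a < n, f a = g a) :
    ∀ x < n, ∀ y < n, Sc n f x y ↔ Sc n g x y := fun _ hx _ _ =>
  ⟨Sc.congr hf e hx, Sc.congr (fun a k => e a k ▸ hf a k) (fun a k => (e a k).symm) hx⟩

theorem congr (N : NclK) {n : ℕ} {ρ γ γ' : ℕ → ℕ} (hρ : Pm n ρ) (hγ : Iv n γ)
    (e : ∀ d < n, γ d = γ' d) : gen n ρ γ = gen n ρ γ' := by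
  have h1 : ncl n (fun _ => True) (Conn n ρ γ) = ncl n (fun _ => True) (Conn n ρ γ') :=
    N.congr fun x _ y _ =>
      ⟨Conn.mono fun d hd => Or.inr (e d hd), Conn.mono fun d hd => Or.inr (e d hd).symm⟩
  have h2 : ncl n (fun _ => True) (Sc n γ) = ncl n (fun _ => True) (Sc n γ') :=
    N.congr (sc_congr hγ.pm.1 e)
  have h3 : ncl n (fun _ => True) (Sc n fun d => ρ (γ d)) =
      ncl n (fun _ => True) (Sc n fun d => ρ (γ' d)) :=
    N.congr (sc_congr (hρ.comp hγ.pm).1 fun d hd => by rw [e d hd])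
  unfold gen
  rw [h1, h2, h3]

theorem fix {n a b : ℕ} {γ : ℕ → ℕ} (hγ : ∀ a < n, γ a < n) (ha : a < n) (ea : γ a = a)
    (h : Sc n γ a b) : b = a :=
  Sc.ind hγ (Q := fun d => d = a) ha rfl (fun d _ k => by rw [k, ea]) h

theorem zero (N : NclK) {n : ℕ} {ρ : ℕ → ℕ} (hρ : Pm n ρ) : gen n ρ id = 0 := by
  have h1 : ncl n (fun _ => True) (Conn n ρ id) = ncl n (fun _ => True) (Sc n ρ) := by
    refine N.congr fun x hx y _ => ⟨fun h => ?_, Sc.conn' id hρ hx⟩
    have k := Conn.ind (r := fun a b => a = b ∨ (a < n ∧ b < n ∧ Sc n ρ a b))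
      ⟨fun _ => Or.inl rfl, ?_, ?_⟩ (fun a ha => Or.inr ⟨ha, hρ.1 a ha, Sc.step hρ.1 ha⟩)
      (fun _ _ => Or.inl rfl) h
    · rcases k with rfl | k
      · exact Sc.refl ρ hx
      · exact k.2.2
    · rintro a b (rfl | ⟨k1, k2, k3⟩)
      · exact Or.inl rfl
      · exact Or.inr ⟨k2, k1, k3.symm hρ k1⟩
    · rintro a b c (rfl | ⟨k1, k2, k3⟩) (rfl | ⟨k4, k5, k6⟩)
      · exact Or.inl rfl
      · exact Or.inr ⟨k4, k5, k6⟩
      · exact Or.inr ⟨k1, k2, k3⟩
      · exact Or.inr ⟨k1, k5, k3.trans hρ.1 k1 k6⟩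
  have h2 : ncl n (fun _ => True) (Sc n id) = n := by
    have : ncl n (fun _ => True) (Sc n id) = cnt n fun _ => True :=
      cnt_congr fun a ha => ⟨fun _ => trivial, fun _ => ⟨trivial, fun e _ h =>
        (fix (γ := id) (fun _ k => k) ha rfl h).ge⟩⟩
    rw [this]
    simp [cnt]
  have h3 : ncl n (fun _ => True) (Sc n fun d => ρ (id d)) = ncl n (fun _ => True) (Sc n ρ) := rfl
  unfold gen
  rw [h1, h2, h3]
  ring

/-- Adding one edge. -/
theorem one (S : SwapK) (N : NclK) {n a b : ℕ} {ρ γ : ℕ → ℕ} (hρ : Pm n ρ) (hγ : Iv n γ)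
    (ha : a < n) (hb : b < n) (hab : a ≠ b) (ea : γ a = a) (eb : γ b = b) :
    (Sc n (fun d => ρ (γ d)) a b ∨ ¬Conn n ρ γ a b →
      gen n ρ (fun d => γ (sw a b d)) = gen n ρ γ) ∧
    (¬Sc n (fun d => ρ (γ d)) a b → Conn n ρ γ a b →
      gen n ρ (fun d => γ (sw a b d)) = gen n ρ γ + 2) := by
  have mg : ∀ {f : ℕ → ℕ}, Pm n f → ¬Sc n f a b →
      ncl n (fun _ => True) (Sc n fun d => f (sw a b d)) + 1 = ncl n (fun _ => True) (Sc n f) :=
    fun hf h => N.merge hf.eqv ha hb trivial trivial h (fun _ _ _ _ _ _ => trivial)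
      (S.merge hf ha hb h)
  have hf : Pm n fun d => ρ (γ d) := hρ.comp hγ.pm
  have hE := mg hγ.pm fun h => hab (fix hγ.pm.1 ha ea h).symm
  have hF1 : ¬Sc n (fun d => ρ (γ d)) a b →
      ncl n (fun _ => True) (Sc n fun d => ρ (γ (sw a b d))) + 1 =
        ncl n (fun _ => True) (Sc n fun d => ρ (γ d)) := fun h => mg hf h
  have hF2 : Sc n (fun d => ρ (γ d)) a b →
      ncl n (fun _ => True) (Sc n fun d => ρ (γ d)) + 1 =
        ncl n (fun _ => True) (Sc n fun d => ρ (γ (sw a b d))) := fun h => by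
    have k := mg (f := fun d => ρ (γ (sw a b d))) (S.pm hf ha hb) (S.split hf ha hb hab h)
    simpa only [sw_sw] using k
  have hC1 : ¬Conn n ρ γ a b →
      ncl n (fun _ => True) (Conn n ρ fun d => γ (sw a b d)) + 1 =
        ncl n (fun _ => True) (Conn n ρ γ) := fun h =>
    N.merge (Conn.eqv n ρ γ) ha hb trivial trivial h (fun _ _ _ _ _ _ => trivial)
      (N.add hρ hγ ha hb ea eb)
  have hC2 : Conn n ρ γ a b →
      ncl n (fun _ => True) (Conn n ρ fun d => γ (sw a b d)) =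
        ncl n (fun _ => True) (Conn n ρ γ) := fun h =>
    N.congr fun x hx y hy => (N.add hρ hγ ha hb ea eb x hx y hy).trans
      ⟨fun k => k.elim id fun k => k.elim (fun k => k.1.trans (h.trans k.2))
        fun k => k.1.trans (h.symm.trans k.2), Or.inl⟩
  unfold gen
  beta_reduce
  refine ⟨fun h => ?_, fun h h' => ?_⟩
  · by_cases k : Sc n (fun d => ρ (γ d)) a b
    · have k1 := hF2 k
      have k2 := hC2 (k.conn hρ hγ ha)
      omega
    · have k1 := hF1 k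
      have k2 := hC1 (h.resolve_left k)
      omega
  · have k1 := hF1 h
    have k2 := hC2 h'
    omega

theorem one_le (S : SwapK) (N : NclK) {n a b : ℕ} {ρ γ : ℕ → ℕ} (hρ : Pm n ρ) (hγ : Iv n γ)
    (ha : a < n) (hb : b < n) (hab : a ≠ b) (ea : γ a = a) (eb : γ b = b) :
    gen n ρ γ ≤ gen n ρ (fun d => γ (sw a b d)) := by
  obtain ⟨h1, h2⟩ := one S N hρ hγ ha hb hab ea eb
  by_cases k : Sc n (fun d => ρ (γ d)) a b ∨ ¬Conn n ρ γ a b
  · exact (h1 k).ge
  · have := h2 (fun e => k (Or.inl e)) (by_contra fun e => k (Or.inr e))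
    omega

/-- The partner of a fixed point in a larger involution is a fixed point. -/
theorem fix_partner {n a : ℕ} {γ β : ℕ → ℕ} (hγ : Iv n γ) (hβ : Iv n β) (hs : Sb n γ β)
    (ha : a < n) (ea : γ a = a) : γ (β a) = β a := by
  rcases hs _ (hβ a ha).1 with e | e
  · exact e
  · rw [(hβ a ha).2] at e
    have k := (hγ _ (hβ a ha).1).2
    rw [e, ea] at k
    rw [e]
    exact k

theorem add_sb {n a : ℕ} {γ β : ℕ → ℕ} (hγ : Iv n γ) (hβ : Iv n β) (hs : Sb n γ β)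
    (ha : a < n) (ea : γ a = a) : Sb n (fun d => γ (sw a (β a) d)) β := by
  intro d hd
  by_cases h1 : d = a
  · subst h1
    exact Or.inr (by simp [sw, fix_partner hγ hβ hs hd ea])
  by_cases h2 : d = β a
  · subst h2
    exact Or.inr (by simp [sw, h1, ea, (hβ a ha).2])
  simpa [sw, h1, h2] using hs d hd

theorem mono (S : SwapK) (N : NclK) {n : ℕ} {ρ β : ℕ → ℕ} (hρ : Pm n ρ) (hβ : Iv n β) :
    ∀ (m : ℕ) (γ : ℕ → ℕ), cnt n (fun d => γ d ≠ β d) = m → Iv n γ → Sb n γ β →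
      gen n ρ γ ≤ gen n ρ β := by
  intro m
  induction m using Nat.strong_induction_on with
  | _ m ih =>
    intro γ hm hγ hs
    by_cases h : ∀ d < n, γ d = β d
    · exact (congr N hρ hγ h).le
    simp only [not_forall] at h
    obtain ⟨a, ha, h⟩ := h
    have ea : γ a = a := (hs a ha).resolve_right h
    have eb := fix_partner hγ hβ hs ha ea
    have hab : a ≠ β a := fun e => h (ea.trans e)
    refine (one_le S N hρ hγ ha (hβ a ha).1 hab ea eb).trans
      (ih _ ?_ _ rfl (hγ.add ha (hβ a ha).1 ea eb) (add_sb hγ hβ hs ha ea))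
    rw [← hm]
    refine cnt_lt (a := a) (fun d _ k e => k ?_) ha h (by simp [sw, eb])
    by_cases h1 : d = a
    · exact absurd (h1 ▸ e) h
    by_cases h2 : d = β a
    · subst h2
      simp [sw, h1, ea, (hβ a ha).2]
    simpa [sw, h1, h2] using e

end GEN

theorem genK : SwapK → NclK → GenK := fun S N =>
  { congr := fun hρ hγ e => GEN.congr N hρ hγ e
    zero := fun hρ => GEN.zero N hρ
    good := fun hρ hγ ha hb hab ea eb h => (GEN.one S N hρ hγ ha hb hab ea eb).1 h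
    pl := fun {n ρ β} hρ hβ h0 γ hγ hs a ha ea hc => by
      by_cases hab : a = β a
      · rw [← hab]; exact Sc.refl _ ha
      by_contra k
      have eb := GEN.fix_partner hγ hβ hs ha ea
      have h1 := (GEN.one S N hρ hγ ha (hβ a ha).1 hab ea eb).2 k hc
      have h2 := GEN.mono S N hρ hβ _ _ rfl (hγ.add ha (hβ a ha).1 ea eb)
        (GEN.add_sb hγ hβ hs ha ea)
      have h3 := GEN.mono S N hρ hγ _ id rfl (fun d hd => ⟨hd, rfl⟩) fun _ _ => Or.inl rfl
      have h4 := GEN.zero N hρ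
      omega }

end Pool.Agent.MP_1a6d78_lc.PR

end MrgPart14

-- ======== part 15: formerly Pool.Agent.MP_1a6d78_lc.PR.Hash
section MrgPart15

/-! PROJECT PR: a pairwise independent hash hits every large set. -/

namespace Pool.Agent.MP_1a6d78_lc.PR

open Classical Finset

namespace Hash

variable {F : Type} [Field F] [Fintype F] (e : F → ℤ)

theorem one (u : F) : ∑ p : F × F, e (p.1 * u + p.2) = Fintype.card F * ∑ r, e r := by
  have k : ∀ a : F, ∑ b, e (a * u + b) = ∑ r, e r := fun a =>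
    Equiv.sum_comp (Equiv.addLeft (a * u)) e
  rw [Fintype.sum_prod_type]
  simp [k]

theorem two {u v : F} (h : u ≠ v) :
    ∑ p : F × F, e (p.1 * u + p.2) * e (p.1 * v + p.2) = (∑ r, e r) ^ 2 := by
  have bij : Function.Bijective fun p : F × F => (p.1 * u + p.2, p.1 * v + p.2) := by
    refine Finite.injective_iff_bijective.1 fun p q k => ?_
    obtain ⟨k1, k2⟩ := Prod.mk.inj k
    have a : p.1 = q.1 := mul_right_cancel₀ (sub_ne_zero.2 h) (by linear_combination k1 - k2)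
    exact Prod.ext a (by rw [a] at k1; exact add_left_cancel k1)
  rw [bij.sum_comp fun p : F × F => e p.1 * e p.2, Fintype.sum_prod_type, sq, sum_mul_sum]

theorem miss (h0 : ∀ r, 0 ≤ e r) (h1 : ∀ r, e r * e r = e r) (S : Finset ℕ) (c : ℕ → F)
    (hc : Set.InjOn c S) (hp : 0 < (S.card : ℤ) * ∑ r, e r) :
    (∑ p : F × F, if ∑ u ∈ S, e (p.1 * c u + p.2) = 0 then 1 else 0 : ℤ) *
      (S.card * ∑ r, e r) ≤ (Fintype.card F : ℤ) ^ 3 := by
  have s1 : ∑ p : F × F, ∑ u ∈ S, e (p.1 * c u + p.2) =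
      S.card * (Fintype.card F * ∑ r, e r) := by
    rw [sum_comm, sum_congr rfl fun u _ => one e (c u), sum_const, nsmul_eq_mul]
  have s2 : ∑ p : F × F, (∑ u ∈ S, e (p.1 * c u + p.2)) ^ 2 =
      S.card * (Fintype.card F * ∑ r, e r + (S.card - 1) * (∑ r, e r) ^ 2) := by
    simp only [sq (∑ u ∈ S, _), sum_mul_sum]
    rw [sum_comm, ← nsmul_eq_mul, ← sum_const]
    refine sum_congr rfl fun u hu => ?_
    rw [sum_comm, ← add_sum_erase _ _ hu, sum_congr rfl fun p _ => h1 _, one,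
      sum_congr rfl fun v hv => two e fun k => (mem_erase.1 hv).1
        (hc hu (mem_of_mem_erase hv) k).symm, sum_const, nsmul_eq_mul, ← card_erase_add_one hu]
    push_cast
    ring
  have z0 : 0 ≤ ∑ r, e r := sum_nonneg fun r _ => h0 r
  have cF : ∑ _p : F × F, (1 : ℤ) = (Fintype.card F : ℤ) ^ 2 := by simp [sq]
  generalize ∑ r, e r = z at *
  generalize (Fintype.card F : ℤ) = Q at *
  have b0 : (0 : ℤ) ≤ S.card := Int.natCast_nonneg _
  generalize (S.card : ℤ) = β at *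
  refine le_of_mul_le_mul_right ?_ hp
  have s3 : ∑ p : F × F, (Q * ∑ u ∈ S, e (p.1 * c u + p.2) - β * z) ^ 2 =
      Q ^ 2 * ∑ p : F × F, (∑ u ∈ S, e (p.1 * c u + p.2)) ^ 2 -
        2 * Q * β * z * ∑ p : F × F, ∑ u ∈ S, e (p.1 * c u + p.2) +
        (β * z) ^ 2 * ∑ _p : F × F, (1 : ℤ) := by
    rw [mul_sum univ, mul_sum univ, mul_sum univ, ← sum_sub_distrib, ← sum_add_distrib]
    exact sum_congr rfl fun p _ => by ring
  rw [s1, s2, cF] at s3
  have s4 : (∑ p : F × F, if ∑ u ∈ S, e (p.1 * c u + p.2) = 0 then 1 else 0 : ℤ) * (β * z) ^ 2 ≤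
      ∑ p : F × F, (Q * ∑ u ∈ S, e (p.1 * c u + p.2) - β * z) ^ 2 := by
    rw [sum_mul]
    refine sum_le_sum fun p _ => ?_
    split_ifs with k
    · rw [k]; exact le_of_eq (by ring)
    · rw [zero_mul]; exact sq_nonneg _
  rw [s3] at s4
  nlinarith [mul_nonneg (mul_nonneg (sq_nonneg Q) b0) (sq_nonneg z)]

theorem seed {M Q a b : ℕ} (ha : a < M) (hb : b < M) :
    ((Q * M + a) * M + b) / M % M = a ∧ ((Q * M + a) * M + b) % M = b ∧
      ((Q * M + a) * M + b) / M / M = Q := by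
  have hM : 0 < M := by omega
  have e : ((Q * M + a) * M + b) / M = Q * M + a := by
    rw [mul_comm, Nat.mul_add_div hM, Nat.div_eq_of_lt hb, add_zero]
  rw [e]
  refine ⟨?_, ?_, ?_⟩
  · rw [mul_comm, Nat.mul_add_mod, Nat.mod_eq_of_lt ha]
  · rw [mul_comm, Nat.mul_add_mod, Nat.mod_eq_of_lt hb]
  · rw [mul_comm, Nat.mul_add_div hM, Nat.div_eq_of_lt ha, add_zero]

theorem size {Q P : ℕ} [NeZero Q] (hP : 1 ≤ P) :
    Q ≤ (univ.filter fun r : ZMod Q => r.val ≤ Q / P).card * P ∧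
      (univ.filter fun r : ZMod Q => r.val ≤ Q / P).card * P ≤ Q + P := by
  have e : (univ.filter fun r : ZMod Q => r.val ≤ Q / P).card = min Q (Q / P + 1) := by
    rw [← card_range (min _ _)]
    refine card_nbij' ZMod.val (fun i => (i : ZMod Q)) (fun r hr => ?_) (fun i hi => ?_)
      (fun r _ => ZMod.natCast_zmod_val r) fun i hi => ?_
    · have := ZMod.val_lt r
      simp only [coe_filter, mem_univ, true_and, Set.mem_ofPred_eq, coe_range, Set.mem_Iio] at hr ⊢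
      omega
    · simp only [coe_filter, mem_univ, true_and, Set.mem_ofPred_eq, coe_range, Set.mem_Iio] at hi ⊢
      rw [ZMod.val_cast_of_lt (by omega)]
      omega
    · simp only [coe_range, Set.mem_Iio] at hi
      exact ZMod.val_cast_of_lt (by omega)
  have h1 := Nat.div_mul_le_self Q P
  have h2 := Nat.lt_div_mul_add (a := Q) hP
  have h3 : min Q (Q / P + 1) * P ≤ (Q / P + 1) * P := Nat.mul_le_mul_right _ (min_le_right _ _)
  rw [add_mul, one_mul] at h3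
  rw [e]
  refine ⟨?_, by omega⟩
  rcases min_choice Q (Q / P + 1) with h | h <;> rw [h]
  · exact Nat.le_mul_of_pos_right _ hP
  · rw [add_mul, one_mul]; omega

end Hash

open Hash

theorem hashS : HashS := by
  intro q P B hP hB
  rcases Nat.eq_zero_or_pos q with rfl | hq
  · exact ⟨0, by simp, by simp [cnt]⟩
  obtain ⟨Q, hQ, q1, q2⟩ := Nat.exists_prime_lt_and_le_two_mul q hq.ne'
  have := Fact.mk hQ
  obtain ⟨e, he⟩ : ∃ e : ZMod Q → ℤ, e = fun r => if r.val ≤ Q / P then 1 else 0 := ⟨_, rfl⟩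
  have h0 : ∀ r, 0 ≤ e r := fun r => by rw [he]; simp only; split_ifs <;> simp
  have h1 : ∀ r, e r * e r = e r := fun r => by rw [he]; simp only; split_ifs <;> simp
  obtain ⟨z1, z2⟩ := size (Q := Q) hP
  have ez : ∑ r, e r = ((univ.filter fun r : ZMod Q => r.val ≤ Q / P).card : ℤ) := by
    rw [he, card_filter]; push_cast; rfl
  have z3 : (Q : ℤ) ≤ (∑ r, e r) * P := by rw [ez]; exact_mod_cast z1
  have z4 : (∑ r, e r) * P ≤ (Q : ℤ) + P := by rw [ez]; exact_mod_cast z2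
  have Q0 : (0 : ℤ) < Q := by exact_mod_cast hQ.pos
  have P0 : (0 : ℤ) < P := by exact_mod_cast hP
  have qQ : (q : ℤ) ≤ Q := by exact_mod_cast q1.le
  have z0 : 0 < ∑ r, e r := pos_of_mul_pos_left (Q0.trans_le z3) P0.le
  have row : ∀ v ∈ range q, ∑ p : ZMod Q × ZMod Q, (P : ℤ) * (e (p.1 * v + p.2) +
      if ∑ u ∈ (range q).filter (B v), e (p.1 * u + p.2) = 0 then 1 else 0) ≤
        2 * Q ^ 2 + Q * P := fun v hv => by
    have b : (P : ℤ) * P ≤ ((range q).filter (B v)).card := by exact_mod_cast hB v (mem_range.1 hv)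
    have m := miss e h0 h1 ((range q).filter (B v)) (fun u => (u : ZMod Q)) (fun u hu w hw k => by
      have a1 := mem_range.1 (mem_filter.1 hu).1
      have a2 := mem_range.1 (mem_filter.1 hw).1
      have := congrArg ZMod.val k
      rwa [ZMod.val_cast_of_lt (by omega), ZMod.val_cast_of_lt (by omega)] at this)
      (mul_pos ((mul_pos P0 P0).trans_le b) z0)
    rw [← mul_sum, sum_add_distrib, one, ZMod.card] at *
    have n0 : (0 : ℤ) ≤ ∑ p : ZMod Q × ZMod Q,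
        if ∑ u ∈ (range q).filter (B v), e (p.1 * u + p.2) = 0 then 1 else 0 :=
      sum_nonneg fun p _ => by split_ifs <;> simp
    generalize (∑ p : ZMod Q × ZMod Q,
        if ∑ u ∈ (range q).filter (B v), e (p.1 * u + p.2) = 0 then 1 else 0 : ℤ) = N at *
    have k1 : (P : ℤ) * Q ≤ ((range q).filter (B v)).card * ∑ r, e r := by
      nlinarith [mul_le_mul_of_nonneg_right b z0.le, mul_le_mul_of_nonneg_left z3 P0.le]
    have k2 : N * P ≤ (Q : ℤ) ^ 2 := le_of_mul_le_mul_right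
      (by nlinarith [mul_le_mul_of_nonneg_left k1 n0]) Q0
    nlinarith [mul_le_mul_of_nonneg_left z4 Q0.le]
  have tot := sum_le_sum row
  rw [sum_comm, sum_const, card_range, nsmul_eq_mul] at tot
  obtain ⟨p, -, hp⟩ := exists_le_of_sum_le (s := univ) univ_nonempty
    (g := fun _ : ZMod Q × ZMod Q => (2 * q + P : ℤ)) (tot.trans (by
      rw [sum_const, card_univ, Fintype.card_prod, ZMod.card, nsmul_eq_mul]
      push_cast
      nlinarith [mul_le_mul_of_nonneg_right qQ (mul_pos Q0 P0).le]))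
  have a1 := ZMod.val_lt p.1
  have a2 := ZMod.val_lt p.2
  obtain ⟨s1, s2, s3⟩ := seed (M := 2 * q + 1) (Q := Q) (a := p.1.val) (b := p.2.val)
    (by omega) (by omega)
  have hs : ∀ u, hsh (2 * q + 1) P ((Q * (2 * q + 1) + p.1.val) * (2 * q + 1) + p.2.val) u ↔
      (p.1 * u + p.2).val ≤ Q / P := fun u => by
    rw [hsh, s1, s2, s3, ← ZMod.val_natCast]
    push_cast
    rw [ZMod.natCast_zmod_val, ZMod.natCast_zmod_val]
  refine ⟨(Q * (2 * q + 1) + p.1.val) * (2 * q + 1) + p.2.val, ?_, ?_⟩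
  · have b1 : Q * (2 * q + 1) ≤ 2 * q * (2 * q + 1) := Nat.mul_le_mul_right _ q2
    have b2 : (Q * (2 * q + 1) + p.1.val) * (2 * q + 1) ≤
        (2 * q * (2 * q + 1) + 2 * q) * (2 * q + 1) := Nat.mul_le_mul_right _ (by omega)
    have b3 : (2 * q + 1) ^ 3 = (2 * q * (2 * q + 1) + 2 * q) * (2 * q + 1) + (2 * q + 1) := by ring
    omega
  · rw [← mul_sum] at hp
    refine Int.ofNat_le.1 ?_
    rw [cnt, card_filter]
    push_cast
    refine le_trans (mul_le_mul_of_nonneg_left (sum_le_sum fun v _ => ?_) P0.le) hp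
    have := h0 (p.1 * v + p.2)
    split_ifs with k1 k2 k2
    · linarith
    · rcases k1 with k | k
      · rw [he]; simp [(hs v).1 k]
      · refine absurd (sum_eq_zero fun u hu => ?_) k2
        rw [he]
        exact if_neg fun h => k u (mem_range.1 (mem_filter.1 hu).1) (mem_filter.1 hu).2 ((hs u).2 h)
    · linarith
    · linarith

end Pool.Agent.MP_1a6d78_lc.PR

end MrgPart15

-- ======== part 16: formerly Pool.Agent.MP_1a6d78_lc.PR.Next
section MrgPart16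

/-! PROJECT PR: the next forest. -/

namespace Pool.Agent.MP_1a6d78_lc.PR

open Classical ED

theorem nextS : TmD → TmC → NextS := by
  intro hD hC N R s arc V l L X harc hst hrt hs hK
  have ok := hst.1
  have D := hD N R arc (l :: L) hst l.K
  have C := fun v => hC N R arc (l :: L) harc hst l.K v ok.klive
  have hW : 0 < Wd N (l :: L) := Nat.succ_pos _
  have hX : ∀ x, X x → l.K x := fun x k => (hK x).2 ⟨x, k, 0, rfl⟩
  have hk : ∀ v, l.K v → tm N R arc (l :: L) l.K v < Wd N (l :: L) := fun v k => by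
    rw [(D v).1.2 k]; exact hW
  have ext : ∀ u v, Cl arc l.K l.K u → arc u v → Cl arc l.K l.K v := fun u v k a => by
    by_cases h : l.K u
    · exact Cl.one h a
    · exact Cl.step k h a
  have desc : ∀ m v, tm N R arc (l :: L) l.K v = m → m < Wd N (l :: L) →
      l.fo.live v ∧ Cl arc l.K l.K v := by
    intro m
    induction m using Nat.strong_induction_on with
    | _ m ih =>
      intro v e h
      by_cases h0 : tm N R arc (l :: L) l.K v = 0
      · exact ⟨ok.klive v ((D v).1.1 h0), Cl.base ((D v).1.1 h0)⟩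
      · obtain ⟨u, a, k⟩ := (D v).2 h0 (e ▸ h)
        obtain ⟨k1, k2⟩ := ih _ (e ▸ k) u rfl (by omega)
        exact ⟨ok.fo.clo u v k1 a, ext u v k2 a⟩
  have pK : ∀ v, l.K v → (nx N R arc l L X).par v = l.fo.par v := fun v k => if_pos k
  have pN : ∀ v, ¬l.K v → tm N R arc (l :: L) l.K v < Wd N (l :: L) →
      arc ((nx N R arc l L X).par v) v ∧
        tm N R arc (l :: L) l.K ((nx N R arc l L X).par v) < tm N R arc (l :: L) l.K v := by
    intro v k h
    obtain ⟨u, a, k1⟩ := (D v).2 (fun e => k ((D v).1.1 e)) h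
    have e : (nx N R arc l L X).par v = lst N fun u => arc u v ∧
        tm N R arc (l :: L) l.K u < tm N R arc (l :: L) l.K v := (if_neg k).trans (if_pos h)
    rw [e]
    exact (lst_spec (P := fun u => arc u v ∧
      tm N R arc (l :: L) l.K u < tm N R arc (l :: L) l.K v) ⟨u, (harc u v a).1, a, k1⟩).2
  have hK1 : ∀ v, l.K v → (nx N R arc l L X).ht v = l.fo.ht v := fun v k => if_pos k
  have hN1 : ∀ v, ¬l.K v → (nx N R arc l L X).ht v = l.fo.H + tm N R arc (l :: L) l.K v :=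
    fun v k => if_neg k
  have itK : ∀ x, l.K x → ∀ t, (nx N R arc l L X).par^[t] x = l.fo.par^[t] x := by
    intro x k t
    induction t with
    | zero => rfl
    | succ t ih =>
      rw [Function.iterate_succ_apply', Function.iterate_succ_apply', ih,
        pK _ (iter_inv ok.kpar k t)]
  have last : ∀ v, l.K v → ∃ x, X x ∧ ∃ t, (nx N R arc l L X).par^[t] x = v := fun v k => by
    obtain ⟨x, k1, t, e⟩ := (hK v).1 k
    exact ⟨x, k1, t, (itK x (hX x k1) t).trans e⟩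
  refine ⟨⟨fun v h => ok.fo.lt v (desc _ v rfl h).1,
    fun u v h a => C v (ext u v (desc _ u rfl h).2 a), fun v h ne => ?_, fun v h => ?_,
    fun v h => hk v (hX v h)⟩, ⟨fun v h e => ?_, hk s (hX s hs), (pK s (hX s hs)).trans hrt.ps,
    fun v h => hrt.vx v (desc _ v rfl h).1⟩, fun v h => (desc _ v rfl h).1, last⟩
  · by_cases k : l.K v
    · rw [pK v k] at ne ⊢
      obtain ⟨a, -, b⟩ := ok.fo.par v (ok.klive v k) ne
      rw [hK1 v k, hK1 _ (ok.kpar v k)]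
      exact ⟨a, hk _ (ok.kpar v k), b⟩
    · obtain ⟨a, b⟩ := pN v k h
      refine ⟨a, b.trans h, ?_⟩
      rw [hN1 v k]
      by_cases k1 : l.K ((nx N R arc l L X).par v)
      · rw [hK1 _ k1]
        have := ok.fo.ht _ (ok.klive _ k1)
        omega
      · rw [hN1 _ k1]
        omega
  · change _ < l.fo.H + Wd N (l :: L)
    by_cases k : l.K v
    · rw [hK1 v k]
      have := ok.fo.ht _ (ok.klive _ k)
      omega
    · rw [hN1 v k]
      exact Nat.add_lt_add_left h _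
  · by_cases k : l.K v
    · exact last v k
    · have := (pN v k h).2
      rw [e] at this
      omega

end Pool.Agent.MP_1a6d78_lc.PR

end MrgPart16

-- marker of a merged file
example : 731051 + 91482 = 731051 + 91482 := rfl
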