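import Pool.Agent.MP_1a6d78_lc.PR.Basic

-- ======== part 0: formerly Pool.Agent.MP_1a6d78_lc.PR.Lev
section MrgPart0

/-! PROJECT PR, row LEV: the levels of the search and its correctness. -/

namespace Pool.Agent.MP_1a6d78_lc.PR

open Classical ED

namespace Lev

/-- The invariant of level `j`. -/
structure Inv (M : Mp) (E R j : ℕ) (f : Fo) (L : List LD) : Prop where
  fit : M.Fit f
  st : StOk M.n R M.arc L
  lt : ∀ v, f.live v → Ltop L v
  kt : ∀ v, f.live v → Ktop L v → ∃ x, f.mk' x ∧ ∃ t, f.par^[t] x = v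
  ct : E ^ j * cnt M.n f.mk' ≤ M.n + j * E ^ j * (1000 * (5000 * E) ^ 4)

theorem inv_zero {M : Mp} (hM : M.Ok) (E R : ℕ) : Inv M E R 0 M.f0 [] := by
  refine ⟨⟨⟨fun v h => h.1, fun u v _ h => ?_, fun v _ h => absurd rfl h, fun _ _ => Nat.one_pos,
    fun _ h => h⟩, fun v h _ => ⟨v, h, 0, rfl⟩, ⟨(Mp.nd_spec hM.s).1, Mp.nd_nd hM.pm hM.s⟩, rfl,
    fun _ h => h.2⟩, trivial, fun _ _ => trivial, fun v h _ => ⟨v, h, 0, rfl⟩, ?_⟩
  · obtain ⟨d, h1, _, _, rfl⟩ := h
    exact ⟨(Mp.nd_spec (hM.iv d h1).1).1, Mp.nd_nd hM.pm (hM.iv d h1).1⟩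
  · have := cnt_le M.n M.f0.mk'
    simpa using this

theorem count {E j n a b c : ℕ} (hE : 1 ≤ E) (h1 : E ^ j * a ≤ n + j * E ^ j * c)
    (h2 : 5000 * E * b ≤ 5000 * a + c * (5000 * E)) :
    E ^ (j + 1) * b ≤ n + (j + 1) * E ^ (j + 1) * c := by
  have h3 : E * b ≤ a + c * E := by
    refine Nat.le_of_mul_le_mul_left (c := 5000) ?_ (by norm_num)
    calc 5000 * (E * b) = 5000 * E * b := by ring
      _ ≤ 5000 * a + c * (5000 * E) := h2
      _ = 5000 * (a + c * E) := by ring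
  have h4 : j * E ^ j * c ≤ j * E ^ (j + 1) * c :=
    Nat.mul_le_mul_right _ (Nat.mul_le_mul_left _ (Nat.pow_le_pow_right hE (Nat.le_succ j)))
  calc E ^ (j + 1) * b = E ^ j * (E * b) := by ring
    _ ≤ E ^ j * (a + c * E) := Nat.mul_le_mul_left _ h3
    _ = E ^ j * a + E ^ (j + 1) * c := by ring
    _ ≤ n + j * E ^ (j + 1) * c + E ^ (j + 1) * c := by omega
    _ = n + (j + 1) * E ^ (j + 1) * c := by ring

theorem inv_succ (hG : GlevS) (hN : NextS) {M : Mp} (hM : M.Ok) {E R j : ℕ} (hE : 1 ≤ E)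
    (hR : 4 * (5000 * E) ^ 2 ≤ R) {f : Fo} {L : List LD} (h : Inv M E R j f L) :
    Inv M E R (j + 1) (nx M.n R M.arc (M.ld (5000 * E) f) L (M.X (5000 * E) f))
      (M.ld (5000 * E) f :: L) := by
  obtain ⟨hl, hc⟩ := hG M (5000 * E) f (by omega) hM h.fit
  have hok : (M.ld (5000 * E) f).Ok M.n R M.arc :=
    ⟨h.fit.1, hc.kpar, hc.klive, hl, fun y =>
      (cnt_mono fun _ _ k => ⟨k.1, k.2.2⟩).trans ((hc.small y).trans hR)⟩
  have hst : StOk M.n R M.arc (M.ld (5000 * E) f :: L) := ⟨hok, h.lt, h.kt, h.st⟩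
  obtain ⟨k1, k2, k3, k4⟩ := hN M.n R (M.nd M.s) M.arc (fun v => M.nd v = v) (M.ld (5000 * E) f) L
    (M.X (5000 * E) f) (Mp.arc_lt hM.iv) hst h.fit.2 (Or.inl rfl) hc.K
  refine ⟨⟨k1, k2⟩, hst, k3, fun v _ k => k4 v k, count hE h.ct ?_⟩
  have := hc.few
  calc 5000 * E * cnt M.n (M.X (5000 * E) f)
      ≤ 5000 * cnt M.n f.mk' + 1000 * (5000 * E) ^ 5 := this
    _ = 5000 * cnt M.n f.mk' + 1000 * (5000 * E) ^ 4 * (5000 * E) := by ring

theorem inv (hG : GlevS) (hN : NextS) {M : Mp} (hM : M.Ok) {E R : ℕ} (hE : 1 ≤ E)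
    (hR : 4 * (5000 * E) ^ 2 ≤ R) (j : ℕ) :
    Inv M E R j (M.lev (5000 * E) R j).1 (M.lev (5000 * E) R j).2 := by
  induction j with
  | zero => exact inv_zero hM E R
  | succ j ih => exact inv_succ hG hN hM hE hR ih

theorem last {E J n a c : ℕ} (hn : n < E ^ J) (h : E ^ J * a ≤ n + J * E ^ J * c) :
    a ≤ J * c := by
  by_contra k
  have h1 : E ^ J * (J * c + 1) ≤ E ^ J * a := Nat.mul_le_mul_left _ (by omega)
  have h2 : E ^ J * (J * c + 1) = J * E ^ J * c + E ^ J := by ring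
  omega

end Lev

theorem levS : GlevS → NextS → TmD → TmC → LevS := by
  intro hG hN hD hC M E R J hM hE hn hR
  have h24 : (5000 * E) ^ 2 ≤ (5000 * E) ^ 4 := Nat.pow_le_pow_right (by omega) (by norm_num)
  have hR' : (J + 1) * 1000 * (5000 * E) ^ 4 =
      J * (1000 * (5000 * E) ^ 4) + 1000 * (5000 * E) ^ 4 := by ring
  have h := Lev.inv (R := R) hG hN hM hE (by omega) J
  have hμ := Lev.last hn h.ct
  have hst : StOk M.n R M.arc (M.top (5000 * E) R J) := by
    refine ⟨⟨h.fit.1, fun v k => ?_, fun v k => ?_, fun _ _ _ _ _ _ => rfl, fun y => ?_⟩,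
      h.lt, h.kt, h.st⟩
    · have k' : v = M.nd M.s := k
      show (M.lev (5000 * E) R J).1.par v = M.nd M.s
      rw [k']; exact h.fit.2.ps
    · have k' : v = M.nd M.s := k
      rw [k']; exact h.fit.2.ls
    · exact (cnt_mono fun _ _ k => k.1).trans (hμ.trans (by omega))
  constructor
  · intro ha
    have key : ∀ k v, tm M.n R M.arc (M.top (5000 * E) R J) (fun v => v = M.nd M.s) v = k →
        k < Wd M.n (M.top (5000 * E) R J) → Relation.ReflTransGen M.arc (M.nd M.s) v := by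
      intro k
      induction k using Nat.strong_induction_on with
      | _ k ih =>
        intro v e hk
        obtain ⟨d1, d2⟩ := hD M.n R M.arc _ hst (fun v => v = M.nd M.s) v
        by_cases k0 : k = 0
        · have : v = M.nd M.s := d1.1 (e.trans k0)
          rw [this]
        · obtain ⟨u, u1, u2⟩ := d2 (by omega) (by omega)
          exact (ih _ (by omega) u rfl (by omega)).tail u1
    exact key _ _ rfl ha
  · intro hr
    refine hC M.n R M.arc _ (Mp.arc_lt hM.iv) hst (fun v => v = M.nd M.s) (M.nd M.t)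
      (fun u k => ?_) ?_
    · have k' : u = M.nd M.s := k
      rw [k']; exact h.fit.2.ls
    · generalize M.nd M.t = w at hr
      induction hr with
      | refl => exact Cl.base rfl
      | @tail u v _ huv ih =>
        by_cases k : u = M.nd M.s
        · exact Cl.one k huv
        · exact Cl.step ih k huv

end Pool.Agent.MP_1a6d78_lc.PR

end MrgPart0

-- ======== part 1: formerly Pool.Agent.MP_1a6d78_lc.PR.Msf
section MrgPart1

/-! PROJECT PR: the greedy spanning forest. -/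

namespace Pool.Agent.MP_1a6d78_lc.PR

open Classical ED

namespace Msf

variable {F : Fm}

theorem isF_b (h : F.Ok) {d : ℕ} (hd : d < F.n) : F.isF (F.β d) ↔ F.isF d := by
  unfold Fm.isF
  rw [(h.iv d hd).2]
  exact or_comm

theorem mx_b (h : F.Ok) {d : ℕ} (hd : d < F.n) : F.mx (F.β d) = F.mx d := by
  unfold Fm.mx
  rw [(h.iv d hd).2]
  exact max_comm _ _

theorem wt_b (h : F.Ok) {d : ℕ} (hd : d < F.n) : F.wt (F.β d) = F.wt d := by
  unfold Fm.wt
  rw [mx_b h hd, (h.iv d hd).2, min_comm]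
  simp only [isF_b h hd]

theorem wt_le {d e : ℕ} (hd : d < F.n) (k : F.wt e ≤ F.wt d) :
    (F.mx e * 2 + if F.isF e then 0 else 1) ≤ F.mx d * 2 + if F.isF d then 0 else 1 := by
  unfold Fm.wt at k
  have m : min d (F.β d) < F.n := (min_le_left _ _).trans_lt hd
  by_contra c
  have := Nat.mul_le_mul_right F.n (Nat.succ_le_of_lt (not_le.1 c))
  rw [Nat.succ_mul] at this
  omega

theorem wt_inj (h : F.Ok) {d e : ℕ} (hd : d < F.n) (he : e < F.n) (k : F.wt e = F.wt d) :
    e = d ∨ e = F.β d := by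
  have e1 := le_antisymm (wt_le hd k.le) (wt_le he k.ge)
  unfold Fm.wt at k
  rw [e1] at k
  have m : min e (F.β e) = min d (F.β d) := by omega
  have a1 := (h.iv d hd).2
  have a2 := (h.iv e he).2
  rcases min_choice e (F.β e) with b | b <;> rcases min_choice d (F.β d) with c | c <;>
    rw [b, c] at m
  · exact Or.inl m
  · exact Or.inr m
  · exact Or.inr (by rw [← m, a2])
  · exact Or.inl (by rw [← a2, m, a1])

theorem iv_cut (h : F.Ok) {γ : ℕ → ℕ} (h1 : Iv F.n γ) (h2 : Sb F.n γ F.β) (θ : ℕ) :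
    Iv F.n fun e => if F.wt e < θ then γ e else e := by
  intro d hd
  by_cases c : F.wt d < θ
  · have : F.wt (γ d) < θ := by
      rcases h2 d hd with e | e <;> rw [e]
      · exact c
      · rwa [wt_b h hd]
    simp only [if_pos c, if_pos this]
    exact h1 d hd
  · simp only [if_neg c]
    exact ⟨hd, trivial⟩

theorem iv_lt (h : F.Ok) (θ : ℕ) : Iv F.n fun e => if F.wt e < θ then F.β e else e :=
  iv_cut h h.iv (fun _ _ => Or.inr rfl) θ

theorem sb (F : Fm) : Sb F.n F.tau F.β := fun d _ => by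
  unfold Fm.tau
  split_ifs
  · exact Or.inl rfl
  · exact Or.inr rfl

theorem iv (h : F.Ok) : Iv F.n F.tau := by
  intro d hd
  by_cases c : Sc F.n (fun e => F.ρ (if F.wt e < F.wt d then F.β e else e)) d (F.β d)
  · have : F.tau d = d := if_pos c
    rw [this, this]
    exact ⟨hd, rfl⟩
  · have e : F.tau d = F.β d := if_neg c
    rw [e]
    refine ⟨(h.iv d hd).1, ?_⟩
    unfold Fm.tau
    rw [wt_b h hd, (h.iv d hd).2, if_neg]
    exact fun k => c (k.symm (h.pm.comp (iv_lt h _).pm) (h.iv d hd).1)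

/-- The ends of a chosen edge are not joined by lighter edges. -/
theorem light (h : F.Ok) {d : ℕ} (hd : d < F.n) (k : F.tau d ≠ d) :
    ¬Conn F.n F.ρ (fun e => if F.wt e < F.wt d then F.tau e else e) d (F.β d) := fun c => by
  refine k (if_pos (h.pl _ (iv_lt h _) (fun e _ => ?_) d hd (if_neg (lt_irrefl _))
    (c.mono fun e he => ?_)))
  · by_cases m : F.wt e < F.wt d
    · exact Or.inr (if_pos m)
    · exact Or.inl (if_neg m)
  · by_cases m : F.wt e < F.wt d
    · simp only [if_pos m]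
      exact sb F e he
    · exact Or.inl (if_neg m)

theorem span (h : F.Ok) (P : ℕ → Prop) [DecidablePred P] (w : ℕ) : ∀ d < F.n, F.wt d = w →
    (∀ e, F.wt e ≤ w → P e) → Conn F.n F.ρ (fun e => if P e then F.tau e else e) d (F.β d) := by
  induction w using Nat.strong_induction_on with
  | _ w ih =>
    intro d hd e hP
    by_cases c : Sc F.n (fun e => F.ρ (if F.wt e < F.wt d then F.β e else e)) d (F.β d)
    · refine (c.conn h.pm (iv_lt h _) hd).le fun a ha => ?_
      by_cases m : F.wt a < F.wt d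
      · rw [if_pos m]
        exact ih _ (e ▸ m) a ha rfl fun x hx => hP x (by omega)
      · rw [if_neg m]
        exact Conn.refl _ _ _ _
    · have := Conn.gam F.ρ (fun e => if P e then F.tau e else e) hd
      rwa [if_pos (hP d e.le), show F.tau d = F.β d from if_neg c] at this

theorem br (hN : NclK) (h : F.Ok) (θ : ℕ) : ∀ c < F.n, F.wt c < θ → F.tau c ≠ c →
    ¬Conn F.n F.ρ (del (fun e => if F.wt e < θ then F.tau e else e) c) c (F.tau c) := by
  induction θ with
  | zero => exact fun c _ k => absurd k (Nat.not_lt_zero _)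
  | succ θ ih =>
    intro c hc k1 k2 k
    have tc : F.tau c = F.β c := (sb F c hc).resolve_left k2
    rcases (Nat.le_of_lt_succ k1).eq_or_lt with e | k3
    · refine light h hc k2 (tc ▸ k.mono fun x hx => ?_)
      by_cases m : x = c ∨ x = F.tau c
      · exact Or.inl (by simp only [del, if_pos k1, if_pos m])
      · have : F.wt x ≠ F.wt c := fun q => m (tc ▸ wt_inj h hc hx q)
        simp only [del, if_pos k1, if_neg m]
        by_cases q : F.wt x < θ + 1
        · exact Or.inr (by rw [if_pos q, if_pos (by omega)])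
        · exact Or.inl (if_neg q)
    by_cases ex : ∃ a < F.n, F.wt a = θ ∧ F.tau a ≠ a
    · obtain ⟨a, ha, a1, a2⟩ := ex
      have ta : F.tau a = F.β a := (sb F a ha).resolve_left a2
      have hb := (h.iv a ha).1
      have b1 : F.wt (F.β a) = θ := by rw [wt_b h ha, a1]
      have tb : F.tau (F.β a) = a := by rw [← ta, (iv h a ha).2]
      have wc : F.wt (F.tau c) < θ := by rwa [tc, wt_b h hc]
      have i1 := iv_cut h (iv h) (sb F) θ
      have fx : ∀ x, F.wt x = θ → del (fun e => if F.wt e < θ then F.tau e else e) c x = x :=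
        fun x hx => by
          unfold del
          split_ifs
          · rfl
          · exact if_neg (by omega)
      have k' := (hN.add h.pm (i1.del hc) ha hb (fx a a1) (fx _ b1) c hc _ (iv h c hc).1).1
        (k.mono fun x hx => by
          by_cases m : x = c ∨ x = F.tau c
          · exact Or.inl (by simp only [del, if_pos k1, if_pos m])
          simp only [del, if_pos k1, if_neg m]
          by_cases q1 : x = a
          · subst q1
            refine Or.inr ?_
            have := fx _ b1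
            simp only [del] at this
            rw [if_pos (by omega), sw, if_pos rfl, this, ta]
          by_cases q2 : x = F.β a
          · subst q2
            refine Or.inr ?_
            have := fx _ a1
            simp only [del] at this
            rw [if_pos (by omega), sw, if_neg q1, if_pos rfl, this, tb]
          have : F.wt x ≠ θ := fun q => (wt_inj h ha hx (q.trans a1.symm)).elim q1 q2
          rw [sw, if_neg q1, if_neg q2, if_pos k3, if_neg m]
          by_cases q : F.wt x < θ + 1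
          · exact Or.inr (by rw [if_pos q, if_pos (by omega)])
          · exact Or.inl (if_neg q))
      have cd := Conn.gam F.ρ (fun e => if F.wt e < θ then F.tau e else e) hc
      rw [if_pos k3] at cd
      have nl := light h ha a2
      rw [a1] at nl
      rcases k' with k' | ⟨p1, p2⟩ | ⟨p1, p2⟩
      · exact ih c hc k3 k2 k'
      · exact nl ((p1.mono (del_sb _ _ _)).symm.trans (cd.trans (p2.mono (del_sb _ _ _)).symm))
      · exact nl ((p2.mono (del_sb _ _ _)).trans (cd.symm.trans (p1.mono (del_sb _ _ _))))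
    · refine ih c hc k3 k2 (k.mono fun x hx => ?_)
      by_cases m : x = c ∨ x = F.tau c
      · exact Or.inl (by simp only [del, if_pos k1, if_pos m])
      simp only [del, if_pos k1, if_pos k3, if_neg m]
      by_cases q : F.wt x < θ
      · exact Or.inr (by rw [if_pos q, if_pos (by omega)])
      by_cases q' : F.wt x < θ + 1
      · exact Or.inl (by
          rw [if_pos q']
          by_contra n
          exact ex ⟨x, hx, by omega, n⟩)
      · exact Or.inl (if_neg q')

theorem phi (h : F.Ok) {d : ℕ} (hd : d < F.n) (k : F.pd (F.nd d) = d) : F.tau d = F.β d := by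
  refine if_neg fun c => ?_
  obtain ⟨-, p⟩ := h.par d hd k
  have st : ∀ e < F.n, F.nd e = F.nd d →
      F.nd (F.ρ (if F.wt e < F.wt d then F.β e else e)) = F.nd d := fun e he q => by
    have n : ¬F.wt e < F.wt d := fun m => by
      have w := wt_le hd m.le
      rw [if_pos (show F.isF d from Or.inl k)] at w
      have a1 : F.mx d = F.ht (F.nd d) := max_eq_left p.le
      have a2 : F.ht (F.nd e) ≤ F.mx e := le_max_left _ _
      have a3 : F.ht (F.nd (F.β e)) ≤ F.mx e := le_max_right _ _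
      have a4 : F.ht (F.nd e) = F.ht (F.nd d) := by rw [q]
      by_cases i : F.isF e
      · rcases i with i | i
        · rw [q, k] at i
          rw [i] at m
          exact lt_irrefl _ m
        · have := (h.par _ (h.iv e he).1 i).2
          rw [(h.iv e he).2] at this
          omega
      · rw [if_neg i] at w
        omega
    rw [if_neg n, ← q]
    exact ((h.nd e he _ (h.pm.1 e he)).2 (Sc.step h.pm.1 he)).symm
  have := Sc.ind (h.pm.comp (iv_lt h _).pm).1 (Q := fun e => F.nd e = F.nd d) hd rfl st c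
  rw [this] at p
  exact lt_irrefl _ p

end Msf

open Msf in
theorem msfS : NclK → MsfS := fun hN F h => by
  refine ⟨iv h, sb F, fun d hd => ?_, fun d hd k c => ?_, fun d hd k => ?_⟩
  · refine span h (fun e => F.mx e ≤ F.mx d) _ d hd rfl fun e he => ?_
    have := wt_le hd he
    split_ifs at this <;> omega
  · have big : ∀ x < F.n, F.wt x < (Finset.range F.n).sup F.wt + 1 := fun x hx =>
      Nat.lt_succ_of_le (Finset.le_sup (f := F.wt) (Finset.mem_range.2 hx))
    refine br hN h _ d hd (big d hd) k (c.mono fun x hx => Or.inr ?_)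
    simp only [del, if_pos (big d hd), if_pos (big x hx)]
  · rcases k with k | k
    · exact phi h hd k
    · have := phi h (h.iv d hd).1 k
      rw [(h.iv d hd).2] at this
      rw [← (iv h _ (h.iv d hd).1).2, this]

end Pool.Agent.MP_1a6d78_lc.PR

end MrgPart1

-- ======== part 2: formerly Pool.Agent.MP_1a6d78_lc.PR.MsfC
section MrgPart2

/-! PROJECT PR: at most two connecting darts per root. -/

namespace Pool.Agent.MP_1a6d78_lc.PR

open Classical ED

namespace MsfC

variable {F : Fm} {m d : ℕ}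

/-- The forest edges and the connecting edges with least dart below `m`. -/
def P (F : Fm) (m d : ℕ) : Prop := F.isF d ∨ (F.con d ∧ min d (F.β d) < m)

/-- The involution of these edges. -/
noncomputable def ga (F : Fm) (m d : ℕ) : ℕ := if P F m d then F.β d else d

theorem isF_b (h : F.Ok) (hd : d < F.n) : F.isF (F.β d) ↔ F.isF d := by
  unfold Fm.isF
  rw [(h.iv d hd).2, or_comm]

theorem con_t (k : F.MsfK) (hd : d < F.n) (c : F.con d) : F.tau d = F.β d :=
  (k.sb d hd).resolve_left c.1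

theorem con_b (h : F.Ok) (k : F.MsfK) (hd : d < F.n) (c : F.con d) : F.con (F.β d) := by
  refine ⟨fun e => c.1 ?_, fun e => c.2 ((isF_b h hd).1 e)⟩
  have := (k.iv d hd).2
  rw [con_t k hd c] at this ⊢
  exact e.symm.trans this

theorem P_b (h : F.Ok) (k : F.MsfK) (hd : d < F.n) (p : P F m d) : P F m (F.β d) :=
  p.imp (isF_b h hd).2 fun c => ⟨con_b h k hd c.1, by rw [(h.iv d hd).2, min_comm]; exact c.2⟩

theorem iv (h : F.Ok) (k : F.MsfK) (m : ℕ) : Iv F.n (ga F m) := fun d hd => by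
  by_cases p : P F m d
  · rw [ga, if_pos p, ga, if_pos (P_b h k hd p)]; exact h.iv d hd
  · rw [ga, if_neg p, ga, if_neg p]; exact ⟨hd, rfl⟩

theorem conn_congr {n : ℕ} {ρ γ γ' : ℕ → ℕ} (e : ∀ d < n, γ d = γ' d) (a b : ℕ) :
    Conn n ρ γ a b ↔ Conn n ρ γ' a b :=
  ⟨Conn.mono fun d hd => Or.inr (e d hd), Conn.mono fun d hd => Or.inr (e d hd).symm⟩

theorem cnt_eq (n a : ℕ) : cnt n (fun d => d = a) ≤ 1 :=
  (cnt_inj (Q := fun _ => True) (fun _ => 0) (fun _ _ _ => ⟨one_pos, trivial⟩)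
    fun _ _ _ _ e e' _ => e.trans e'.symm).trans (cnt_le 1 _)

theorem ga_congr {m' : ℕ} (e : P F m d ↔ P F m' d) : ga F m d = ga F m' d := if_congr e rfl rfl

end MsfC

open MsfC in
theorem msfC : NclK → MsfC := by
  intro nk F A B h k hρ hβ hB
  have aβ : ∀ d < F.n, A d ↔ A (F.β d) := fun d hd => by
    refine ⟨fun a => by_contra fun a' => a' ?_, fun a => by_contra fun a' => a' ?_⟩
    · rwa [← hβ _ (h.iv d hd).1 a', (h.iv d hd).2]
    · rwa [hβ d hd a'] at a
  have cl : ∀ m x y, Conn F.n F.ρ (ga F m) x y → (A x ↔ A y) := fun m x y c =>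
    Conn.ind (r := fun a b => A a ↔ A b) ⟨fun _ => Iff.rfl, Iff.symm, Iff.trans⟩ hρ
      (fun a ha => by
        unfold ga
        split_ifs
        exacts [aβ a ha, Iff.rfl]) c
  have root : ∀ t, ∀ x < F.n, F.ht (F.nd x) = t → A x →
      ∃ y < F.n, Conn F.n F.ρ (ga F 0) x y ∧ B y := fun t => by
    induction t using Nat.strong_induction_on with
    | _ t ih =>
      intro x hx e a
      rcases le_or_gt F.n (F.pd (F.nd x)) with p | p
      · obtain ⟨y, hy, b, e'⟩ := hB x hx a p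
        exact ⟨y, hy, Sc.conn' _ h.pm hx ((h.nd x hx y hy).1 e'.symm), b⟩
      · have e1 := h.pd x hx p
        have e2 : F.pd (F.nd (F.pd (F.nd x))) = F.pd (F.nd x) := by rw [e1]
        have c1 : Conn F.n F.ρ (ga F 0) x (F.β (F.pd (F.nd x))) := by
          refine (Sc.conn' _ h.pm hx ((h.nd x hx _ p).1 e1.symm)).trans ?_
          have := Conn.gam F.ρ (ga F 0) p
          rwa [ga, if_pos (show P F 0 _ from Or.inl (Or.inl e2))] at this
        obtain ⟨y, hy, c, b⟩ := ih _ ((h.par _ p e2).2.trans_eq (by rw [e1, e])) _ (h.iv _ p).1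
          rfl ((cl 0 _ _ c1).1 a)
        exact ⟨y, hy, c1.trans c, b⟩
  have key : ∀ m, cnt F.n (fun d => F.con d ∧ min d (F.β d) < m) +
      2 * ncl F.n A (Conn F.n F.ρ (ga F m)) ≤ 2 * cnt F.n B := fun m => by
    induction m with
    | zero =>
      have h1 := nk.le (A := A) (B := B) (Conn.eqv F.n F.ρ (ga F 0)) fun x hx => root _ x hx rfl
      have h2 : cnt F.n (fun d => F.con d ∧ min d (F.β d) < 0) = 0 := by simp [cnt]
      omega
    | succ m ih =>
      have sp : ∀ d < F.n, F.con d → min d (F.β d) = m →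
          (m < F.n ∧ F.con m ∧ m < F.β m) ∧ (d = m ∨ d = F.β m) := fun d hd c e => by
        have h1 : F.β d ≠ d := con_t k hd c ▸ c.1
        rcases le_total d (F.β d) with l | l
        · rw [min_eq_left l] at e
          subst e
          exact ⟨⟨hd, c, by omega⟩, Or.inl rfl⟩
        · rw [min_eq_right l] at e
          subst e
          rw [(h.iv d hd).2]
          exact ⟨⟨(h.iv d hd).1, con_b h k hd c, by omega⟩, Or.inr rfl⟩
      by_cases H : m < F.n ∧ F.con m ∧ m < F.β m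
      · obtain ⟨hm, c, l⟩ := H
        have hb := h.iv m hm
        have n1 : ¬P F m m := fun p => p.elim c.2 fun p => by omega
        have n2 : ¬P F m (F.β m) := fun p => n1 (by have := P_b h k hb.1 p; rwa [hb.2] at this)
        have p1 : P F (m + 1) m := Or.inr ⟨c, by omega⟩
        have e : ∀ d < F.n, ga F (m + 1) d = ga F m (sw m (F.β m) d) := fun d hd => by
          by_cases d1 : d = m
          · rw [d1, sw, if_pos rfl, ga, ga, if_pos p1, if_neg n2]
          by_cases d2 : d = F.β m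
          · rw [sw, if_neg d1, if_pos d2, d2, ga, ga, if_pos (P_b h k hm p1), if_neg n1, hb.2]
          rw [sw, if_neg d1, if_neg d2]
          refine ga_congr (or_congr_right (and_congr_right fun c' => ⟨fun l' => ?_, by omega⟩))
          by_contra l2
          exact (sp d hd c' (by omega)).2.elim d1 d2
        have nc : ¬Conn F.n F.ρ (ga F m) m (F.β m) := fun c' => by
          refine k.br m hm c.1 ?_
          rw [con_t k hm c]
          refine c'.mono fun d hd => ?_
          by_cases p : P F m d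
          · right
            rw [ga, if_pos p, del, if_neg]
            · exact (p.elim (k.phi d hd) fun p => con_t k hd p.1).symm
            · rw [con_t k hm c]
              rintro (rfl | rfl)
              exacts [n1 p, n2 p]
          · left
            rw [ga, if_neg p]
        have a1 : A m := by_contra fun a => by have := hβ m hm a; omega
        have h1 := nk.merge (A := A) (r' := Conn F.n F.ρ (ga F (m + 1))) (Conn.eqv F.n F.ρ (ga F m))
          hm hb.1 a1 ((aβ m hm).1 a1) nc (fun x _ y _ c' => (cl m x y c').1) fun x hx y hy =>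
            (conn_congr e x y).trans (nk.add h.pm (iv h k m) hm hb.1 (by rw [ga, if_neg n1])
              (by rw [ga, if_neg n2]) x hx y hy)
        have h2 : cnt F.n (fun d => F.con d ∧ min d (F.β d) < m + 1) ≤
            cnt F.n fun d => (F.con d ∧ min d (F.β d) < m) ∨ d = m ∨ d = F.β m :=
          cnt_mono fun d hd c' => by
            by_cases l2 : min d (F.β d) < m
            · exact Or.inl ⟨c'.1, l2⟩
            · exact Or.inr (sp d hd c'.1 (by omega)).2
        have h3 := cnt_or F.n (fun d => F.con d ∧ min d (F.β d) < m) fun d => d = m ∨ d = F.β m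
        have h4 := cnt_or F.n (fun d => d = m) fun d => d = F.β m
        have h5 := cnt_eq F.n m
        have h6 := cnt_eq F.n (F.β m)
        omega
      · have e : ∀ d < F.n, F.con d ∧ min d (F.β d) < m + 1 ↔ F.con d ∧ min d (F.β d) < m :=
          fun d hd => and_congr_right fun c => ⟨fun l => by_contra fun l2 =>
            H (sp d hd c (by omega)).1, by omega⟩
        have h1 := nk.congr (n := F.n) (A := A) (r := Conn F.n F.ρ (ga F (m + 1)))
          (r' := Conn F.n F.ρ (ga F m)) fun x _ y _ =>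
          conn_congr (fun d hd => ga_congr (or_congr_right (e d hd))) x y
        rw [cnt_congr e, h1]
        exact ih
  have h1 := key F.n
  have h2 : cnt F.n F.con ≤ cnt F.n fun d => F.con d ∧ min d (F.β d) < F.n :=
    cnt_mono fun d hd c => ⟨c, by omega⟩
  omega

end Pool.Agent.MP_1a6d78_lc.PR

end MrgPart2

-- ======== part 3: formerly Pool.Agent.MP_1a6d78_lc.PR.Ncl
section MrgPart3

/-! PROJECT PR, row NCL: counting classes. -/

namespace Pool.Agent.MP_1a6d78_lc.PR

open Classical ED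

namespace Ncl

theorem mg_comm {r : ℕ → ℕ → Prop} {a b x y : ℕ} : Mg r a b x y ↔ Mg r b a x y :=
  or_congr_right or_comm

theorem mg_eqv {r : ℕ → ℕ → Prop} (h : Equivalence r) (a b : ℕ) : Equivalence (Mg r a b) := by
  refine ⟨fun x => Or.inl (h.refl x), ?_, ?_⟩
  · rintro x y (k | ⟨k, l⟩ | ⟨k, l⟩)
    · exact Or.inl (h.symm k)
    · exact Or.inr (Or.inr ⟨h.symm l, h.symm k⟩)
    · exact Or.inr (Or.inl ⟨h.symm l, h.symm k⟩)
  · rintro x y z (k | ⟨k, l⟩ | ⟨k, l⟩) (k' | ⟨k', l'⟩ | ⟨k', l'⟩)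
    · exact Or.inl (h.trans k k')
    · exact Or.inr (Or.inl ⟨h.trans k k', l'⟩)
    · exact Or.inr (Or.inr ⟨h.trans k k', l'⟩)
    · exact Or.inr (Or.inl ⟨k, h.trans l k'⟩)
    · exact Or.inr (Or.inl ⟨k, l'⟩)
    · exact Or.inl (h.trans k l')
    · exact Or.inr (Or.inr ⟨k, h.trans l k'⟩)
    · exact Or.inl (h.trans k l')
    · exact Or.inr (Or.inr ⟨k, l'⟩)

theorem cnt_erase {n m : ℕ} {P Q : ℕ → Prop} (hm : m < n) (hP : P m)
    (h : ∀ d < n, Q d ↔ d ≠ m ∧ P d) : cnt n Q + 1 = cnt n P := by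
  unfold cnt
  rw [← Finset.card_erase_add_one (Finset.mem_filter.2 ⟨Finset.mem_range.2 hm, hP⟩)]
  congr 2
  ext d
  simp only [Finset.mem_erase, Finset.mem_filter, Finset.mem_range]
  exact ⟨fun k => ⟨((h d k.1).1 k.2).1, k.1, ((h d k.1).1 k.2).2⟩,
    fun k => ⟨k.2.1, (h d k.2.1).2 ⟨k.1, k.2.2⟩⟩⟩

theorem merge {n : ℕ} {A : ℕ → Prop} {r r' : ℕ → ℕ → Prop} {a b : ℕ} (h : Eqv n r) (ha : a < n)
    (hb : b < n) (Ab : A b) (hA : ∀ x < n, ∀ y < n, r x y → A x → A y)
    (e : ∀ x < n, ∀ y < n, r' x y ↔ Mg r a b x y) (lt : lst n (r a) < lst n (r b)) :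
    ncl n A r' + 1 = ncl n A r := by
  obtain ⟨a1, a2⟩ := lst_spec (P := r a) ⟨a, ha, h.1 a ha⟩
  obtain ⟨b1, b2⟩ := lst_spec (P := r b) ⟨b, hb, h.1 b hb⟩
  refine cnt_erase b1 ⟨hA b hb _ b1 b2 Ab, fun y hy k => lst_le hy (h.2.2 b hb _ b1 y hy b2 k)⟩
    fun d hd => ?_
  constructor
  · rintro ⟨Ad, k⟩
    refine ⟨fun q => ?_, Ad, fun y hy l => k y hy ((e d hd y hy).2 (Or.inl l))⟩
    have := k _ a1 ((e d hd _ a1).2 (Or.inr (Or.inr ⟨q ▸ h.2.1 b hb _ b1 b2, a2⟩)))
    omega
  · rintro ⟨q, Ad, k⟩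
    refine ⟨Ad, fun y hy l => ?_⟩
    rcases (e d hd y hy).1 l with l | ⟨l, m⟩ | ⟨l, -⟩
    · exact k y hy l
    · have := k _ a1 (h.2.2 d hd a ha _ a1 l a2)
      have := lst_le hy m
      omega
    · exact absurd (le_antisymm (k _ b1 (h.2.2 d hd b hb _ b1 l b2))
        (lst_le hd (h.2.1 d hd b hb l))) q

end Ncl

theorem nclK : NclK where
  congr h := cnt_congr fun a ha => and_congr_right fun _ =>
    forall₂_congr fun e he => by rw [h a ha e he]
  merge := by
    intro n A r r' a b h ha hb Aa Ab nr hA e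
    rcases lt_trichotomy (lst n (r a)) (lst n (r b)) with k | k | k
    · exact Ncl.merge h ha hb Ab hA e k
    · obtain ⟨a1, a2⟩ := lst_spec (P := r a) ⟨a, ha, h.1 a ha⟩
      obtain ⟨b1, b2⟩ := lst_spec (P := r b) ⟨b, hb, h.1 b hb⟩
      exact absurd (h.2.2 a ha _ b1 b hb (k ▸ a2) (h.2.1 b hb _ b1 b2)) nr
    · exact Ncl.merge h hb ha Aa hA (fun x hx y hy => (e x hx y hy).trans Ncl.mg_comm) k
  le := by
    intro n A B r h hA
    choose! f f1 f2 f3 using hA
    refine cnt_inj f (fun a ha k => ⟨f1 a ha k.1, f3 a ha k.1⟩) fun a ha b hb k l e => ?_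
    have := h.2.2 a ha _ (f1 b hb l.1) b hb (e ▸ f2 a ha k.1)
      (h.2.1 b hb _ (f1 b hb l.1) (f2 b hb l.1))
    exact le_antisymm (k.2 b hb this) (l.2 a ha (h.2.1 a ha b hb this))
  add := by
    intro n ρ γ a b _ _ ha hb ea eb x _ y _
    have R := Conn.refl n ρ γ
    constructor
    · refine Conn.ind (Ncl.mg_eqv ⟨R, Conn.symm, Conn.trans⟩ a b)
        (fun d hd => Or.inl (Conn.rho ρ γ hd)) fun d hd => ?_
      unfold sw
      split_ifs with h1 h2
      · rw [h1, eb]
        exact Or.inr (Or.inl ⟨R a, R b⟩)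
      · rw [h2, ea]
        exact Or.inr (Or.inr ⟨R b, R a⟩)
      · exact Or.inl (Conn.gam ρ γ hd)
    have le : ∀ {x y}, Conn n ρ γ x y → Conn n ρ (fun d => γ (sw a b d)) x y := fun k =>
      k.le fun d hd => by
        by_cases h1 : d = a
        · rw [h1, ea]
          exact Conn.refl _ _ _ _
        by_cases h2 : d = b
        · rw [h2, eb]
          exact Conn.refl _ _ _ _
        simpa [sw, h1, h2] using Conn.gam ρ (fun d => γ (sw a b d)) hd
    have ab : Conn n ρ (fun d => γ (sw a b d)) a b := by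
      simpa [sw, eb] using Conn.gam ρ (fun d => γ (sw a b d)) ha
    rintro (k | ⟨k, l⟩ | ⟨k, l⟩)
    · exact le k
    · exact (le k).trans (ab.trans (le l))
    · exact (le k).trans (ab.symm.trans (le l))

end Pool.Agent.MP_1a6d78_lc.PR

end MrgPart3

-- ======== part 4: formerly Pool.Agent.MP_1a6d78_lc.PR.PCount
section MrgPart4

/-! PROJECT PR, row PCOUNT: the separator is small. -/

namespace Pool.Agent.MP_1a6d78_lc.PR

open Classical ED

namespace PCount

theorem cnt_sum (n : ℕ) (P : ℕ → Prop) :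
    cnt n P = ∑ d ∈ Finset.range n, if P d then 1 else 0 := by
  simp only [cnt, Finset.card_filter]

/-- The fibres of a map are disjoint. -/
theorem fib (n I : ℕ) (φ : ℕ → ℕ) (Q : ℕ → Prop) :
    ∑ i ∈ Finset.range I, cnt n (fun d => φ d = i ∧ Q d) ≤ cnt n Q := by
  simp only [cnt_sum]
  rw [Finset.sum_comm]
  refine Finset.sum_le_sum fun d _ => ?_
  by_cases h : Q d
  · simp only [h, and_true, if_true, Finset.sum_ite_eq]
    split_ifs <;> omega
  · simp [h]

theorem cov {n I : ℕ} {φ : ℕ → ℕ} (R : ℕ → ℕ → Prop) (h : ∀ d, φ d < I) :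
    cnt n (fun d => R (φ d) d) ≤ ∑ i ∈ Finset.range I, cnt n (R i) := by
  simp only [cnt_sum]
  rw [Finset.sum_comm]
  exact Finset.sum_le_sum fun d _ => Finset.single_le_sum
    (f := fun i => if R i d then 1 else 0) (fun _ _ => Nat.zero_le _) (Finset.mem_range.2 (h d))

/-- Every `k`-th element in the order of `pos`. -/
theorem mult {n k : ℕ} (hk : 0 < k) (P : ℕ → Prop) {pos : ℕ → ℕ}
    (inj : ∀ a < n, ∀ b < n, pos a = pos b → a = b) :
    k * cnt n (fun d => P d ∧ cnt n (fun e => P e ∧ pos e ≤ pos d) % k = 0) ≤ cnt n P := by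
  obtain ⟨ix, hx⟩ : ∃ ix : ℕ → ℕ, ∀ d, ix d = cnt n (fun e => P e ∧ pos e ≤ pos d) :=
    ⟨_, fun _ => rfl⟩
  have lt : ∀ a < n, ∀ b < n, P b → pos a < pos b → ix a < ix b := fun a _ b hb h m => by
    rw [hx, hx]
    exact cnt_lt (fun e _ k => ⟨k.1, by omega⟩) hb ⟨h, le_rfl⟩ fun k => by omega
  have one : ∀ a < n, P a → 0 < ix a := fun a ha h => hx a ▸ cnt_pos ha ⟨h, le_rfl⟩
  have le : ∀ a, ix a ≤ cnt n P := fun a => hx a ▸ cnt_mono fun _ _ k => k.1
  have dv : ∀ a < n, P a → ix a % k = 0 → ix a = k * (ix a / k - 1 + 1) := fun a ha h m => by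
    have h1 := Nat.div_add_mod (ix a) k
    have h2 := one a ha h
    have h3 : 0 < ix a / k := Nat.pos_of_ne_zero fun e => by rw [e] at h1; omega
    rw [Nat.sub_add_cancel h3]
    omega
  simp only [← hx]
  have key := cnt_inj (n := n) (m := cnt n P / k) (P := fun d => P d ∧ ix d % k = 0)
    (Q := fun _ => True) (fun d => ix d / k - 1) (fun a ha h => ⟨by
      refine (Nat.le_div_iff_mul_le hk).2 ?_
      rw [Nat.mul_comm]
      exact (dv a ha h.1 h.2).symm.le.trans (le a), trivial⟩) fun a ha b hb h h' e => by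
      have h1 := dv a ha h.1 h.2
      have h2 := dv b hb h'.1 h'.2
      rw [e, ← h2] at h1
      refine inj a ha b hb ?_
      rcases lt_trichotomy (pos a) (pos b) with m | m | m
      · exact absurd h1 (lt a ha b hb h'.1 m).ne
      · exact m
      · exact absurd h1 (lt b hb a ha h.1 m).ne'
  exact (Nat.mul_le_mul_left k (key.trans (cnt_le _ _))).trans (Nat.mul_div_le _ _)

/-- Images of pairs. -/
theorem img (n m D : ℕ) (U : ℕ → Prop) (f : ℕ → ℕ → ℕ) :
    cnt m (fun v => ∃ d < n, U d ∧ ∃ s < D, f s d = v) ≤ D * cnt n U := by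
  have : (Finset.range m).filter (fun v => ∃ d < n, U d ∧ ∃ s < D, f s d = v) ⊆
      (Finset.range D ×ˢ (Finset.range n).filter U).image fun p => f p.1 p.2 := by
    intro v hv
    obtain ⟨d, h1, h2, s, h3, h4⟩ := (Finset.mem_filter.1 hv).2
    exact Finset.mem_image.2 ⟨(s, d), Finset.mem_product.2 ⟨Finset.mem_range.2 h3,
      Finset.mem_filter.2 ⟨Finset.mem_range.2 h1, h2⟩⟩, h4⟩
  refine le_trans ?_ ((Finset.card_le_card this).trans (Finset.card_image_le.trans ?_))
  · exact le_of_eq (by unfold cnt; congr)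
  · rw [Finset.card_product, Finset.card_range, cnt]

end PCount

open PCount in
theorem pCountS : SecQS → PCountS := by
  intro hQ G ok K sl
  unfold Pt.CountK
  have hD := ok.D
  have p5 : G.D ^ 5 = G.D * G.D ^ 4 := by ring
  rcases lt_or_ge G.q (G.D ^ 4) with hq | hq
  · have := Nat.mul_le_mul_left G.D ((cnt_le G.q G.S).trans hq.le)
    omega
  have few := K.few hq
  have con := K.con
  obtain ⟨a, ha, hh, chop⟩ := K.off
  have slab : ∀ d, G.h (d / 4) / G.D < G.D ^ 3 + 1 := fun d => by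
    refine (Nat.div_lt_iff_lt_mul hD).2 ?_
    have h1 := K.le (d / 4)
    have h2 : (G.D ^ 3 + 1) * G.D = G.D ^ 4 + G.D := by ring
    rw [hh, h2]
    omega
  have s1 : cnt G.q G.S ≤ cnt G.q (fun v => G.g v = 0) + (cnt G.q (fun v => G.h v % G.D = 0) +
      G.D * cnt (4 * G.q) fun d => (G.L (G.h (d / 4) / G.D)).fs d) := by
    refine (cnt_or _ _ _).trans (Nat.add_le_add_left ((cnt_or _ _ _).trans
      (Nat.add_le_add_left (le_trans (cnt_mono ?_)
        (img (4 * G.q) G.q G.D _ fun s d => it G.q G.par s (d / 4))) _)) _)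
    rintro v - ⟨d, h1, h2, h3, h4⟩
    exact ⟨d, h1, h2 ▸ h3, h4⟩
  have s2 := cov (n := 4 * G.q) (fun i d => (G.L i).fs d) slab
  have s3 : ∀ i, G.D ^ 2 * cnt (4 * G.q) (fun d => (G.L i).fs d) ≤
      10 * cnt (4 * G.q) (fun d => G.h (d / 4) / G.D = i ∧ True) +
        10 * G.D ^ 2 * cnt (4 * G.q) (fun d => G.h (d / 4) / G.D = i ∧ G.F.con d) +
          5 * G.D ^ 2 := fun i => by
    obtain ⟨-, -, C⟩ := sl i
    have h1 : cnt (4 * G.q) (fun d => (G.L i).fs d) ≤ 10 * cnt (4 * G.q) (G.L i).sp + 5 :=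
      hQ (G.L i) ⟨C.inj, C.ivo, C.nco⟩
    have h2 : cnt (4 * G.q) (G.L i).sp ≤
        cnt (4 * G.q) (fun d => G.h (d / 4) / G.D = i ∧ G.idx i d % G.D ^ 2 = 0) +
          cnt (4 * G.q) (fun d => G.h (d / 4) / G.D = i ∧ G.F.con d) :=
      le_trans (cnt_mono fun d _ k => and_or_left.1 k) (cnt_or _ _ _)
    have h3 : G.D ^ 2 * cnt (4 * G.q) (fun d => G.h (d / 4) / G.D = i ∧ G.idx i d % G.D ^ 2 = 0) ≤
        cnt (4 * G.q) (fun d => G.h (d / 4) / G.D = i) :=
      mult (pow_pos hD 2) (fun d => G.h (d / 4) / G.D = i) C.inj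
    simp only [and_true]
    have h4 := Nat.mul_le_mul_left (G.D ^ 2)
      (h1.trans (Nat.add_le_add_right (Nat.mul_le_mul_left 10 h2) 5))
    nlinarith
  have s4 := Finset.sum_le_sum fun i (_ : i ∈ Finset.range (G.D ^ 3 + 1)) => s3 i
  rw [Finset.sum_add_distrib, Finset.sum_add_distrib, ← Finset.mul_sum, ← Finset.mul_sum,
    ← Finset.mul_sum, Finset.sum_const, Finset.card_range, smul_eq_mul] at s4
  have s5 := (fib (4 * G.q) (G.D ^ 3 + 1) (fun d => G.h (d / 4) / G.D) fun _ => True).trans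
    (cnt_le _ _)
  have s6 := Nat.mul_le_mul_left (10 * G.D ^ 2)
    ((fib (4 * G.q) (G.D ^ 3 + 1) (fun d => G.h (d / 4) / G.D) G.F.con).trans con)
  have s7 := Nat.mul_le_mul_left (G.D ^ 2) s2
  have s8 := Nat.mul_le_mul_left G.D s1
  have s9 : G.D * cnt G.q (fun v => G.g v = 0) ≤ G.D ^ 2 * cnt G.q (fun v => G.g v = 0) :=
    Nat.mul_le_mul_right _ (Nat.le_self_pow two_ne_zero _)
  have p2 : G.D ^ 2 ≤ G.D ^ 5 := Nat.pow_le_pow_right hD (by omega)
  have p3 : (G.D ^ 3 + 1) * (5 * G.D ^ 2) = 5 * G.D ^ 5 + 5 * G.D ^ 2 := by ring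
  nlinarith

end Pool.Agent.MP_1a6d78_lc.PR

end MrgPart4

-- ======== part 5: formerly Pool.Agent.MP_1a6d78_lc.PR.PEdge
section MrgPart5

/-! PROJECT PR, row PEDGE: labels are constant along edges that avoid the separator. -/

namespace Pool.Agent.MP_1a6d78_lc.PR

open Classical ED

namespace PEdge

variable {G : Pt}

theorem slab {D a i : ℕ} (hD : 1 ≤ D) : a / D = i ↔ i * D ≤ a ∧ a < (i + 1) * D := by
  rw [Nat.div_eq_iff hD, Nat.succ_mul]
  omega

theorem near {D a b : ℕ} (h1 : a ≤ b + 1) (h2 : b ≤ a + 1) (ha : a % D ≠ 0) (hb : b % D ≠ 0) :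
    b / D = a / D := by
  have key : ∀ x, (x + 1) % D ≠ 0 → (x + 1) / D = x / D := fun x hx =>
    Nat.succ_div_of_not_dvd fun k => hx (Nat.mod_eq_zero_of_dvd k)
  rcases (by omega : b = a ∨ b = a + 1 ∨ a = b + 1) with rfl | rfl | rfl
  exacts [rfl, key _ hb, (key _ ha).symm]

theorem climb (hS : G.SetK) {u : ℕ} (hu : u < G.q) (s : ℕ) :
    G.g (G.par^[s] u) ≠ 0 → G.g (G.par^[s] u) + s = G.g u := by
  induction s with
  | zero => exact fun _ => rfl
  | succ s ih =>
    intro k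
    rw [Function.iterate_succ_apply'] at k ⊢
    have e : G.g (G.par^[s] u) ≠ 0 := fun e => k (by rw [Pt.par, if_pos e, e])
    have := ((hS.par _ (iter_inv (Q := fun a => a < G.q) (fun a h => (hS.par a h).1) hu s)).2 e).1
    have := ih e
    omega

theorem ti_ne (hS : G.SetK) {i d : ℕ} (hd : d < 4 * G.q) (k : G.ti i d ≠ d) :
    G.ok i d ∧ G.ti i d = G.β d ∧ G.F.tau d ≠ d := by
  unfold Pt.ti at k ⊢
  split_ifs at k ⊢ with c
  · exact ⟨c, (hS.msf.sb d hd).resolve_left k, k⟩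
  · exact absurd rfl k

theorem fs_S (hG : G.Ok) {i d : ℕ} (hd : d < 4 * G.q) (e : G.h (d / 4) / G.D = i)
    (k : (G.L i).fs d) : G.S (d / 4) :=
  Or.inr (Or.inr ⟨d, hd, rfl, e ▸ k, 0, hG.D, rfl⟩)

/-- A child inside the slab of a vertex off the separator is off the separator. -/
theorem child (hG : G.Ok) (hS : G.SetK) {i d : ℕ} (hd : d < 4 * G.q) (k : G.ti i d ≠ d)
    (p : G.pd (G.ti i d / 4) = G.ti i d) (y1 : G.h (d / 4) / G.D = i) (y2 : ¬G.S (d / 4)) :
    (G.ti i d / 4 < G.q ∧ G.h (G.ti i d / 4) / G.D = i ∧ ¬G.S (G.ti i d / 4)) ∧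
      G.g (d / 4) < G.g (G.ti i d / 4) := by
  obtain ⟨o, e, -⟩ := ti_ne hS hd k
  rw [e] at p ⊢
  obtain ⟨b1, b2⟩ : G.β d < 4 * G.q ∧ G.β (G.β d) = d := hS.fok.iv d hd
  have c0 : G.g (G.β d / 4) ≠ 0 := fun z => by
    rw [Pt.pd, if_pos z] at p
    omega
  have c1 : G.par (G.β d / 4) = d / 4 := by rw [Pt.par, if_neg c0, p, b2]
  have c2 := ((hS.par _ (by omega : G.β d / 4 < G.q)).2 c0).1
  rw [c1] at c2
  obtain ⟨a, -, ha, -⟩ := hS.off
  have h1 := ha (d / 4)
  have h2 := ha (G.β d / 4)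
  have h3 := (slab hG.D).1 y1
  have h4 := o.2
  have h5 : G.h (G.β d / 4) / G.D = i := (slab hG.D).2 (by omega)
  refine ⟨⟨by omega, h5, ?_⟩, by omega⟩
  rintro (z | z | ⟨u, u1, u2, u3, s, s1, s2⟩)
  · exact c0 z
  · have := Nat.div_add_mod' (G.h (G.β d / 4)) G.D
    rw [h5] at this
    omega
  · have pl : ∀ a < G.q, G.par a < G.q := fun a h => (hS.par a h).1
    have u4 : u / 4 < G.q := by omega
    rw [it_eq pl u4] at s2
    rw [h5] at u2 u3
    have h6 := climb hS u4 s (s2 ▸ c0)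
    rw [s2] at h6
    have h7 := ha (u / 4)
    have h8 := (slab hG.D).1 u2
    rw [Nat.succ_mul] at h8
    exact y2 (Or.inr (Or.inr ⟨u, u1, u2.trans y1.symm, y1 ▸ u3, s + 1, by omega, by
      rw [it_eq pl u4, Function.iterate_succ_apply', s2, c1]⟩))

end PEdge

open PEdge in
theorem pEdgeS : SectS → SecUS → StS → PEdgeS := by
  intro hT hU hst G hG hS hL v hv r hr s1 s2
  obtain ⟨a, -, ha, -⟩ := hS.off
  have lip := hS.lip v hv r hr
  have e0 : G.h (G.nb v r) / G.D = G.h v / G.D :=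
    near (by rw [ha, ha]; omega) (by rw [ha, ha]; omega) (fun k => s1 (Or.inr (Or.inl k)))
      fun k => s2 (Or.inr (Or.inl k))
  unfold Pt.lab
  rw [e0]
  generalize e1 : G.h v / G.D = i at e0
  obtain ⟨i1, -, C⟩ := hL i
  have ok : (G.L i).Ok := ⟨C.inj, C.ivo, C.nco⟩
  have K := hT _ ok
  have U := hU _ ok K
  obtain ⟨A, B⟩ := hst (4 * G.q) (G.D ^ 4) r4 (G.ti i) (fun d => d / 4) G.pd G.g
    (fun d => min ((G.L i).rk d) ((G.L i).up ((G.L i).rk d)))
    (fun w => w < G.q ∧ G.h w / G.D = i ∧ ¬G.S w)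
    (fun d => st (4 * G.q) (fun d => r4 (G.ti i d)) (G.rt i) d = d) hS.fok.pm i1 hS.fok.nd hS.fok.pd
    (fun d _ _ => hS.le _) (fun d hd k p y => child hG hS hd k p y.2.1 y.2.2)
    (fun d hd k y => by
      rcases (k ▸ C.root d hd : G.rt i d) with z | z
      · exact absurd (Or.inl z) y.2.2
      · exact absurd ((slab hG.D).1 y.2.1).2 (not_lt.2 z))
    (fun d hd e he k k' z => by
      rw [← k, C.uniq d hd e he ((hS.fok.nd d hd e he).1 z), k'])
    (fun d hd y k => by
      have l := hS.fok.pm.1 _ (i1 d hd).1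
      rcases K.step d hd _ l (C.succ d hd k) with z | z
      · exact congrArg (fun m => min m ((G.L i).up m)) z
      · exact absurd (fs_S hG l y.2.1 z.2) y.2.2)
    (fun d hd k p p' y => by
      obtain ⟨-, e, t⟩ := ti_ne hS hd k
      rw [e] at p'
      refine absurd (fs_S hG hd y.2.1 fun x hx z _ => ?_) y.2.2
      rw [K.sing d hd x hx ⟨y.2.1, Or.inr ⟨t, fun c => c.elim p p'⟩⟩ z])
  have hd : 4 * v + r < 4 * G.q := by omega
  have dv : (4 * v + r) / 4 = v := by omega
  have b1 : G.β (4 * v + r) < 4 * G.q := (hS.fok.iv _ hd).1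
  have yv : v < G.q ∧ G.h v / G.D = i ∧ ¬G.S v := ⟨hv, e1, s1⟩
  have yw : G.nb v r < G.q ∧ G.h (G.nb v r) / G.D = i ∧ ¬G.S (G.nb v r) :=
    ⟨hS.nb v hv r hr, e0, s2⟩
  have a1 := A _ hd (4 * v) (by omega) (by omega) (dv.symm ▸ yv)
  have a2 := A _ b1 (4 * G.nb v r) (by omega) (by unfold Pt.nb; omega) yw
  rw [← a1, ← a2]
  congr 1
  by_cases k : G.ti i (4 * v + r) = 4 * v + r
  · have o : G.ok i (4 * v + r) := ⟨dv.symm ▸ ((slab hG.D).1 e1).2, ((slab hG.D).1 e0).2⟩
    have e : (G.L i).o (4 * v + r) = G.β (4 * v + r) := by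
      show out _ _ _ = _
      rw [out, if_pos k, Pt.bi, if_pos o]
    rcases U.chord _ hd with z | z <;> rw [e] at z <;> rw [z]
    rw [(U.iv _ (K.lt _ hd)).2, min_comm]
  · have e := (ti_ne hS hd k).2.1
    exact e ▸ B _ hd k (dv.symm ▸ yv) (e.symm ▸ yw)

end Pool.Agent.MP_1a6d78_lc.PR

end MrgPart5

-- ======== part 6: formerly Pool.Agent.MP_1a6d78_lc.PR.PSet
section MrgPart6

/-! PROJECT PR, row PSET: the set-up of the partition of a two-page graph. -/

namespace Pool.Agent.MP_1a6d78_lc.PR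

open Classical ED

namespace PSet

theorem sum_le (D : ℕ) (g : ℕ → ℕ) (q : ℕ) :
    ∑ a ∈ Finset.range D, cnt q (fun u => (g u + a) % D = 0) ≤ q := by
  induction q with
  | zero => simp [cnt]
  | succ q ih =>
    simp only [cnt_succ, Finset.sum_add_distrib]
    refine Nat.add_le_add ih ?_
    refine (@Finset.card_filter _ (fun a => (g q + a) % D = 0) (fun _ => propDecidable _)
      (Finset.range D)).symm.trans_le (Finset.card_le_one.2 fun a ha b hb => ?_)
    simp only [Finset.mem_filter, Finset.mem_range] at ha hb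
    have e : g q + a ≡ g q + b [MOD D] := ha.2.trans hb.2.symm
    exact (Nat.ModEq.add_left_cancel' _ e).eq_of_lt_of_lt ha.1 hb.1

theorem off {D : ℕ} (hD : 1 ≤ D) (f : ℕ → ℕ) {q : ℕ} (h : ∑ a ∈ Finset.range D, f a ≤ q) :
    D * f (amin D f) ≤ q := by
  refine le_trans ?_ h
  have := Finset.card_nsmul_le_sum (Finset.range D) f (f (amin D f)) fun a ha =>
    (amin_spec f hD).2 a (Finset.mem_range.1 ha)
  simpa using this

end PSet

theorem pSetS : TwoS → MsfS → MsfC → BallS → HashS → PSetS := by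
  intro two msf msfc bal hash G h
  obtain ⟨t1, t2, t3, t4⟩ := two G.q G.up G.dn h.iu h.id h.nu h.nd
  have iv : ∀ d < 4 * G.q, G.β d < 4 * G.q ∧ G.β (G.β d) = d := t2
  have nb : ∀ v < G.q, ∀ r < 4, G.nb v r < G.q := fun v hv r hr => by
    have := (iv (4 * v + r) (by omega)).1
    unfold Pt.nb
    omega
  have sy : ∀ w < G.q, ∀ r < 4, ∃ r' < 4, G.nb (G.nb w r) r' = w := fun w hw r hr => by
    refine ⟨G.β (4 * w + r) % 4, Nat.mod_lt _ (by omega), ?_⟩
    unfold Pt.nb
    rw [Nat.div_add_mod, (iv (4 * w + r) (by omega)).2]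
    omega
  have B : BallK G.q G.nb (G.D ^ 4) G.c G.g := bal G.q G.nb (G.D ^ 4) _ nb sy
  have lip : ∀ v < G.q, ∀ r < 4, G.g (G.nb v r) ≤ G.g v + 1 ∧ G.g v ≤ G.g (G.nb v r) + 1 :=
    fun v hv r hr => by
      refine ⟨B.lip v hv r hr, ?_⟩
      obtain ⟨r', h1, h2⟩ := sy v hv r hr
      have := B.lip _ (nb v hv r hr) r' h1
      rwa [h2] at this
  have pd0 : ∀ v, G.g v = 0 → G.pd v = 4 * G.q := fun v k => by rw [Pt.pd, if_pos k]
  have pd1 : ∀ v < G.q, G.g v ≠ 0 → ∃ r < 4, G.pd v = 4 * v + r ∧ G.g (G.nb v r) < G.g v :=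
    fun v hv k => by
      obtain ⟨h1, h2⟩ := lst_spec (B.desc v hv k)
      exact ⟨_, h1, by rw [Pt.pd, if_neg k], h2⟩
  have fok : G.F.Ok := by
    refine ⟨t1, t2, t3, t4, fun d hd k => ?_, fun d hd k => ?_⟩
    · change d < 4 * G.q at hd
      change G.pd (d / 4) < 4 * G.q at k
      change G.pd (d / 4) / 4 = d / 4
      by_cases e : G.g (d / 4) = 0
      · rw [pd0 _ e] at k
        omega
      · obtain ⟨r, h1, h2, _⟩ := pd1 (d / 4) (by omega) e
        omega
    · change d < 4 * G.q at hd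
      change G.pd (d / 4) = d at k
      change G.β d ≠ d ∧ G.g (G.β d / 4) < G.g (d / 4)
      by_cases e : G.g (d / 4) = 0
      · rw [pd0 _ e] at k
        omega
      · obtain ⟨r, h1, h2, h3⟩ := pd1 (d / 4) (by omega) e
        rw [Pt.nb, ← h2, k] at h3
        exact ⟨fun e' => by rw [e'] at h3; omega, h3⟩
  refine ⟨fok, msf _ fok, nb, B.le, ⟨_, (amin_spec _ h.D).1, fun v => rfl, ?_⟩, lip,
    fun v hv => ?_, fun hq => ?_, ?_⟩
  · exact PSet.off h.D (fun a => cnt G.q fun u => (G.g u + a) % G.D = 0) (PSet.sum_le _ _ _)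
  · by_cases e : G.g v = 0
    · exact ⟨by rw [Pt.par, if_pos e]; exact hv, fun k => absurd e k⟩
    · obtain ⟨r, h1, h2, h3⟩ := pd1 v hv e
      have p : G.par v = G.nb v r := by rw [Pt.par, if_neg e, h2, Pt.nb]
      have := (lip v hv r h1).2
      rw [p]
      exact ⟨nb v hv r h1, fun _ => by omega⟩
  · have big := B.big (fun i hi => by
      have e1 : (4 * i + 0) % 4 = 0 := by omega
      have e2 : (4 * i + 0) / 4 + 1 < G.q := by omega
      rw [Pt.nb, Pt.β, b2, if_pos e1, if_pos e2]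
      omega) hq
    obtain ⟨s, h1, h2⟩ := hash G.q (G.D ^ 2) (fun v => ball G.q G.nb (G.D ^ 4) v (G.D ^ 4))
      (Nat.one_le_pow _ _ h.D) fun v hv => by
        rw [← pow_add]
        exact big v hv
    refine le_trans (Nat.mul_le_mul_left _ ?_) h2
    rw [cnt_congr B.zero]
    exact (amin_spec (fun s => cnt G.q (G.cs s)) (by omega)).2 s h1
  · refine (msfc G.F (fun _ => True) (fun e => e % 4 = 0 ∧ G.g (e / 4) = 0) fok (msf _ fok)
      (fun _ _ => Iff.rfl) (fun _ _ k => absurd trivial k) fun d hd _ k => ?_).trans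
      (Nat.mul_le_mul_left _ ?_)
    · change d < 4 * G.q at hd
      change 4 * G.q ≤ G.pd (d / 4) at k
      have e : 4 * (d / 4) / 4 = d / 4 := by omega
      refine ⟨4 * (d / 4), show _ < 4 * G.q by omega, ⟨by omega, ?_⟩, e⟩
      rw [e]
      by_contra e'
      obtain ⟨r, h1, h2, _⟩ := pd1 (d / 4) (by omega) e'
      omega
    · refine cnt_inj (· / 4) (fun a ha k => ⟨?_, k.2⟩) fun a _ b _ ka kb e => ?_
      · change a < 4 * G.q at ha
        omega
      · have := ka.1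
        have := kb.1
        omega

end Pool.Agent.MP_1a6d78_lc.PR

end MrgPart6

-- ======== part 7: formerly Pool.Agent.MP_1a6d78_lc.PR.PSize
section MrgPart7

/-! PROJECT PR: the pieces of the partition are small. -/

namespace Pool.Agent.MP_1a6d78_lc.PR

open Classical ED

namespace PSize

variable {n : ℕ} {P : ℕ → Prop} {pos : ℕ → ℕ}

theorem mono {d e : ℕ} (h : pos d ≤ pos e) :
    cnt n (fun a => P a ∧ pos a ≤ pos d) ≤ cnt n fun a => P a ∧ pos a ≤ pos e :=
  cnt_mono fun _ _ k => ⟨k.1, k.2.trans h⟩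

theorem strict {d e : ℕ} (he : e < n) (hP : P e) (h : pos d < pos e) :
    cnt n (fun a => P a ∧ pos a ≤ pos d) < cnt n fun a => P a ∧ pos a ≤ pos e :=
  cnt_lt (fun _ _ k => ⟨k.1, k.2.trans h.le⟩) he ⟨hP, le_rfl⟩ fun k => absurd k.2 h.not_ge

/-- The index takes all values. -/
theorem surj (hi : ∀ a < n, ∀ b < n, pos a = pos b → a = b) {e k : ℕ} (h0 : 0 < k)
    (hk : k ≤ cnt n fun a => P a ∧ pos a ≤ pos e) :
    ∃ f < n, P f ∧ cnt n (fun a => P a ∧ pos a ≤ pos f) = k := by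
  have := Finset.surjOn_of_injOn_of_card_le
    (s := (Finset.range n).filter fun a => P a ∧ pos a ≤ pos e)
    (t := Finset.Ioc 0 (cnt n fun a => P a ∧ pos a ≤ pos e))
    (fun f => cnt n fun a => P a ∧ pos a ≤ pos f) (fun a ha => ?_) (fun a ha b hb e => ?_) ?_
  · obtain ⟨f, h1, h2⟩ := this (Finset.mem_coe.2 (Finset.mem_Ioc.2 ⟨h0, hk⟩))
    simp only [Finset.coe_filter, Finset.mem_range, Set.mem_ofPred_eq] at h1
    exact ⟨f, h1.1, h1.2.1, h2⟩
  · simp only [Finset.coe_filter, Finset.mem_range, Set.mem_ofPred_eq] at ha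
    exact Finset.mem_coe.2 (Finset.mem_Ioc.2 ⟨cnt_pos ha.1 ⟨ha.2.1, le_rfl⟩, mono ha.2.2⟩)
  · simp only [Finset.coe_filter, Finset.mem_range, Set.mem_ofPred_eq] at ha hb
    rcases lt_trichotomy (pos a) (pos b) with k | k | k
    · exact absurd e (strict hb.1 hb.2.1 k).ne
    · exact hi a ha.1 b hb.1 k
    · exact absurd e (strict ha.1 ha.2.1 k).ne'
  · rw [Nat.card_Ioc, Nat.sub_zero, cnt]
    exact le_of_eq (by congr)

variable {G : Pt}

theorem ok (h : G.SlabK) (i : ℕ) : (G.L i).Ok := ⟨(h i).2.2.inj, (h i).2.2.ivo, (h i).2.2.nco⟩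

theorem sep (hD : 1 ≤ G.D) {i d e : ℕ} (h1 : (G.L i).Ok) (h2 : (G.L i).SecK) (hd : d < 4 * G.q)
    (he : e < 4 * G.q) (se : G.h (e / 4) / G.D = i) (lt : G.psi i d < G.psi i e)
    (r : G.idx i d % G.D ^ 2 = G.idx i e % G.D ^ 2) : (G.L i).blk d < (G.L i).blk e := by
  have p : 0 < G.D ^ 2 := by positivity
  have a : G.idx i d < G.idx i e := strict (P := fun e => G.h (e / 4) / G.D = i) he se lt
  have b : G.idx i d / G.D ^ 2 < G.idx i e / G.D ^ 2 := by
    refine Nat.lt_of_mul_lt_mul_left (a := G.D ^ 2) ?_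
    have := Nat.div_add_mod (G.idx i d) (G.D ^ 2)
    have := Nat.div_add_mod (G.idx i e) (G.D ^ 2)
    omega
  have c : G.idx i d < G.D ^ 2 * (G.idx i e / G.D ^ 2) :=
    (Nat.lt_mul_div_succ _ p).trans_le (Nat.mul_le_mul_left _ b)
  obtain ⟨f, f1, f2, f3⟩ := surj (P := fun e => G.h (e / 4) / G.D = i) (pos := G.psi i) (e := e)
    h1.inj (k := G.D ^ 2 * (G.idx i e / G.D ^ 2)) (by omega) (Nat.mul_div_le _ _)
  have f4 : G.idx i f = G.D ^ 2 * (G.idx i e / G.D ^ 2) := f3
  refine h2.gap d hd e he f f1 ⟨f2, Or.inl (by rw [f4, Nat.mul_mod_right])⟩ ?_ ?_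
  · refine lt_of_not_ge fun k => ?_
    have : G.idx i f ≤ G.idx i d := mono (P := fun e => G.h (e / 4) / G.D = i) k
    omega
  · refine le_of_not_gt fun k => ?_
    have : G.idx i e < G.idx i f := strict (P := fun e => G.h (e / 4) / G.D = i) f1 f2 k
    have := Nat.mul_div_le (G.idx i e) (G.D ^ 2)
    omega

theorem one (hD : 1 ≤ G.D) {i : ℕ} (h1 : (G.L i).Ok) (h2 : (G.L i).SecK) (m : ℕ) :
    cnt G.q (fun v => G.h v / G.D = i ∧ (G.L i).rk (4 * v) = m) ≤ G.D ^ 2 := by
  refine (cnt_inj (m := G.D ^ 2) (Q := fun _ => True) (fun v => G.idx i (4 * v) % G.D ^ 2)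
    (fun v _ _ => ⟨Nat.mod_lt _ (by positivity), trivial⟩) fun u hu v hv ku kv e => ?_).trans
    (cnt_le _ _)
  have a : 4 * u < 4 * G.q := by omega
  have b : 4 * v < 4 * G.q := by omega
  have c := ((h2.same _ a _ b).1 (ku.2.trans kv.2.symm)).1
  rcases lt_trichotomy (G.psi i (4 * u)) (G.psi i (4 * v)) with k | k | k
  · exact absurd c (sep hD h1 h2 a b (by rw [Nat.mul_div_cancel_left _ four_pos]; exact kv.1) k e).ne
  · have := h1.inj _ a _ b k
    omega
  · exact absurd c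
      (sep hD h1 h2 b a (by rw [Nat.mul_div_cancel_left _ four_pos]; exact ku.1) k e.symm).ne'

end PSize

open PSize in
theorem pSizeS (h1 : SectS) (h2 : SecUS) : PSizeS := fun G hG _ hS y => by
  have k1 := fun i => ok hS i
  have k2 := fun i => h1 _ (k1 i)
  have k3 := fun i => h2 _ (k1 i) (k2 i)
  set i := y / (4 * G.q) with hi
  set m := y % (4 * G.q) with hm
  refine ((cnt_mono (Q := fun v => (G.h v / G.D = i ∧ (G.L i).rk (4 * v) = m) ∨
    (G.h v / G.D = i ∧ (G.L i).rk (4 * v) = (G.L i).up m)) fun v hv k => ?_).trans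
    (cnt_or _ _ _)).trans ?_
  · have a : 4 * v < 4 * G.q := by omega
    have b := (k2 (G.h v / G.D)).lt _ a
    have c : (G.L (G.h v / G.D)).q ≤ 4 * G.q := cnt_le _ _
    have d := (min_le_left _ ((G.L (G.h v / G.D)).up ((G.L (G.h v / G.D)).rk (4 * v)))).trans_lt
      (b.trans_le c)
    have e := k.2
    rw [Pt.lab] at e
    have e1 : i = G.h v / G.D := by
      rw [hi, ← e, add_comm, Nat.add_mul_div_right _ _ (by omega), Nat.div_eq_of_lt d, zero_add]
    have e2 : m = min ((G.L (G.h v / G.D)).rk (4 * v))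
        ((G.L (G.h v / G.D)).up ((G.L (G.h v / G.D)).rk (4 * v))) := by
      rw [hm, ← e, add_comm, Nat.add_mul_mod_self_right, Nat.mod_eq_of_lt d]
    rw [← e1] at b e2
    rcases min_choice ((G.L i).rk (4 * v)) ((G.L i).up ((G.L i).rk (4 * v))) with s | s
    · exact Or.inl ⟨e1.symm, (e2.trans s).symm⟩
    · exact Or.inr ⟨e1.symm, by rw [e2, s, ((k3 i).iv _ b).2]⟩
  · have := one hG.D (k1 i) (k2 i) m
    have := one hG.D (k1 i) (k2 i) ((G.L i).up m)
    omega

end Pool.Agent.MP_1a6d78_lc.PR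

end MrgPart7

-- ======== part 8: formerly Pool.Agent.MP_1a6d78_lc.PR.PSlab
section MrgPart8

/-! PROJECT PR, row PSLAB: the contour of the part of the forest below a level. -/

namespace Pool.Agent.MP_1a6d78_lc.PR

open Classical ED

namespace PSlab

variable {G : Pt}

theorem ok_beta (hβ : Iv (4 * G.q) G.β) {i d : ℕ} (hd : d < 4 * G.q) (h : G.ok i d) :
    G.ok i (G.β d) := by
  refine ⟨h.2, ?_⟩
  rw [(hβ d hd).2]
  exact h.1

theorem ti_pos {i d : ℕ} (h : G.ok i d) : G.ti i d = G.F.tau d := if_pos h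

theorem ti_neg {i d : ℕ} (h : ¬G.ok i d) : G.ti i d = d := if_neg h

theorem bi_pos {i d : ℕ} (h : G.ok i d) : G.bi i d = G.β d := if_pos h

theorem bi_neg {i d : ℕ} (h : ¬G.ok i d) : G.bi i d = d := if_neg h

theorem iv_bi (S : G.SetK) (i : ℕ) : Iv (4 * G.q) (G.bi i) := by
  have hβ : Iv (4 * G.q) G.β := S.fok.iv
  intro d hd
  by_cases h : G.ok i d
  · rw [bi_pos h, bi_pos (ok_beta hβ hd h)]
    exact hβ d hd
  · rw [bi_neg h, bi_neg h]
    exact ⟨hd, rfl⟩

theorem iv_ti (S : G.SetK) (i : ℕ) : Iv (4 * G.q) (G.ti i) := by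
  have hβ : Iv (4 * G.q) G.β := S.fok.iv
  have hτ : Iv (4 * G.q) G.F.tau := S.msf.iv
  have hs : Sb (4 * G.q) G.F.tau G.β := S.msf.sb
  intro d hd
  by_cases h : G.ok i d
  · have h' : G.ok i (G.F.tau d) := by
      rcases hs d hd with e | e <;> rw [e]
      exacts [h, ok_beta hβ hd h]
    rw [ti_pos h, ti_pos h']
    exact hτ d hd
  · rw [ti_neg h, ti_neg h]
    exact ⟨hd, rfl⟩

theorem span (S : G.SetK) (i d : ℕ) (hd : d < 4 * G.q) :
    Conn (4 * G.q) r4 (G.ti i) d (G.bi i d) := by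
  by_cases h : G.ok i d
  · rw [bi_pos h]
    have k : Conn (4 * G.q) r4 (fun e => if G.F.mx e ≤ G.F.mx d then G.F.tau e else e) d
      (G.β d) := S.msf.span d hd
    refine k.mono fun e _ => ?_
    by_cases h1 : G.F.mx e ≤ G.F.mx d
    · refine Or.inr ?_
      obtain ⟨a, _, ha, _⟩ := S.off
      have h2 : max (G.g (e / 4)) (G.g (G.β e / 4)) ≤ max (G.g (d / 4)) (G.g (G.β d / 4)) := h1
      have h3 := h.1
      have h4 := h.2
      rw [ha] at h3 h4
      have h5 : G.ok i e := ⟨by rw [ha]; omega, by rw [ha]; omega⟩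
      rw [ti_pos h5]
      exact if_pos h1
    · exact Or.inl (if_neg h1)
  · rw [bi_neg h]
    exact Conn.refl _ _ _ _

theorem br (S : G.SetK) (i d : ℕ) (hd : d < 4 * G.q) (hne : G.ti i d ≠ d) :
    ¬Conn (4 * G.q) r4 (del (G.ti i) d) d (G.ti i d) := by
  have h : G.ok i d := by
    by_contra k
    exact hne (ti_neg k)
  rw [ti_pos h] at hne
  intro k
  refine S.msf.br d hd hne ?_
  rw [ti_pos h] at k
  refine Conn.mono (n := 4 * G.q) (fun e _ => ?_) k
  unfold del
  rw [ti_pos h]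
  split_ifs
  · exact Or.inl rfl
  · by_cases h1 : G.ok i e
    · exact Or.inr (ti_pos h1)
    · exact Or.inl (ti_neg h1)

theorem roots (S : G.SetK) (i : ℕ) : ∀ (m d : ℕ), d < 4 * G.q → G.g (d / 4) = m →
    ∃ e < 4 * G.q, Conn (4 * G.q) r4 (G.ti i) d e ∧ G.rt i e := by
  have hβ : Iv (4 * G.q) G.β := S.fok.iv
  have hρ : Pm (4 * G.q) r4 := S.fok.pm
  obtain ⟨a, _, ha, _⟩ := S.off
  intro m
  induction m using Nat.strong_induction_on with
  | _ m ih =>
    intro d hd hm
    by_cases hr : G.rt i d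
    · exact ⟨d, hd, Conn.refl _ _ _ _, hr⟩
    obtain ⟨h0, h1⟩ := not_or.1 hr
    obtain ⟨h2, h3, h4⟩ := (S.par (d / 4) (by omega)).2 h0
    have h5 : G.par (d / 4) = G.β (G.pd (d / 4)) / 4 := if_neg h0
    have h6 : Sc (4 * G.q) r4 d (G.pd (d / 4)) := (S.fok.nd d hd _ h3).1 h4.symm
    have h7 : G.F.tau (G.pd (d / 4)) = G.β (G.pd (d / 4)) := by
      refine S.msf.phi _ h3 (Or.inl ?_)
      show G.pd (G.pd (d / 4) / 4) = _
      rw [h4]
    have h8 : G.ok i (G.pd (d / 4)) := by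
      rw [ha] at h1
      refine ⟨by rw [h4, ha]; omega, ?_⟩
      rw [← h5, ha]
      omega
    obtain ⟨e, he, k, hk⟩ := ih (G.g (G.par (d / 4))) (by omega) (G.β (G.pd (d / 4)))
      (hβ _ h3).1 (by rw [h5])
    refine ⟨e, he, (h6.conn' _ hρ hd).trans (Conn.trans ?_ k), hk⟩
    rw [← h7, ← ti_pos h8]
    exact Conn.gam _ _ h3

end PSlab

open PSlab in
theorem pSlabS : ContS → PSlabS := by
  intro cont G _ S i
  refine ⟨iv_ti S i, iv_bi S i, cont _ _ _ _ _ S.fok.pm (iv_bi S i) ?_ (iv_ti S i) ?_ (span S i)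
    (br S i) fun d hd => roots S i _ d hd rfl⟩
  · refine Pl.sub (β := G.β) S.fok.pl fun d _ => ?_
    by_cases h : G.ok i d
    · exact Or.inr (bi_pos h)
    · exact Or.inl (bi_neg h)
  · intro d hd
    by_cases h : G.ok i d
    · rw [ti_pos h, bi_pos h]
      exact S.msf.sb d hd
    · exact Or.inl (ti_neg h)

end Pool.Agent.MP_1a6d78_lc.PR

end MrgPart8

-- ======== part 9: formerly Pool.Agent.MP_1a6d78_lc.PR.SecQ
section MrgPart9

/-! PROJECT PR: the number of sectors is linear in the number of special darts. -/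

namespace Pool.Agent.MP_1a6d78_lc.PR

open Classical ED

namespace SecQ

/-- Non-crossing pairs below `B` have codes below `2 * B`. -/
theorem code1 (B : ℕ) (T : ℕ → ℕ → Prop) (hB : ∀ i j, T i j → i < B ∧ j < B)
    (hx : ∀ i k j l, i < k → k < j → j < l → T i j → ¬T k l) :
    ∃ c : ℕ → ℕ → ℕ, (∀ i j, T i j → c i j < 2 * B) ∧
      ∀ i j i' j', T i j → T i' j' → i < j → i' < j' → c i j = c i' j' → i = i' ∧ j = j' := by
  refine ⟨fun i j => if ∀ l, T i l → l ≤ j then i else B + j, fun i j h => ?_,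
    fun i j i' j' h h' k k' e => ?_⟩
  · have := hB i j h
    beta_reduce
    split_ifs <;> omega
  · have b := hB i j h
    have b' := hB i' j' h'
    beta_reduce at e
    split_ifs at e with h1 h2 h2
    · subst e
      exact ⟨rfl, le_antisymm (h2 j h) (h1 j' h')⟩
    · omega
    · omega
    · push Not at h1 h2
      obtain ⟨l, l1, l2⟩ := h1
      obtain ⟨l', l1', l2'⟩ := h2
      have ej : j = j' := by omega
      subst ej
      rcases lt_trichotomy i i' with q | q | q
      · exact absurd l1' (hx i i' j l' q k' l2' h)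
      · exact ⟨q, rfl⟩
      · exact absurd l1 (hx i' i j l q k l2 h')

theorem code2 (B : ℕ) (T : ℕ → ℕ → Prop) (hB : ∀ i j, T i j → i < B ∧ j < B)
    (hs : ∀ i j, T i j → T j i) (hn : ∀ i j, T i j → i ≠ j)
    (hx : ∀ i k j l, i < k → k < j → j < l → T i j → ¬T k l) :
    ∃ c : ℕ → ℕ → ℕ, (∀ i j, T i j → c i j < 4 * B) ∧
      ∀ i j i' j', T i j → T i' j' → c i j = c i' j' → i = i' ∧ j = j' := by
  obtain ⟨c, c1, c2⟩ := code1 B T hB hx
  refine ⟨fun i j => if i < j then c i j else 2 * B + c j i, fun i j h => ?_,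
    fun i j i' j' h h' e => ?_⟩
  · have a := c1 i j h
    have b := c1 j i (hs i j h)
    beta_reduce
    split_ifs <;> omega
  · have a := c1 i j h
    have a' := c1 i' j' h'
    have n1 := hn i j h
    have n2 := hn i' j' h'
    beta_reduce at e
    split_ifs at e with h1 h2 h2
    · exact c2 i j i' j' h h' h1 h2 e
    · omega
    · omega
    · exact (c2 j i j' i' (hs _ _ h) (hs _ _ h') (by omega) (by omega) (by omega)).symm

variable {L : Ln}

theorem blk_lt {d : ℕ} (hd : d < L.n) : L.blk d < 2 * cnt L.n L.sp + 1 := by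
  unfold Ln.blk
  split_ifs with h
  · have := cnt_lt (P := fun e => L.sp e ∧ L.pos e < L.pos d) (Q := L.sp) (fun _ _ k => k.1) hd h
      fun k => lt_irrefl _ k.2
    omega
  · have := cnt_mono (n := L.n) (P := fun e => L.sp e ∧ L.pos e < L.pos d) (Q := L.sp)
      fun _ _ k => k.1
    omega

theorem blk_mono (h : L.Ok) {a b : ℕ} (ha : a < L.n) (hb : b < L.n) (k : L.pos a ≤ L.pos b) :
    L.blk a ≤ L.blk b := by
  rcases k.eq_or_lt with e | e
  · rw [h.inj a ha b hb e]
  have m := cnt_mono (n := L.n) (P := fun e => L.sp e ∧ L.pos e < L.pos a)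
    (Q := fun e => L.sp e ∧ L.pos e < L.pos b) fun _ _ k => ⟨k.1, k.2.trans e⟩
  by_cases s : L.sp a
  · have := cnt_lt (P := fun e => L.sp e ∧ L.pos e < L.pos a)
      (Q := fun e => L.sp e ∧ L.pos e < L.pos b) (fun _ _ k => ⟨k.1, k.2.trans e⟩) ha ⟨s, e⟩
      fun k => lt_irrefl _ k.2
    unfold Ln.blk
    rw [if_pos s]
    omega
  · unfold Ln.blk
    rw [if_neg s]
    omega

theorem pos_lt (h : L.Ok) {a b : ℕ} (ha : a < L.n) (hb : b < L.n) (k : L.blk a < L.blk b) :
    L.pos a < L.pos b := by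
  by_contra q
  exact absurd (blk_mono h hb ha (not_lt.1 q)) (not_le.2 k)

theorem key_spec {d : ℕ} (k : L.key d ≠ 0) :
    ∃ e < L.n, L.blk e = L.blk d ∧ L.blk (L.o e) = L.key d - 1 ∧ L.blk d ≠ L.key d - 1 := by
  by_cases h : ∃ e < L.n, L.aft d e
  · obtain ⟨e, e1, e2⟩ := h
    obtain ⟨f, f1, f2⟩ := Finset.exists_min_image ((Finset.range L.n).filter (L.aft d)) L.pos
      ⟨e, Finset.mem_filter.2 ⟨Finset.mem_range.2 e1, e2⟩⟩
    rw [Finset.mem_filter, Finset.mem_range] at f1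
    obtain ⟨g1, g2, -⟩ := lst_spec
      (P := fun e => L.aft d e ∧ ∀ e' < L.n, L.aft d e' → L.pos e ≤ L.pos e')
      ⟨f, f1.1, f1.2, fun e' a b => f2 e' (Finset.mem_filter.2 ⟨Finset.mem_range.2 a, b⟩)⟩
    have hk : L.key d - 1 = L.blk (L.o (lst L.n fun e =>
        L.aft d e ∧ ∀ e' < L.n, L.aft d e' → L.pos e ≤ L.pos e')) := by
      rw [Ln.key, if_pos ⟨e, e1, e2⟩, Nat.add_sub_cancel]
    refine ⟨_, g1, g2.1, hk.symm, fun q => g2.2.2 ?_⟩
    rw [← hk, ← q, g2.1]
  · exact absurd (by rw [Ln.key, if_neg h]) k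

end SecQ

open SecQ in
theorem secQS : SecQS := by
  intro L h
  obtain ⟨c, c1, c2⟩ := code2 (2 * cnt L.n L.sp + 1)
    (fun i j => ∃ e < L.n, L.blk e = i ∧ L.blk (L.o e) = j ∧ i ≠ j)
    (by
      rintro i j ⟨e, e1, rfl, rfl, -⟩
      exact ⟨blk_lt e1, blk_lt (h.iv e e1).1⟩)
    (by
      rintro i j ⟨e, e1, rfl, rfl, e2⟩
      exact ⟨L.o e, (h.iv e e1).1, rfl, by rw [(h.iv e e1).2], e2.symm⟩)
    (fun i j ⟨_, _, _, _, k⟩ => k)
    (by
      rintro i k j l a b c ⟨e, e1, rfl, rfl, -⟩ ⟨f, f1, rfl, rfl, -⟩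
      exact h.nc e e1 f f1 ⟨pos_lt h e1 f1 a, pos_lt h f1 (h.iv e e1).1 b,
        pos_lt h (h.iv e e1).1 (h.iv f f1).1 c⟩)
  have := cnt_inj (n := L.n) (m := 10 * cnt L.n L.sp + 5) (P := L.fs) (Q := fun _ => True)
    (fun d => if L.key d = 0 then L.blk d else 2 * cnt L.n L.sp + 1 + c (L.blk d) (L.key d - 1))
    (fun d hd _ => ⟨by
      have := blk_lt hd
      split_ifs with k
      · omega
      · have := c1 _ _ (key_spec k)
        omega, trivial⟩)
    (fun a ha b hb fa fb e => by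
      have key : L.blk a = L.blk b ∧ L.key a = L.key b := by
        have p := blk_lt ha
        have q := blk_lt hb
        split_ifs at e with k1 k2 k2
        · exact ⟨e, k1.trans k2.symm⟩
        · omega
        · omega
        · have := c2 _ _ _ _ (key_spec k1) (key_spec k2) (by omega)
          omega
      exact h.inj a ha b hb (le_antisymm (fa b hb key.1.symm key.2.symm) (fb a ha key.1 key.2)))
  exact this.trans (cnt_le _ _)

end Pool.Agent.MP_1a6d78_lc.PR

end MrgPart9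

-- ======== part 10: formerly Pool.Agent.MP_1a6d78_lc.PR.SecU
section MrgPart10

/-! Row SECU: the pairings induced on the sectors. -/

namespace Pool.Agent.MP_1a6d78_lc.PR

open Classical ED

namespace SecU

variable {L : Ln} {P : ℕ → Prop} {f : ℕ → ℕ}

theorem ind_or (L : Ln) (P : ℕ → Prop) (f : ℕ → ℕ) (i : ℕ) :
    L.ind P f i = i ∨ ∃ d < L.n, L.rk d = i ∧ P d := by
  by_cases h : ∃ d < L.n, L.rk d = i ∧ P d
  · exact Or.inr h
  · exact Or.inl (if_neg h)

theorem ind_eq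
    (hw : ∀ d < L.n, ∀ e < L.n, P d → P e → L.rk d = L.rk e → L.rk (f d) = L.rk (f e))
    {d : ℕ} (hd : d < L.n) (hP : P d) : L.ind P f (L.rk d) = L.rk (f d) := by
  have h : ∃ e < L.n, L.rk e = L.rk d ∧ P e := ⟨d, hd, rfl, hP⟩
  obtain ⟨h1, h2, h3⟩ := lst_spec h
  exact (if_pos h).trans (hw _ h1 d hd h3 hP h2)

theorem ind_all (K : L.SecK) (hf : Iv L.n f) (hn : Nc L.n L.pos f)
    (hP : ∀ d < L.n, P d → P (f d))
    (hw : ∀ d < L.n, ∀ e < L.n, P d → P e → L.rk d = L.rk e → L.rk (f d) = L.rk (f e)) :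
    Iv L.q (L.ind P f) ∧ Nc L.q id (L.ind P f) := by
  have pos : ∀ d < L.n, ∀ e < L.n, L.rk d < L.rk e → L.pos d < L.pos e := fun d hd e he h =>
    not_le.1 fun k => not_le.2 h (K.mono e he d hd k)
  refine ⟨fun i hi => ?_, fun a _ c _ h => ?_⟩
  · rcases ind_or L P f i with h | ⟨d, hd, rfl, h⟩
    · rw [h]; exact ⟨hi, h⟩
    · rw [ind_eq hw hd h, ind_eq hw (hf d hd).1 (hP d hd h), (hf d hd).2]
      exact ⟨K.lt _ (hf d hd).1, rfl⟩
  · obtain ⟨h1, h2, h3⟩ : a < c ∧ c < L.ind P f a ∧ L.ind P f a < L.ind P f c := h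
    rcases ind_or L P f a with k | ⟨d, hd, rfl, k⟩
    · omega
    rcases ind_or L P f c with k' | ⟨e, he, rfl, k'⟩
    · omega
    rw [ind_eq hw hd k] at h2 h3
    rw [ind_eq hw he k'] at h3
    exact hn d hd e he ⟨pos d hd e he h1, pos e he _ (hf d hd).1 h2,
      pos _ (hf d hd).1 _ (hf e he).1 h3⟩

theorem ess_o (h : L.Ok) {d : ℕ} (hd : d < L.n) (k : L.ess d) : L.ess (L.o d) := by
  unfold Ln.ess at k ⊢
  rw [(h.iv d hd).2]
  exact k.symm

theorem ess_wd (h : L.Ok) (K : L.SecK) (d : ℕ) (hd : d < L.n) (e : ℕ) (he : e < L.n)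
    (kd : L.ess d) (ke : L.ess e) (r : L.rk d = L.rk e) : L.rk (L.o d) = L.rk (L.o e) := by
  obtain ⟨h1, h2⟩ := (K.same d hd e he).1 r
  rw [K.keye d hd kd, K.keye e he ke] at h2
  refine (K.same _ (h.iv d hd).1 _ (h.iv e he).1).2 ⟨by omega, ?_⟩
  rw [K.keye _ (h.iv d hd).1 (ess_o h hd kd), K.keye _ (h.iv e he).1 (ess_o h he ke),
    (h.iv d hd).2, (h.iv e he).2, h1]

end SecU

open SecU in
theorem secUS : SecUS := by
  intro L h K
  have a := ind_all (P := L.ess) K h.iv h.nc (fun _ => ess_o h) (ess_wd h K)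
  refine ⟨a.1, a.2, fun d hd => ?_, fun d hd k e => ?_, fun P τ h1 h2 h3 h4 => ?_⟩
  · by_cases k : L.ess d
    · exact Or.inr (ind_eq (ess_wd h K) hd k).symm
    · exact Or.inl (K.ines d hd k)
  · refine (ind_or L L.ess L.o (L.rk d)).resolve_right ?_
    rintro ⟨d', k1, k2, k3⟩
    rw [K.sing d hd d' k1 k ((K.same d' k1 d hd).1 k2).1] at k3
    exact k3 (by rw [e])
  · have hw : ∀ d < L.n, ∀ e < L.n, P d → P e → L.rk d = L.rk e → L.rk (τ d) = L.rk (τ e) :=
      fun d hd e he k _ r => by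
        rw [K.sing d hd e he (h3 d hd k) ((K.same d hd e he).1 r).1.symm]
    have b := ind_all K h1 h2 h4 hw
    exact ⟨b.1, b.2, fun d hd k => ind_eq hw hd k, ind_or L P τ⟩

end Pool.Agent.MP_1a6d78_lc.PR

end MrgPart10

-- ======== part 11: formerly Pool.Agent.MP_1a6d78_lc.PR.Sect
section MrgPart11

/-! PROJECT PR, module SECT: blocks, keys and sectors of darts on a line. -/

namespace Pool.Agent.MP_1a6d78_lc.PR

open Classical ED

namespace Ln

variable {L : Ln}

theorem blk_lt_sp {d e : ℕ} (hd : d < L.n) (hs : L.sp d) (h : L.pos d < L.pos e) :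
    L.blk d < L.blk e := by
  have := cnt_lt (P := fun x => L.sp x ∧ L.pos x < L.pos d)
    (Q := fun x => L.sp x ∧ L.pos x < L.pos e) (fun a _ k => ⟨k.1, k.2.trans h⟩) hd ⟨hs, h⟩
    fun k => lt_irrefl _ k.2
  unfold blk
  rw [if_pos hs]
  omega

theorem blk_mono (H : L.Ok) {d e : ℕ} (hd : d < L.n) (he : e < L.n) (h : L.pos d ≤ L.pos e) :
    L.blk d ≤ L.blk e := by
  rcases h.eq_or_lt with k | k
  · rw [H.inj d hd e he k]
  by_cases hs : L.sp d
  · exact (blk_lt_sp hd hs k).le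
  have := cnt_mono (n := L.n) (P := fun x => L.sp x ∧ L.pos x < L.pos d)
    (Q := fun x => L.sp x ∧ L.pos x < L.pos e) fun a _ k' => ⟨k'.1, k'.2.trans k⟩
  unfold blk
  rw [if_neg hs]
  omega

theorem pos_lt (H : L.Ok) {d e : ℕ} (hd : d < L.n) (he : e < L.n) (h : L.blk d < L.blk e) :
    L.pos d < L.pos e :=
  lt_of_not_ge fun k => absurd (blk_mono H he hd k) (not_le.2 h)

theorem blk_lt_sp' {d f : ℕ} (hd : d < L.n) (hs : L.sp f) (h : L.pos d < L.pos f) :
    L.blk d < L.blk f := by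
  by_cases hs' : L.sp d
  · exact blk_lt_sp hd hs' h
  have := cnt_mono (n := L.n) (P := fun x => L.sp x ∧ L.pos x < L.pos d)
    (Q := fun x => L.sp x ∧ L.pos x < L.pos f) fun a _ k' => ⟨k'.1, k'.2.trans h⟩
  unfold blk
  rw [if_neg hs', if_pos hs]
  omega

theorem sing' (H : L.Ok) {d e : ℕ} (hd : d < L.n) (he : e < L.n) (hs : L.sp d)
    (h : L.blk e = L.blk d) : e = d := by
  rcases lt_trichotomy (L.pos e) (L.pos d) with k | k | k
  · exact absurd h (blk_lt_sp' he hs k).ne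
  · exact H.inj e he d hd k
  · exact absurd h (blk_lt_sp hd hs k).ne'

/-- The next essential dart of the block. -/
noncomputable def nxt (L : Ln) (d : ℕ) : ℕ :=
  lst L.n fun e => L.aft d e ∧ ∀ e' < L.n, L.aft d e' → L.pos e ≤ L.pos e'

theorem nxt_spec {d : ℕ} (h : ∃ e < L.n, L.aft d e) :
    L.nxt d < L.n ∧ L.aft d (L.nxt d) ∧ ∀ e' < L.n, L.aft d e' → L.pos (L.nxt d) ≤ L.pos e' := by
  obtain ⟨e, h1, h2⟩ := h
  obtain ⟨m, k1, k2⟩ := Finset.exists_min_image ((Finset.range L.n).filter (L.aft d)) L.pos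
    ⟨e, Finset.mem_filter.2 ⟨Finset.mem_range.2 h1, h2⟩⟩
  rw [Finset.mem_filter, Finset.mem_range] at k1
  exact lst_spec (P := fun e => L.aft d e ∧ ∀ e' < L.n, L.aft d e' → L.pos e ≤ L.pos e')
    ⟨m, k1.1, k1.2, fun e' a b => k2 e' (Finset.mem_filter.2 ⟨Finset.mem_range.2 a, b⟩)⟩

theorem key_pos {d : ℕ} (h : ∃ e < L.n, L.aft d e) : L.key d = L.blk (L.o (L.nxt d)) + 1 := by
  unfold key
  rw [if_pos h]
  rfl

theorem key_zero {d : ℕ} (h : ¬∃ e < L.n, L.aft d e) : L.key d = 0 := by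
  unfold key
  rw [if_neg h]

theorem key_ess (H : L.Ok) {d : ℕ} (hd : d < L.n) (h : L.ess d) :
    L.key d = L.blk (L.o d) + 1 := by
  have h1 : L.aft d d := ⟨rfl, le_rfl, h⟩
  obtain ⟨k1, k2, k3⟩ := nxt_spec ⟨d, hd, h1⟩
  rw [key_pos ⟨d, hd, h1⟩, H.inj _ k1 d hd (le_antisymm (k3 d hd h1) k2.2.1)]

/-- An essential chord between two chords from the same block to the same block. -/
theorem nest (H : L.Ok) {x y z : ℕ} (hx : x < L.n) (hy : y < L.n) (hz : z < L.n)
    (h1 : L.pos x ≤ L.pos y) (h2 : L.pos y ≤ L.pos z) (b1 : L.blk y = L.blk x)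
    (b2 : L.blk z = L.blk x) (ex : L.ess x) (ey : L.ess y) (e : L.blk (L.o x) = L.blk (L.o z)) :
    L.blk (L.o y) = L.blk (L.o x) := by
  rcases h1.eq_or_lt with k | k
  · rw [H.inj x hx y hy k]
  rcases h2.eq_or_lt with k' | k'
  · rw [H.inj y hy z hz k', e]
  obtain ⟨ox, ix⟩ := H.iv x hx
  obtain ⟨oy, iy⟩ := H.iv y hy
  obtain ⟨oz, iz⟩ := H.iv z hz
  unfold ess at ex ey
  by_contra hne
  rcases lt_or_gt_of_ne ex with c | c
  · rcases lt_or_gt_of_ne ey with c' | c'
    · rcases lt_or_gt_of_ne hne with c'' | c''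
      · refine H.nc _ oy _ oz ⟨pos_lt H oy oz (by omega), ?_, ?_⟩
        · rw [iy]; exact pos_lt H oz hy (by omega)
        · rw [iy, iz]; exact k'
      · refine H.nc _ ox _ oy ⟨pos_lt H ox oy c'', ?_, ?_⟩
        · rw [ix]; exact pos_lt H oy hx (by omega)
        · rw [ix, iy]; exact k
    · refine H.nc _ oz _ hy ⟨pos_lt H oz hy (by omega), ?_, ?_⟩
      · rw [iz]; exact k'
      · rw [iz]; exact pos_lt H hz oy (by omega)
  · rcases lt_or_gt_of_ne ey with c' | c'
    · refine H.nc _ oy _ hx ⟨pos_lt H oy hx (by omega), ?_, ?_⟩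
      · rw [iy]; exact k
      · rw [iy]; exact pos_lt H hy ox (by omega)
    · rcases lt_or_gt_of_ne hne with c'' | c''
      · exact H.nc _ hy _ hz ⟨k', pos_lt H hz oy (by omega), pos_lt H oy oz (by omega)⟩
      · exact H.nc _ hx _ hy ⟨k, pos_lt H hy ox (by omega), pos_lt H ox oy c''⟩

theorem aft_mono {a c e : ℕ} (h : L.pos a ≤ L.pos c) (b : L.blk c = L.blk a) (k : L.aft c e) :
    L.aft a e := ⟨k.1.trans b, h.trans k.2.1, k.2.2⟩

/-- The sectors are intervals. -/
theorem convex (H : L.Ok) {a c b : ℕ} (ha : a < L.n) (hc : c < L.n) (hb : b < L.n)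
    (h1 : L.pos a ≤ L.pos c) (h2 : L.pos c ≤ L.pos b) (e1 : L.blk a = L.blk b)
    (e2 : L.key a = L.key b) : L.blk c = L.blk a ∧ L.key c = L.key a := by
  have hca : L.blk c = L.blk a :=
    le_antisymm (e1 ▸ blk_mono H hc hb h2) (blk_mono H ha hc h1)
  have hbc : L.blk b = L.blk c := by omega
  refine ⟨hca, ?_⟩
  by_cases h : ∃ e < L.n, L.aft b e
  · have h' : ∃ e < L.n, L.aft c e := h.imp fun e k => ⟨k.1, aft_mono h2 hbc k.2⟩
    have h'' : ∃ e < L.n, L.aft a e := h'.imp fun e k => ⟨k.1, aft_mono h1 hca k.2⟩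
    obtain ⟨a1, a2, a3⟩ := nxt_spec h''
    obtain ⟨c1, c2, c3⟩ := nxt_spec h'
    obtain ⟨b1, b2, _⟩ := nxt_spec h
    rw [key_pos h'', key_pos h] at e2
    rw [key_pos h', key_pos h'', nest H a1 c1 b1 (a3 _ c1 (aft_mono h1 hca c2))
      (c3 _ b1 (aft_mono h2 hbc b2)) (c2.1.trans (hca.trans a2.1.symm))
      (b2.1.trans (e1.symm.trans a2.1.symm)) a2.2.2 c2.2.2 (by omega)]
  · have h'' : ¬∃ e < L.n, L.aft a e := fun k => by
      rw [key_pos k, key_zero h] at e2
      omega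
    rw [key_zero h'', key_zero fun k => h'' (k.imp fun e k => ⟨k.1, aft_mono h1 hca k.2⟩)]

theorem first {d : ℕ} (hd : d < L.n) :
    ∃ f < L.n, L.fs f ∧ L.blk f = L.blk d ∧ L.key f = L.key d ∧ L.pos f ≤ L.pos d := by
  have h0 : d ∈ (Finset.range L.n).filter fun e => L.blk e = L.blk d ∧ L.key e = L.key d :=
    Finset.mem_filter.2 ⟨Finset.mem_range.2 hd, rfl, rfl⟩
  obtain ⟨m, k1, k2⟩ := Finset.exists_min_image _ L.pos ⟨d, h0⟩
  rw [Finset.mem_filter, Finset.mem_range] at k1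
  exact ⟨m, k1.1, fun e he a b => k2 e (Finset.mem_filter.2
    ⟨Finset.mem_range.2 he, a.trans k1.2.1, b.trans k1.2.2⟩), k1.2.1, k1.2.2, k2 d h0⟩

theorem rk_succ {d : ℕ} (hd : d < L.n) :
    L.rk d + 1 = cnt L.n fun e => L.fs e ∧ L.pos e ≤ L.pos d := by
  obtain ⟨f, h1, h2, _, _, h3⟩ := first hd
  have := cnt_pos (P := fun e => L.fs e ∧ L.pos e ≤ L.pos d) h1 ⟨h2, h3⟩
  unfold rk
  omega

theorem same_le (H : L.Ok) {d e : ℕ} (hd : d < L.n) (he : e < L.n) (h : L.pos d ≤ L.pos e) :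
    L.rk d = L.rk e ↔ L.blk d = L.blk e ∧ L.key d = L.key e := by
  constructor
  · intro k
    obtain ⟨f, h1, h2, h3, h4, h5⟩ := first he
    by_cases c : L.pos f ≤ L.pos d
    · obtain ⟨a, b⟩ := convex H h1 hd he c h h3 h4
      exact ⟨a.trans h3, b.trans h4⟩
    · have := cnt_lt (P := fun x => L.fs x ∧ L.pos x ≤ L.pos d)
        (Q := fun x => L.fs x ∧ L.pos x ≤ L.pos e) (fun a _ k => ⟨k.1, k.2.trans h⟩) h1 ⟨h2, h5⟩
        fun k => c k.2
      rw [← rk_succ hd, ← rk_succ he] at this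
      omega
  · rintro ⟨k1, k2⟩
    unfold rk
    congr 1
    refine cnt_congr fun x hx => ⟨fun k => ⟨k.1, k.2.trans h⟩, fun k => ⟨k.1, ?_⟩⟩
    by_contra c
    obtain ⟨a, b⟩ := convex H hd hx he (not_le.1 c).le k.2 k1 k2
    exact c (k.1 d hd a.symm b.symm)

theorem same' (H : L.Ok) {d e : ℕ} (hd : d < L.n) (he : e < L.n) :
    L.rk d = L.rk e ↔ L.blk d = L.blk e ∧ L.key d = L.key e := by
  rcases le_total (L.pos d) (L.pos e) with h | h
  · exact same_le H hd he h
  · rw [eq_comm, same_le H he hd h]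
    exact ⟨fun k => ⟨k.1.symm, k.2.symm⟩, fun k => ⟨k.1.symm, k.2.symm⟩⟩

theorem step' (H : L.Ok) {d e : ℕ} (hd : d < L.n) (he : e < L.n) (h : L.pos e = L.pos d + 1) :
    L.rk e = L.rk d ∨ (L.rk e = L.rk d + 1 ∧ L.fs e) := by
  have k1 := rk_succ hd
  have k2 := rk_succ he
  have split : ∀ x < L.n, L.pos x ≤ L.pos e → L.pos x ≤ L.pos d ∨ x = e := fun x hx k =>
    k.eq_or_lt.elim (fun c => Or.inr (H.inj x hx e he c)) fun c => Or.inl (by omega)
  by_cases c : L.fs e
  · refine Or.inr ⟨?_, c⟩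
    have a1 := cnt_lt (P := fun x => L.fs x ∧ L.pos x ≤ L.pos d)
      (Q := fun x => L.fs x ∧ L.pos x ≤ L.pos e) (fun a _ k => ⟨k.1, by omega⟩) he ⟨c, le_rfl⟩
      fun k => by omega
    have a2 := cnt_mono (n := L.n) (P := fun x => L.fs x ∧ L.pos x ≤ L.pos e)
      (Q := fun x => (L.fs x ∧ L.pos x ≤ L.pos d) ∨ x = e) fun x hx k =>
        (split x hx k.2).imp_left fun k' => ⟨k.1, k'⟩
    have a3 := cnt_or L.n (fun x => L.fs x ∧ L.pos x ≤ L.pos d) fun x => x = e
    have a4 := (cnt_inj (n := L.n) (m := 1) (P := fun x => x = e) (Q := fun _ => True)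
      (fun _ => 0) (fun _ _ _ => ⟨Nat.one_pos, trivial⟩)
      fun _ _ _ _ a b _ => a.trans b.symm).trans (cnt_le _ _)
    omega
  · left
    have := cnt_congr (n := L.n) (P := fun x => L.fs x ∧ L.pos x ≤ L.pos e)
      (Q := fun x => L.fs x ∧ L.pos x ≤ L.pos d) fun x hx =>
        ⟨fun k => ⟨k.1, (split x hx k.2).resolve_right fun k' => c (k' ▸ k.1)⟩,
          fun k => ⟨k.1, by omega⟩⟩
    omega

theorem key_ines (H : L.Ok) {a : ℕ} (ha : a < L.n) (h : ¬L.ess a) (hp : L.pos a ≤ L.pos (L.o a)) :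
    L.key (L.o a) = L.key a := by
  have hb : L.blk (L.o a) = L.blk a := not_not.1 h
  obtain ⟨oa, _⟩ := H.iv a ha
  have k : ∀ e < L.n, L.aft (L.o a) e ↔ L.aft a e := by
    refine fun e he => ⟨aft_mono hp hb, fun k => ⟨k.1.trans hb.symm, ?_, k.2.2⟩⟩
    obtain ⟨oe, ie⟩ := H.iv e he
    obtain ⟨k1, k2, k3⟩ := k
    by_contra c
    have c1 : L.pos a < L.pos e := k2.lt_of_ne fun c' => h (H.inj a ha e he c' ▸ k3)
    rcases lt_or_gt_of_ne k3 with c' | c'
    · refine H.nc _ oe _ ha ⟨pos_lt H oe ha (by omega), ?_, ?_⟩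
      · rw [ie]; exact c1
      · rw [ie]; exact not_le.1 c
    · exact H.nc _ ha _ he ⟨c1, not_le.1 c, pos_lt H oa oe (by omega)⟩
  by_cases c : ∃ e < L.n, L.aft a e
  · have c' : ∃ e < L.n, L.aft (L.o a) e := c.imp fun e k' => ⟨k'.1, (k e k'.1).2 k'.2⟩
    have e : L.nxt (L.o a) = L.nxt a := lst_congr fun m hm => and_congr (k m hm)
      ⟨fun t x hx u => t x hx ((k x hx).2 u), fun t x hx u => t x hx ((k x hx).1 u)⟩
    rw [key_pos c, key_pos c', e]
  · rw [key_zero c, key_zero fun c' => c (c'.imp fun e k' => ⟨k'.1, (k e k'.1).1 k'.2⟩)]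

theorem ines' (H : L.Ok) {d : ℕ} (hd : d < L.n) (h : ¬L.ess d) : L.rk (L.o d) = L.rk d := by
  have hb : L.blk (L.o d) = L.blk d := not_not.1 h
  obtain ⟨od, id⟩ := H.iv d hd
  refine (same' H od hd).2 ⟨hb, ?_⟩
  rcases le_total (L.pos d) (L.pos (L.o d)) with c | c
  · exact key_ines H hd h c
  · have := key_ines H od (fun k => k (by rw [id, hb])) (by rw [id]; exact c)
    rw [id] at this
    exact this.symm

end Ln

theorem sectS : SectS := fun L H =>
  { lt := fun d hd => by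
      have h1 := Ln.rk_succ hd
      have h2 := cnt_mono (n := L.n) (P := fun e => L.fs e ∧ L.pos e ≤ L.pos d) (Q := L.fs)
        fun _ _ k => k.1
      unfold Ln.q
      omega
    mono := fun _ _ _ _ h =>
      Nat.sub_le_sub_right (cnt_mono fun _ _ k => ⟨k.1, k.2.trans h⟩) 1
    same := fun _ hd _ he => Ln.same' H hd he
    step := fun _ hd _ he h => Ln.step' H hd he h
    finj := fun d hd e he h1 h2 h => by
      obtain ⟨a, b⟩ := (Ln.same' H hd he).1 h
      exact H.inj d hd e he (le_antisymm (h1 e he a.symm b.symm) (h2 d hd a b))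
    sing := fun _ hd _ he h1 h2 => Ln.sing' H hd he h1 h2
    gap := fun _ hd _ he _ hf hs h1 h2 =>
      (Ln.blk_lt_sp' hd hs h1).trans_le (Ln.blk_mono H hf he h2)
    keye := fun _ hd h => Ln.key_ess H hd h
    ines := fun _ hd h => Ln.ines' H hd h }

end Pool.Agent.MP_1a6d78_lc.PR

end MrgPart11

-- ======== part 12: formerly Pool.Agent.MP_1a6d78_lc.PR.St
section MrgPart12

/-! PROJECT PR, row ST: labels are constant round the nodes of a subtree. -/

namespace Pool.Agent.MP_1a6d78_lc.PR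

open Classical ED

theorem stS : StS := by
  intro n H ρ τ nd pd ht lab Y sta hρ hτ hnd hpd hH hch hsr hsu ha hb
  have ndρ : ∀ x < n, nd (ρ x) = nd x := fun x hx =>
    ((hnd x hx (ρ x) (hρ.1 x hx)).2 (Sc.step hρ.1 hx)).symm
  have up : ∀ x < n, pd (nd (τ x)) = τ x → Y (nd (τ x)) → lab (ρ (τ x)) = lab x := by
    intro x hx e hY
    have h1 := (hτ x hx).1
    refine ha x hx (by rw [ndρ _ h1]; exact hY) fun k => ?_
    have := hsr _ (hρ.1 _ h1) k (by rw [ndρ _ h1]; exact hY)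
    rw [ndρ _ h1, e] at this
    omega
  have key : ∀ k, ∀ d < n, H - ht (nd d) = k → Y (nd d) → ∀ e < n, nd e = nd d →
      lab e = lab d := by
    intro k
    induction k using Nat.strong_induction_on with
    | _ k ih =>
    intro d hd hk hY
    have ex : ∃ m < n, nd m = nd d ∧
        ∀ x < n, nd x = nd d → ρ x ≠ m → ¬sta (ρ x) ∧ pd (nd x) ≠ x := by
      by_cases h1 : pd (nd d) < n
      · refine ⟨ρ (pd (nd d)), hρ.1 _ h1, by rw [ndρ _ h1, hpd d hd h1], fun x hx e k' => ⟨?_, ?_⟩⟩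
        · intro s
          have := hsr _ (hρ.1 x hx) s (by rw [ndρ x hx, e]; exact hY)
          rw [ndρ x hx, e] at this
          omega
        · intro s
          rw [e] at s
          exact k' (by rw [s])
      · have np : ∀ x < n, nd x = nd d → pd (nd x) ≠ x := fun x hx e s => by
          rw [e] at s
          omega
        by_cases h2 : ∃ m < n, nd m = nd d ∧ sta m
        · obtain ⟨m, hm, e, s⟩ := h2
          exact ⟨m, hm, e, fun x hx e' k' => ⟨fun s' =>
            k' (hsu _ (hρ.1 x hx) m hm s' s (by rw [ndρ x hx, e', e])), np x hx e'⟩⟩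
        · exact ⟨d, hd, rfl, fun x hx e' _ => ⟨fun s' =>
            h2 ⟨ρ x, hρ.1 x hx, by rw [ndρ x hx, e'], s'⟩, np x hx e'⟩⟩
    obtain ⟨m, hm, em, hx⟩ := ex
    have rd : ∀ a < n, nd a = nd d → lab a = lab m := by
      intro a ha' e
      refine Sc.round hρ.1 hm (fun x hx' sc k' => ?_) ((hnd m hm a ha').1 (em.trans e.symm))
      have e' : nd x = nd d := ((hnd m hm x hx').2 sc).symm.trans em
      obtain ⟨s1, s2⟩ := hx x hx' e' k'
      obtain ⟨t1, t2⟩ := hτ x hx'
      have hYx : Y (nd x) := by rw [e']; exact hY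
      have h1 : lab (ρ x) = lab (τ x) := by
        have := ha (τ x) t1 (by rw [t2, ndρ x hx']; exact hYx) (by rw [t2]; exact s1)
        rwa [t2] at this
      rw [h1]
      by_cases c1 : τ x = x
      · rw [c1]
      by_cases c2 : pd (nd (τ x)) = τ x
      · obtain ⟨y1, y2⟩ := hch x hx' c1 c2 hYx
        have y3 := hH _ t1 y1
        rw [e'] at y2
        have := ih (H - ht (nd (τ x))) (by omega) (τ x) t1 rfl y1 (ρ (τ x)) (hρ.1 _ t1) (ndρ _ t1)
        rw [← this, up x hx' c2 y1]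
      · exact hb x hx' c1 s2 c2 hYx
    intro e he ee
    rw [rd e he ee, rd d hd rfl]
  refine ⟨fun d hd e he ee hY => (key _ d hd rfl hY e he ee.symm).symm, fun d hd c hY hY' => ?_⟩
  obtain ⟨t1, t2⟩ := hτ d hd
  by_cases c2 : pd (nd (τ d)) = τ d
  · rw [← up d hd c2 hY']
    exact (key _ _ t1 rfl hY' _ (hρ.1 _ t1) (ndρ _ t1)).symm
  by_cases c3 : pd (nd d) = d
  · have := up (τ d) t1 (by rw [t2]; exact c3) (by rw [t2]; exact hY)
    rw [t2] at this
    rw [← this]
    exact key _ _ hd rfl hY _ (hρ.1 _ hd) (ndρ _ hd)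
  · exact hb d hd c c3 c2 hY

end Pool.Agent.MP_1a6d78_lc.PR

end MrgPart12

-- ======== part 13: formerly Pool.Agent.MP_1a6d78_lc.PR.Swap
section MrgPart13

/-! PROJECT PR: cycles after a transposition. -/

namespace Pool.Agent.MP_1a6d78_lc.PR

open Classical ED

namespace Swap

variable {n a b : ℕ} {f : ℕ → ℕ}

theorem sw_a (a b : ℕ) : sw a b a = b := if_pos rfl

theorem sw_b (a b : ℕ) : sw a b b = a := by
  unfold sw
  split_ifs with h1 h2
  · exact h1
  · rfl
  · exact absurd rfl h2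

theorem sw_ne {d : ℕ} (h1 : d ≠ a) (h2 : d ≠ b) : sw a b d = d := by
  rw [sw, if_neg h1, if_neg h2]

theorem pm (hf : Pm n f) (ha : a < n) (hb : b < n) : Pm n fun d => f (sw a b d) := by
  refine hf.comp ⟨fun d hd => ?_, fun c _ d _ e => ?_⟩
  · unfold sw
    split_ifs <;> assumption
  · unfold sw at e
    split_ifs at e <;> omega

theorem inv {z i k : ℕ} (h : i < k) (hi : ∀ s ≤ k, ∀ t ≤ k, f^[s] z = f^[t] z → s = t) {d : ℕ}
    (hd : ∃ t, i < t ∧ t ≤ k ∧ d = f^[t] z) :
    ∃ t, i < t ∧ t ≤ k ∧ f (sw (f^[i] z) (f^[k] z) d) = f^[t] z := by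
  obtain ⟨t, h1, h2, rfl⟩ := hd
  rcases h2.eq_or_lt with rfl | h3
  · exact ⟨i + 1, by omega, h, by rw [sw_b, Function.iterate_succ_apply']⟩
  · refine ⟨t + 1, by omega, h3, ?_⟩
    rw [sw_ne (fun e => h1.ne' (hi t h2 i h.le e)) (fun e => h3.ne (hi t h2 k le_rfl e)),
      Function.iterate_succ_apply']

theorem join (hf : Pm n f) (ha : a < n) (hb : b < n) (h : ¬Sc n f a b) :
    Sc n (fun d => f (sw a b d)) a b := by
  have hg := pm hf ha hb
  have key : ∀ t, Sc n (fun d => f (sw a b d)) a (f^[t + 1] b) ∨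
      Sc n (fun d => f (sw a b d)) a b := by
    intro t
    induction t with
    | zero =>
      have := Sc.step hg.1 ha
      rw [sw_a] at this
      exact Or.inl this
    | succ t ih =>
      refine ih.elim (fun k => ?_) Or.inr
      by_cases e : f^[t + 1] b = b
      · exact Or.inr (by rwa [e] at k)
      have e' : f^[t + 1] b ≠ a := fun e' => h (Sc.symm hf hb ((sc_iff hf.1 hb).2 ⟨_, e'⟩))
      have := k.trans hg.1 ha (Sc.step hg.1 (k.lt hg.1 ha))
      rw [sw_ne e' e, ← Function.iterate_succ_apply' f] at this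
      exact Or.inl this
  obtain ⟨p, h1, h2⟩ := hf.period hb
  obtain ⟨p, rfl⟩ : ∃ p', p = p' + 1 := ⟨p - 1, by omega⟩
  exact (key p).elim (fun k => by rwa [h2] at k) id

theorem up (hf : Pm n f) (ha : a < n) (hb : b < n) (h : ¬Sc n f a b) {x y : ℕ} (hx : x < n)
    (k : Sc n f x y) : Sc n (fun d => f (sw a b d)) x y := by
  have hg := pm hf ha hb
  have j := join hf ha hb h
  refine Sc.ind hf.1 hx (Sc.refl _ hx) (fun d hd k => k.trans hg.1 hx ?_) k
  by_cases e : d = a
  · have := j.trans hg.1 ha (Sc.step hg.1 hb)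
    rw [e]
    rwa [sw_b] at this
  by_cases e' : d = b
  · have := (j.symm hg ha).trans hg.1 hb (Sc.step hg.1 ha)
    rw [e']
    rwa [sw_a] at this
  · have := Sc.step hg.1 hd
    rwa [sw_ne e e'] at this

theorem down (hf : Pm n f) (ha : a < n) (hb : b < n) {x y : ℕ} (hx : x < n)
    (k : Sc n (fun d => f (sw a b d)) x y) : Mg (Sc n f) a b x y := by
  refine Sc.ind (pm hf ha hb).1 (Q := Mg (Sc n f) a b x) hx (Or.inl (Sc.refl _ hx))
    (fun d hd k => ?_) k
  by_cases e : d = a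
  · subst e
    rw [sw_a]
    rcases k with k | k | k
    · exact Or.inr (Or.inl ⟨k, Sc.step hf.1 hb⟩)
    · exact Or.inr (Or.inl ⟨k.1, Sc.step hf.1 hb⟩)
    · exact Or.inl (k.1.trans hf.1 hx (Sc.step hf.1 hb))
  by_cases e' : d = b
  · subst e'
    rw [sw_b]
    rcases k with k | k | k
    · exact Or.inr (Or.inr ⟨k, Sc.step hf.1 ha⟩)
    · exact Or.inl (k.1.trans hf.1 hx (Sc.step hf.1 ha))
    · exact Or.inr (Or.inr ⟨k.1, Sc.step hf.1 ha⟩)
  · rw [sw_ne e e']
    have s := Sc.step hf.1 hd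
    rcases k with k | k | k
    · exact Or.inl (k.trans hf.1 hx s)
    · exact Or.inr (Or.inl ⟨k.1, k.2.trans hf.1 hb s⟩)
    · exact Or.inr (Or.inr ⟨k.1, k.2.trans hf.1 ha s⟩)

end Swap

open Swap in
theorem swapK : SwapK where
  pm := pm
  merge := fun {n f a b} hf ha hb h x hx y _ => by
    have hg := pm hf ha hb
    have j := join hf ha hb h
    refine ⟨down hf ha hb hx, ?_⟩
    rintro (k | k | k)
    · exact up hf ha hb h hx k
    · exact ((up hf ha hb h hx k.1).trans hg.1 hx j).trans hg.1 hx (up hf ha hb h hb k.2)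
    · exact ((up hf ha hb h hx k.1).trans hg.1 hx (j.symm hg ha)).trans hg.1 hx
        (up hf ha hb h ha k.2)
  split := fun {n f a b} hf ha hb ne h k => by
    have hg := pm hf ha hb
    have ex := (sc_iff hf.1 ha).1 h
    have h1 := Nat.find_spec ex
    have hi := iter_first h1 fun _ k => Nat.find_min ex k
    generalize Nat.find ex = m at h1 hi
    subst h1
    have m0 : 0 < m := Nat.pos_of_ne_zero fun e => ne (by rw [e]; rfl)
    obtain ⟨t, t1, t2, t3⟩ := Sc.ind hg.1 (Q := fun d => ∃ t, 0 < t ∧ t ≤ m ∧ d = f^[t] a) hb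
      ⟨m, m0, le_rfl, rfl⟩ (fun d _ hd => inv m0 hi hd) (k.symm hg ha)
    exact t1.ne (hi 0 m0.le t t2 t3)
  sep := fun {n f z i j k l} hf hz h1 h2 h3 hi s => by
    have lt := iter_inv (Q := fun a => a < n) hf.1 hz
    obtain ⟨t, _, t2, t3⟩ := Sc.ind (pm hf (lt i) (lt k)).1
      (Q := fun d => ∃ t, i < t ∧ t ≤ k ∧ d = f^[t] z) (lt j) ⟨j, h1, h2, rfl⟩
      (fun d _ hd => inv (by omega) (fun s a t b => hi s (by omega) t (by omega)) hd) s
    have := hi l le_rfl t (by omega) t3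
    omega

end Pool.Agent.MP_1a6d78_lc.PR

end MrgPart13

-- ======== part 14: formerly Pool.Agent.MP_1a6d78_lc.PR.Tab
section MrgPart14

/-! PROJECT PR, row TAB: the tables of promoted vertices. -/

namespace Pool.Agent.MP_1a6d78_lc.PR

open Classical ED

namespace Tab

theorem gt_tab {n e : ℕ} (f : ℕ → ℕ) (h : e < n) : gt (tab n f) e = f e := by
  simp [gt, tab, List.getD_eq_getElem?_getD, h]

/-- The least strict upper bound of the good numbers below `N`. -/
theorem bnd (N : ℕ) (a b : ℕ → Prop) :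
    (∀ s < N, a s → b s → s < lst (N + 1) fun τ => ∀ s < N, a s → b s → s < τ) ∧
      ∀ s, s + 1 = (lst (N + 1) fun τ => ∀ s < N, a s → b s → s < τ) → s < N ∧ a s ∧ b s := by
  obtain ⟨h1, h2⟩ := lst_spec (n := N + 1) (P := fun τ => ∀ s < N, a s → b s → s < τ)
    ⟨N, N.lt_succ_self, fun s h _ _ => h⟩
  refine ⟨h2, fun s hs => ⟨by omega, ?_⟩⟩
  by_contra k
  have := lst_le (n := N + 1) (m := s) (P := fun τ => ∀ s < N, a s → b s → s < τ) (by omega)
    fun u hu ha hb => by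
      have := h2 u hu ha hb
      rcases (show u < s ∨ u = s by omega) with c | c
      · exact c
      · exact absurd ⟨c ▸ ha, c ▸ hb⟩ k
  omega

variable {N R : ℕ} {arc : ℕ → ℕ → Prop} {l : LD} {f : (ℕ → Prop) → ℕ → Prop} {B : ℕ → Prop}
  {z : ℕ}

/-- The entry of the table. -/
noncomputable def ent (l : LD) (N z : ℕ) (g : ℕ → Prop) (e : ℕ) : ℕ :=
  lst (N + 1) fun τ => ∀ s < N, ¬l.K (it N l.fo.par s (l.ml N z e)) →
    g (it N l.fo.par s (l.ml N z e)) → s < τ

theorem tb_succ (t : ℕ) : l.tb N R f B z (t + 1) =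
    tab R (ent l N z (f fun u => B u ∨ l.P N R f B z t u)) := rfl

theorem P_succ (t v : ℕ) : l.P N R f B z (t + 1) v ↔ ∃ e < R, l.ml N z e < N ∧
    ∃ s < ent l N z (f fun u => B u ∨ l.P N R f B z t u) e, it N l.fo.par s (l.ml N z e) = v := by
  unfold LD.P LD.inP
  rw [tb_succ]
  refine exists_congr fun e => and_congr_right fun he => ?_
  rw [gt_tab _ he]
  rfl

theorem P_zero (v : ℕ) : ¬l.P N R f B z 0 v := by
  rintro ⟨e, he, -, s, hs, -⟩
  have : gt (l.tb N R f B z 0) e = 0 := gt_tab (fun _ => 0) he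
  omega

theorem live_par (h : l.Ok N R arc) (a : ℕ) (k : l.fo.live a) : l.fo.live (l.fo.par a) := by
  by_cases e : l.fo.par a = a
  · rw [e]; exact k
  · exact (h.fo.par a k e).2.1

theorem live_ml (h : l.Ok N R arc) {e : ℕ} (k : l.ml N z e < N) : l.fo.live (l.ml N z e) :=
  h.fo.mk' _ (sel_spec k).1.1

theorem it_ml (h : l.Ok N R arc) {e : ℕ} (k : l.ml N z e < N) (s : ℕ) :
    it N l.fo.par s (l.ml N z e) = l.fo.par^[s] (l.ml N z e) :=
  it_eq' (live_par h) h.fo.lt (live_ml h k) s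

theorem P_live (h : l.Ok N R arc) (t v : ℕ) (k : l.P N R f B z t v) : l.fo.live v := by
  obtain ⟨e, -, he, s, -, rfl⟩ := k
  rw [it_ml h he]
  exact iter_inv (live_par h) (live_ml h he) s

theorem pc_iter (h : l.Ok N R arc) (s : ℕ) : ∀ x, l.fo.live x → ¬l.K (l.fo.par^[s] x) →
    l.pc x = l.pc (l.fo.par^[s] x) := by
  induction s with
  | zero => exact fun _ _ _ => rfl
  | succ s ih =>
    intro x hx k
    rw [Function.iterate_succ_apply] at k ⊢
    have k1 : ¬l.K (l.fo.par x) := fun c => k (iter_inv h.kpar c s)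
    have k2 : ¬l.K x := fun c => k1 (h.kpar x c)
    rw [← ih _ (live_par h x hx) k]
    by_cases e : l.fo.par x = x
    · rw [e]
    · exact (h.pc _ _ (live_par h x hx) (h.fo.par x hx e).1 k1 k2).symm

theorem ent_lt {g : ℕ → Prop} {e s : ℕ} (h : s < N) (h1 : ¬l.K (it N l.fo.par s (l.ml N z e)))
    (h2 : g (it N l.fo.par s (l.ml N z e))) : s < ent l N z g e :=
  (bnd N (fun s => ¬l.K (it N l.fo.par s (l.ml N z e)))
    fun s => g (it N l.fo.par s (l.ml N z e))).1 s h h1 h2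

theorem ent_top {g : ℕ → Prop} {e s : ℕ} (h : s + 1 = ent l N z g e) :
    s < N ∧ ¬l.K (it N l.fo.par s (l.ml N z e)) ∧ g (it N l.fo.par s (l.ml N z e)) :=
  (bnd N (fun s => ¬l.K (it N l.fo.par s (l.ml N z e)))
    fun s => g (it N l.fo.par s (l.ml N z e))).2 s h

theorem P_top (h : l.Ok N R arc) (t v : ℕ) (k : l.P N R f B z (t + 1) v) :
    (l.fo.par v ≠ v ∧ l.P N R f B z (t + 1) (l.fo.par v)) ∨
      f (fun u => B u ∨ l.P N R f B z t u) v := by
  obtain ⟨e, h1, h2, s, h3, h4⟩ := (P_succ t v).1 k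
  obtain ⟨j, hj⟩ : ∃ j, j + s + 1 = ent l N z (f fun u => B u ∨ l.P N R f B z t u) e :=
    ⟨ent l N z (f fun u => B u ∨ l.P N R f B z t u) e - s - 1, by omega⟩
  have h5 := (ent_top hj).2.2
  rw [it_ml h h2] at h4 h5
  rw [Function.iterate_add_apply, h4] at h5
  by_cases c : l.fo.par v = v
  · rw [Function.iterate_fixed c] at h5
    exact Or.inr h5
  rcases Nat.eq_zero_or_pos j with rfl | p
  · exact Or.inr h5
  · refine Or.inl ⟨c, (P_succ t _).2 ⟨e, h1, h2, s + 1, by omega, ?_⟩⟩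
    rw [it_ml h h2, Function.iterate_succ_apply', h4]

theorem P_mem (h : l.Ok N R arc) (t x s v : ℕ) (h1 : l.fo.mk' x) (h2 : l.fo.par^[s] x = v)
    (h3 : ¬l.K v) (h4 : l.pc v = l.pc z) (h5 : f (fun u => B u ∨ l.P N R f B z t u) v) :
    l.P N R f B z (t + 1) v := by
  have lx := h.fo.mk' x h1
  have k1 : ¬l.K x := fun c => h3 (h2 ▸ iter_inv h.kpar c s)
  have k2 : l.pc x = l.pc z := by rw [pc_iter h s x lx (h2.symm ▸ h3), h2, h4]
  obtain ⟨k3, k4⟩ := sel_cnt (P := fun x => l.fo.mk' x ∧ ¬l.K x ∧ l.pc x = l.pc z)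
    (h.fo.lt x lx) ⟨h1, k1, k2⟩
  obtain ⟨e, he, k5⟩ : ∃ e < R, l.ml N z e = x := ⟨_, k4.trans_le (h.small _), k3⟩
  obtain ⟨s', k6, k7⟩ := iter_bnd' (live_par h) h.fo.lt lx h2
  have k8 : l.ml N z e < N := k5 ▸ h.fo.lt x lx
  have k9 : it N l.fo.par s' (l.ml N z e) = v := by rw [it_ml h k8, k5, k7]
  exact (P_succ t v).2 ⟨e, he, k8, s', ent_lt k6 (k9.symm ▸ h3) (k9.symm ▸ h5), k9⟩

theorem P_step (hf : ∀ B v, B v → f B v) (t v : ℕ) (k : l.P N R f B z t v) :
    l.P N R f B z (t + 1) v := by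
  cases t with
  | zero => exact absurd k (P_zero v)
  | succ t =>
    obtain ⟨e, h1, h2, s, h3, h4⟩ := (P_succ t v).1 k
    obtain ⟨j, hj⟩ : ∃ j, j + 1 = ent l N z (f fun u => B u ∨ l.P N R f B z t u) e :=
      ⟨ent l N z (f fun u => B u ∨ l.P N R f B z t u) e - 1, by omega⟩
    obtain ⟨k1, k2, -⟩ := ent_top hj
    have k3 := ent_lt (g := f fun u => B u ∨ l.P N R f B z (t + 1) u) k1 k2
      (hf _ _ (Or.inr ((P_succ t _).2 ⟨e, h1, h2, j, by omega, rfl⟩)))
    exact (P_succ _ v).2 ⟨e, h1, h2, s, by omega, h4⟩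

theorem P_fix {t : ℕ} (k : l.P N R f B z t = l.P N R f B z (t + 1)) :
    l.P N R f B z (t + 1) = l.P N R f B z (t + 1 + 1) := by
  funext v
  rw [P_succ (t + 1) v, ← k, ← P_succ t v, ← k]

theorem P_grow (h : l.Ok N R arc) (hf : ∀ B v, B v → f B v) {t : ℕ}
    (k : l.P N R f B z t ≠ l.P N R f B z (t + 1)) :
    cnt N (l.P N R f B z t) < cnt N (l.P N R f B z (t + 1)) := by
  by_contra c
  refine k (funext fun v => propext ⟨P_step hf t v, fun a => ?_⟩)
  by_contra b
  exact c (cnt_lt (fun u _ => P_step hf t u) (h.fo.lt v (P_live h _ v a)) a b)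

theorem P_cnt (h : l.Ok N R arc) (hf : ∀ B v, B v → f B v) (t : ℕ) :
    l.P N R f B z t = l.P N R f B z (t + 1) ∨ t + 1 ≤ cnt N (l.P N R f B z (t + 1)) := by
  induction t with
  | zero =>
    refine or_iff_not_imp_left.2 fun k => ?_
    have := P_grow h hf k
    omega
  | succ t ih =>
    refine or_iff_not_imp_left.2 fun k => ?_
    have := P_grow h hf k
    have := ih.resolve_left fun c => k (P_fix c)
    omega

theorem P_stab (h : l.Ok N R arc) (hf : ∀ B v, B v → f B v) (t v : ℕ) (k : l.P N R f B z t v) :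
    l.P N R f B z N v := by
  have mono : ∀ j, l.P N R f B z (t + j) v := fun j => by
    induction j with
    | zero => exact k
    | succ j ih => exact P_step hf _ v ih
  have fix : ∀ j, l.P N R f B z (N + j) = l.P N R f B z (N + j + 1) := fun j => by
    induction j with
    | zero =>
      refine (P_cnt h hf N).resolve_right fun c => ?_
      have := cnt_le N (l.P N R f B z (N + 1))
      omega
    | succ j ih => exact P_fix ih
  have fix' : ∀ j, l.P N R f B z (N + j) = l.P N R f B z N := fun j => by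
    induction j with
    | zero => rfl
    | succ j ih => exact (fix j).symm.trans ih
  have := mono N
  rwa [Nat.add_comm, fix'] at this

end Tab

theorem tbS : TbS := fun _ _ _ _ _ _ _ h hf =>
  ⟨Tab.P_zero, Tab.P_live h, Tab.P_top h, Tab.P_mem h, Tab.P_stab h hf⟩

end Pool.Agent.MP_1a6d78_lc.PR

end MrgPart14

-- marker of a merged file
example : 731051 + 10386 = 731051 + 10386 := rfl
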