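import Pool.Agent.MP_1a6d78_lc.PR.Basic
import Mathlib.Data.ZMod.Basic
import Mathlib.Algebra.CharP.Two
import Mathlib.Algebra.BigOperators.Group.Finset.Basic

-- ======== part 0: formerly Pool.Agent.MP_1a6d78_lc.PR.TmC
section MrgPart0

/-! PROJECT PR, row TMC: the search is complete. -/

namespace Pool.Agent.MP_1a6d78_lc.PR

open Classical ED

namespace TmCR

theorem mono {arc : ℕ → ℕ → Prop} {K B B' : ℕ → Prop} (hB : ∀ u, B u → B' u) {v : ℕ}
    (h : Cl arc K B v) : Cl arc K B' v := by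
  induction h with
  | base h => exact .base (hB _ h)
  | one h k => exact .one (hB _ h) k
  | step _ h k ih => exact .step ih h k

theorem src (N R : ℕ) (arc : ℕ → ℕ → Prop) (L : List LD) (B : ℕ → Prop) (v : ℕ) (h : B v) :
    tm N R arc L B v < Wd N L := by
  cases L <;> simp [tm, Wd, h]

end TmCR

open TmCR in
theorem tmC : TbS → TmC := by
  intro hT N R arc L ha
  induction L with
  | nil =>
    intro _ B v _ h
    cases h with
    | base h => exact src _ _ _ _ _ _ h
    | one h k =>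
      simp only [tm, Wd]
      rw [if_pos (show ∃ u < N, B u ∧ arc u v from ⟨_, (ha _ _ k).1, h, k⟩)]
      split_ifs <;> omega
    | step _ h _ => exact absurd trivial h
  | cons l L ih =>
    rintro ⟨ok, h1, h2, h3⟩ B v hB h
    have T := fun z => hT N R arc l (fun B u => tm N R arc L B u < Wd N L) B z ok (src N R arc L)
    have I := fun z t u => ih h3
      (fun u => B u ∨ l.P N R (fun B u => tm N R arc L B u < Wd N L) B z t u) u
      fun u k => h1 u (k.elim (hB u) ((T z).live t u))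
    have key : l.fo.live v ∧ (B v ∨ ∃ z < N, ∃ t, Cl arc (Ktop L)
        (fun u => B u ∨ l.P N R (fun B u => tm N R arc L B u < Wd N L) B z t u) v ∧
          (¬l.K v → l.pc v = l.pc z)) := by
      induction h with
      | base h => exact ⟨hB _ h, Or.inl h⟩
      | one h k =>
        exact ⟨ok.fo.clo _ _ (hB _ h) k, Or.inr ⟨_, (ha _ _ k).2, 0, .one (Or.inl h) k,
          fun _ => rfl⟩⟩
      | @step u v _ hu k j =>
        refine ⟨ok.fo.clo _ _ j.1 k, Or.inr ?_⟩
        rcases j.2 with b | ⟨z, hz, t, c, e⟩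
        · exact ⟨_, (ha _ _ k).2, 0, .one (Or.inl b) k, fun _ => rfl⟩
        · have e' : ¬l.K v → l.pc v = l.pc z := fun hv => (ok.pc u v j.1 k hu hv).symm.trans (e hu)
          by_cases hK : Ktop L u
          · obtain ⟨x, hx, s, hs⟩ := h2 u j.1 hK
            exact ⟨z, hz, t + 1, .one (Or.inr ((T z).mem t x s u hx hs hu (e hu) (I z t u c))) k,
              e'⟩
          · exact ⟨z, hz, t, .step c hK k, e'⟩
    rcases key.2 with b | ⟨z, hz, t, c, -⟩
    · exact src _ _ _ _ _ _ b
    have r := I z N v (mono (fun u k => k.imp_right ((T z).stab t u)) c)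
    by_cases b : B v
    · exact src _ _ _ _ _ _ b
    have hw : ∀ a < Wd N L, N * (l.fo.H + Wd N L) + l.fo.H + a + 1 < Wd N (l :: L) := by
      intro a k
      simp only [Wd, add_mul]
      omega
    simp only [tm]
    rw [if_neg b]
    exact (lst_le ((hw _ r).trans (Nat.lt_succ_self _))
      (Or.inr ⟨z, hz, N, Nat.lt_succ_self N, Or.inr ⟨r, rfl⟩⟩)).trans_lt (hw _ r)

end Pool.Agent.MP_1a6d78_lc.PR

end MrgPart0

-- ======== part 1: formerly Pool.Agent.MP_1a6d78_lc.PR.TmD
section MrgPart1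

/-! PROJECT PR, row TMD: descent for the search time. -/

namespace Pool.Agent.MP_1a6d78_lc.PR

open Classical ED

theorem tmD_wd_pos (N : ℕ) (L : List LD) : 0 < Wd N L := by
  cases L with
  | nil => simp [Wd]
  | cons l L => simp [Wd]

theorem tmD : TbS → TmD := by
  intro hT N R arc L
  induction L with
  | nil =>
    intro _ B v
    by_cases hB : B v
    · simp [tm, hB]
    by_cases h1 : ∃ u < N, B u ∧ arc u v
    · refine ⟨by simp only [tm, if_neg hB, if_pos h1]; simp [hB], fun _ _ => ?_⟩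
      obtain ⟨u, h2, h3, h4⟩ := id h1
      exact ⟨u, h4, by simp only [tm, if_neg hB, if_pos h1, if_pos h3]; omega⟩
    · refine ⟨by simp only [tm, if_neg hB, if_neg h1]; simp [hB], fun _ h => ?_⟩
      simp only [tm, if_neg hB, if_neg h1, Wd] at h
      omega
  | cons l L ih =>
    intro hS B
    obtain ⟨hl, -, -, hL⟩ := hS
    have ih := ih hL
    set f : (ℕ → Prop) → ℕ → Prop := fun B u => tm N R arc L B u < Wd N L with hf
    have hK : ∀ z, TabK N R l f B z := fun z => hT N R arc l f B z hl fun B' v h => by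
      show tm N R arc L B' v < Wd N L
      rw [(ih B' v).1.2 h]
      exact tmD_wd_pos N L
    set C := l.fo.H + Wd N L with hC
    have hW : Wd N (l :: L) = (N + 1) * C + 1 := rfl
    set Q : ℕ → ℕ → Prop := fun v a => a = Wd N (l :: L) ∨ ∃ z < N, ∃ t < N + 1,
      (l.P N R f B z t v ∧ a = t * C + l.fo.ht v + 1) ∨
      (tm N R arc L (fun u => B u ∨ l.P N R f B z t u) v < Wd N L ∧
        a = t * C + l.fo.H + tm N R arc L (fun u => B u ∨ l.P N R f B z t u) v + 1) with hQ
    have htm : ∀ v, tm N R arc (l :: L) B v =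
        if B v then 0 else lst (Wd N (l :: L) + 1) (Q v) := fun v => rfl
    have hle : ∀ v a, a ≤ (N + 1) * C → Q v a → tm N R arc (l :: L) B v ≤ a := by
      intro v a h1 h2
      rw [htm]
      split_ifs
      · exact Nat.zero_le _
      · exact lst_le (by rw [hW]; omega) h2
    have hmul : ∀ t < N + 1, t * C + C ≤ (N + 1) * C := fun t ht => by
      have := Nat.mul_le_mul_right C (show t + 1 ≤ N + 1 by omega)
      rwa [Nat.succ_mul] at this
    have hP : ∀ v, ∀ z < N, ∀ t < N + 1, l.P N R f B z t v →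
        tm N R arc (l :: L) B v ≤ t * C + l.fo.ht v + 1 := by
      intro v z hz t ht h
      have h1 := hl.fo.ht v ((hK z).live t v h)
      have h2 := hmul t ht
      exact hle v _ (by omega) (Or.inr ⟨z, hz, t, ht, Or.inl ⟨h, rfl⟩⟩)
    have hF : ∀ v, ∀ z < N, ∀ t < N + 1,
        tm N R arc L (fun u => B u ∨ l.P N R f B z t u) v < Wd N L →
        tm N R arc (l :: L) B v ≤
          t * C + l.fo.H + tm N R arc L (fun u => B u ∨ l.P N R f B z t u) v + 1 := by
      intro v z hz t ht h
      have h2 := hmul t ht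
      exact hle v _ (by omega) (Or.inr ⟨z, hz, t, ht, Or.inr ⟨h, rfl⟩⟩)
    intro v
    by_cases hB : B v
    · have : tm N R arc (l :: L) B v = 0 := by rw [htm, if_pos hB]
      exact ⟨⟨fun _ => hB, fun _ => this⟩, fun h => absurd this h⟩
    have hq : Q v (tm N R arc (l :: L) B v) := by
      rw [htm, if_neg hB]
      exact (lst_spec ⟨Wd N (l :: L), Nat.lt_succ_self _, Or.inl rfl⟩).2
    refine ⟨⟨fun h => ?_, fun h => absurd h hB⟩, fun _ hlt => ?_⟩
    · exfalso
      rw [h] at hq
      rcases hq with e | ⟨z, _, t, _, ⟨_, e⟩ | ⟨_, e⟩⟩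
      · have := tmD_wd_pos N (l :: L)
        omega
      · omega
      · omega
    rcases hq with e | ⟨z, hz, t, ht, ⟨h, e⟩ | ⟨h, e⟩⟩
    · omega
    · cases t with
      | zero => exact absurd h ((hK z).zero v)
      | succ t =>
        rcases (hK z).top t v h with ⟨h1, h2⟩ | h1
        · obtain ⟨h3, -, h4⟩ := hl.fo.par v ((hK z).live _ v h) h1
          have := hP _ z hz _ ht h2
          exact ⟨_, h3, by omega⟩
        · exfalso
          have h2 : tm N R arc L (fun u => B u ∨ l.P N R f B z t u) v < Wd N L := h1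
          have h3 := hF v z hz t (by omega) h2
          rw [Nat.succ_mul] at e
          omega
    · by_cases h0 : tm N R arc L (fun u => B u ∨ l.P N R f B z t u) v = 0
      · exfalso
        have h1 := ((ih _ v).1.1 h0).resolve_left hB
        have h2 := hP v z hz t ht h1
        have h3 := hl.fo.ht v ((hK z).live t v h1)
        omega
      · obtain ⟨u, h1, h2⟩ := (ih _ v).2 h0 h
        have h3 := hF u z hz t ht (h2.trans h)
        exact ⟨u, h1, by omega⟩

end Pool.Agent.MP_1a6d78_lc.PR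

end MrgPart1

-- ======== part 2: formerly Pool.Agent.MP_1a6d78_lc.PR.Two
section MrgPart2

/-! PROJECT PR: two-page graphs are planar. -/

namespace Pool.Agent.MP_1a6d78_lc.PR

open Classical ED Finset

namespace Two

/-- A set of edges, as a function on the darts. -/
def Ez (n : ℕ) (β : ℕ → ℕ) (z : ℕ → ZMod 2) : Prop :=
  ∀ d < n, z (β d) = z d ∧ (β d = d → z d = 0)

/-- Every even set of edges separates the corners into two classes. -/
def Col (n : ℕ) (ρ β : ℕ → ℕ) : Prop :=
  ∀ z y : ℕ → ZMod 2, Ez n β z → (∀ d < n, y (ρ d) = y d + z d) →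
    ∃ c : ℕ → ZMod 2, ∀ d < n, c (ρ d) = c d + z d ∧ c (β d) = c d + z d

/-- Indicator of two points. -/
def ind (a b d : ℕ) : ZMod 2 := (if d = a then 1 else 0) + (if d = b then 1 else 0)

variable {n a b d q : ℕ} {f ρ β γ up dn : ℕ → ℕ} {c z : ℕ → ZMod 2}

lemma z2 (x : ZMod 2) : x + x = 0 := CharTwo.add_self_eq_zero x

lemma ind_off (h1 : d ≠ a) (h2 : d ≠ b) : ind a b d = 0 := by simp [ind, h1, h2]

lemma fix (h : Iv n γ) (k : Sb n γ β) (q : Iv n β) (hd : d < n) (e : γ d = d) :
    γ (β d) = β d := by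
  rcases k _ (q d hd).1 with r | r
  · exact r
  · rw [(q d hd).2] at r
    have := (h _ (q d hd).1).2
    rw [r, e] at this
    rw [r]
    exact this

lemma Ez.sup (h : Ez n γ z) (g : Iv n γ) (k : Sb n γ β) (q : Iv n β) : Ez n β z := fun d hd => by
  by_cases r : γ d = d
  · have := (h d hd).2 r
    exact ⟨by rw [this, (h _ (q d hd).1).2 (fix g k q hd r)], fun _ => this⟩
  · have r' := (k d hd).resolve_left r
    exact ⟨r' ▸ (h d hd).1, fun u => (r (r'.trans u)).elim⟩

lemma Ez.add {z' : ℕ → ZMod 2} (h : Ez n γ z) (k : Ez n γ z') : Ez n γ fun d => z d + z' d :=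
  fun d hd => ⟨by simp only [(h d hd).1, (k d hd).1],
    fun r => by simp only [(h d hd).2 r, (k d hd).2 r, add_zero]⟩

lemma ez_ind (q : Iv n γ) (ha : a < n) : Ez n γ (ind a (γ a)) := fun d hd => by
  have i1 : γ d = a ↔ d = γ a := ⟨fun r => by rw [← r, (q d hd).2], fun r => by rw [r, (q a ha).2]⟩
  have i2 : γ d = γ a ↔ d = a := ⟨q.pm.2 d hd a ha, fun r => by rw [r]⟩
  refine ⟨by simp only [ind, i1, i2, add_comm], fun r => ?_⟩
  rw [r] at i1
  simp only [ind, i1, z2]

lemma path (h : Conn n ρ γ a b) (p : Pm n ρ) (q : Iv n γ) :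
    ∃ z y : ℕ → ZMod 2, Ez n γ z ∧ ∀ d < n, y (ρ d) = y d + (z d + ind a b d) := by
  have e0 : Ez n γ fun _ => 0 := fun _ _ => ⟨rfl, fun _ => rfl⟩
  refine Conn.ind (r := fun a b => ∃ z y : ℕ → ZMod 2, Ez n γ z ∧
    ∀ d < n, y (ρ d) = y d + (z d + ind a b d)) ⟨fun a => ?_, ?_, ?_⟩ (fun a ha => ?_)
    (fun a ha => ?_) h
  · exact ⟨_, fun _ => 0, e0, by simp [ind, z2]⟩
  · rintro a b ⟨z, y, h1, h2⟩
    exact ⟨z, y, h1, fun d hd => by rw [h2 d hd, ind, ind, add_comm (if d = a then _ else _)]⟩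
  · rintro a b e ⟨z, y, h1, h2⟩ ⟨z', y', k1, k2⟩
    refine ⟨_, fun d => y d + y' d, h1.add k1, fun d hd => ?_⟩
    simp only [h2 d hd, k2 d hd, ind]
    linear_combination z2 (if d = b then 1 else 0)
  · refine ⟨_, fun d => if d = ρ a then 1 else 0, e0, fun d hd => ?_⟩
    have : ρ d = ρ a ↔ d = a := ⟨p.2 d hd a ha, fun u => by rw [u]⟩
    simp only [this, ind]
    linear_combination -z2 (if d = ρ a then 1 else 0)
  · exact ⟨_, fun _ => 0, ez_ind q ha, fun d _ => by simp [z2]⟩

lemma flip (p : Pm n f) (ha : a < n) (h : ∀ d < n, c (f d) = c d + ind a b d) : Sc n f a b := by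
  by_contra k
  have ne : a ≠ b := fun r => k (r ▸ Sc.refl f ha)
  have : ∀ t, c (f^[t + 1] a) = c a + 1 := fun t => by
    induction t with
    | zero => exact (h a ha).trans (by simp [ind, ne])
    | succ t ih =>
      rw [Function.iterate_succ_apply', h _ (iter_inv (Q := fun a => a < n) p.1 ha _), ih, ind_off,
        add_zero]
      · exact fun r => by simp [r] at ih
      · exact fun r => k ((sc_iff p.1 ha).2 ⟨_, r⟩)
  obtain ⟨u, h1, r⟩ := p.period ha
  have := this (u - 1)
  rw [Nat.sub_add_cancel h1, r] at this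
  simp at this

theorem Col.pl (h : Col n ρ β) (p : Pm n ρ) (q : Iv n β) : Pl n ρ β := by
  intro γ g k a ha h1 h2
  obtain ⟨z, y, hz, hy⟩ := path h2 p g
  have ez := (hz.sup g k q).add (ez_ind q ha)
  obtain ⟨c, hc⟩ := h _ y ez hy
  refine flip (c := c) (p.comp g.pm) ha fun d hd => ?_
  by_cases r : γ d = d
  · rw [r, (hc d hd).1, (hz d hd).2 r, zero_add]
  · have n1 : d ≠ a := fun u => r (by rw [u, h1])
    have n2 : d ≠ β a := fun u => r (by rw [u, fix g k q ha h1])
    have := (ez d hd).1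
    simp only at this
    rw [(k d hd).resolve_left r, (hc _ (q d hd).1).1, (hc d hd).2, this, ind_off n1 n2, add_assoc,
      z2]

/-- The parity of the chords over a gap is the same at both ends of a chord. -/
lemma gap (h : Iv q up) (k : Nc q id up) (e : Ez q up z) (ha : a < q) :
    ∑ j ∈ range (up a + 1), z j = ∑ j ∈ range (a + 1), z j + z a := by
  have key : ∀ a < q, a < up a →
      ∑ j ∈ range (up a + 1), z j = ∑ j ∈ range (a + 1), z j + z a := fun a ha l => by
    have hb := (h a ha).1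
    rw [sum_range_succ, (e a ha).1, ← sum_range_add_sum_Ico _ (Nat.succ_le_of_lt l),
      sum_involution (s := Ico (a + 1) (up a)) (fun j _ => up j), add_zero]
    · intro j hj
      rw [(e j (by have := mem_Ico.1 hj; omega)).1, z2]
    · intro j hj r u
      exact r ((e j (by have := mem_Ico.1 hj; omega)).2 u)
    · intro j hj
      rw [mem_Ico] at hj ⊢
      have lj : j < q := by omega
      have h1 := k a ha j lj
      have h2 := k (up j) (h j lj).1 a ha
      have h3 : up j ≠ a := fun r => by have := (h j lj).2; rw [r] at this; omega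
      have h4 : up j ≠ up a := fun r => by have := h.pm.2 j lj a ha r; omega
      simp only [id, (h j lj).2] at h1 h2
      omega
    · intro j hj
      exact (h j (by have := mem_Ico.1 hj; omega)).2
  rcases lt_trichotomy a (up a) with l | l | l
  · exact key a ha l
  · rw [← l, (e a ha).2 l.symm, add_zero]
  · have := key _ (h a ha).1 (by rwa [(h a ha).2])
    rw [(h a ha).2, (e a ha).1] at this
    rw [this, add_assoc, z2, add_zero]

lemma cases4 (h : d < 4 * q) :
    ∃ i < q, d = 4 * i ∨ d = 4 * i + 1 ∨ d = 4 * i + 2 ∨ d = 4 * i + 3 := ⟨d / 4, by omega, by omega⟩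

lemma r0 (i : ℕ) : r4 (4 * i) = 4 * i + 1 := by unfold r4; omega

lemma r1 (i : ℕ) : r4 (4 * i + 1) = 4 * i + 2 := by unfold r4; omega

lemma r2 (i : ℕ) : r4 (4 * i + 2) = 4 * i + 3 := by unfold r4; omega

lemma r3 (i : ℕ) : r4 (4 * i + 3) = 4 * i := by unfold r4; omega

lemma b0 (i : ℕ) : b2 q up dn (4 * i) = if i + 1 < q then 4 * (i + 1) + 2 else 4 * i := by
  have : 4 * i / 4 = i := by omega
  rw [b2, if_pos (by omega), this]
  rfl

lemma b1 (i : ℕ) : b2 q up dn (4 * i + 1) = 4 * up i + 1 := by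
  have : (4 * i + 1) / 4 = i := by omega
  rw [b2, if_neg (by omega), if_pos (by omega), this]

lemma b20 : b2 q up dn (4 * 0 + 2) = 4 * 0 + 2 := by simp [b2]

lemma b21 (i : ℕ) : b2 q up dn (4 * (i + 1) + 2) = 4 * i := by
  rw [b2, if_neg (by omega), if_neg (by omega), if_pos (by omega), if_pos (by omega)]
  omega

lemma b3 (i : ℕ) : b2 q up dn (4 * i + 3) = 4 * dn i + 3 := by
  have : (4 * i + 3) / 4 = i := by omega
  rw [b2, if_neg (by omega), if_neg (by omega), if_neg (by omega), this]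

lemma pm : Pm (4 * q) r4 :=
  ⟨fun d h => by unfold r4; omega, fun a _ b _ h => by unfold r4 at h; omega⟩

lemma iv (h1 : Iv q up) (h2 : Iv q dn) : Iv (4 * q) (b2 q up dn) := fun d hd => by
  obtain ⟨i, hi, rfl | rfl | rfl | rfl⟩ := cases4 hd
  · rw [b0]
    split_ifs with k
    · exact ⟨by omega, b21 i⟩
    · exact ⟨hd, by rw [b0, if_neg k]⟩
  · have := h1 i hi
    rw [b1, b1, this.2]
    exact ⟨by omega, rfl⟩
  · rcases i with _ | i
    · rw [b20, b20]
      exact ⟨hd, rfl⟩
    · rw [b21, b0, if_pos hi]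
      exact ⟨by omega, rfl⟩
  · have := h2 i hi
    rw [b3, b3, this.2]
    exact ⟨by omega, rfl⟩

lemma col (h1 : Iv q up) (h2 : Iv q dn) (k1 : Nc q id up) (k2 : Nc q id dn) :
    Col (4 * q) r4 (b2 q up dn) := by
  intro z y hz hy
  have e1 : Ez q up fun j => z (4 * j + 1) := fun j hj => by
    have := hz (4 * j + 1) (by omega)
    rw [b1] at this
    exact ⟨this.1, fun r => this.2 (by rw [r])⟩
  have e2 : Ez q dn fun j => z (4 * j + 3) := fun j hj => by
    have := hz (4 * j + 3) (by omega)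
    rw [b3] at this
    exact ⟨this.1, fun r => this.2 (by rw [r])⟩
  obtain ⟨U, hU⟩ : ∃ U : ℕ → ZMod 2, ∀ i, U i = ∑ j ∈ range i, z (4 * j + 1) := ⟨_, fun _ => rfl⟩
  obtain ⟨L, hL⟩ : ∃ L : ℕ → ZMod 2, ∀ i, L i = ∑ j ∈ range i, z (4 * j + 3) := ⟨_, fun _ => rfl⟩
  have u1 : ∀ i, U (i + 1) = U i + z (4 * i + 1) := fun i => by rw [hU, hU, sum_range_succ]
  have l1 : ∀ i, L (i + 1) = L i + z (4 * i + 3) := fun i => by rw [hL, hL, sum_range_succ]
  have ev : ∀ i < q, z (4 * i) = z (4 * i + 1) + z (4 * i + 2) + z (4 * i + 3) := fun i hi => by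
    have a0 := hy (4 * i) (by omega)
    have a1 := hy (4 * i + 1) (by omega)
    have a2 := hy (4 * i + 2) (by omega)
    have a3 := hy (4 * i + 3) (by omega)
    rw [r0] at a0
    rw [r1] at a1
    rw [r2] at a2
    rw [r3] at a3
    linear_combination a0 + a1 + a2 + a3 + z2 (z (4 * i))
  have w : ∀ i < q, z (4 * i + 2) = U i + L i := fun i => by
    induction i with
    | zero => exact fun hi => by rw [(hz _ (by omega)).2 b20, hU, hL]; simp
    | succ i ih =>
      intro hi
      have := (hz (4 * (i + 1) + 2) (by omega)).1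
      rw [b21] at this
      rw [← this, ev i (by omega), ih (by omega), u1, l1]
      ring
  have ea : ∀ i < q, z (4 * i) = U (i + 1) + L (i + 1) := fun i hi => by
    rw [ev i hi, w i hi, u1, l1]
    ring
  obtain ⟨c, c0, c1, c2, c3⟩ : ∃ c : ℕ → ZMod 2, (∀ i, c (4 * i) = L (i + 1)) ∧
      (∀ i, c (4 * i + 1) = U (i + 1)) ∧ (∀ i, c (4 * i + 2) = U i) ∧
      ∀ i, c (4 * i + 3) = L i := by
    refine ⟨fun d => if d % 4 = 0 then L (d / 4 + 1) else if d % 4 = 1 then U (d / 4 + 1)
      else if d % 4 = 2 then U (d / 4) else L (d / 4), fun i => ?_, fun i => ?_, fun i => ?_,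
      fun i => ?_⟩
    · simp
    · have : (4 * i + 1) / 4 = i := by omega
      simp [this]
    · have : (4 * i + 2) / 4 = i := by omega
      simp [this]
    · have : (4 * i + 3) / 4 = i := by omega
      simp [this]
  refine ⟨c, fun d hd => ?_⟩
  obtain ⟨i, hi, rfl | rfl | rfl | rfl⟩ := cases4 hd
  · have : U (i + 1) = L (i + 1) + z (4 * i) := by
      rw [ea i hi]
      linear_combination -z2 (L (i + 1))
    rw [r0, c1, c0]
    refine ⟨this, ?_⟩
    have g := (hz _ hd).2
    rw [b0] at g ⊢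
    split_ifs at g ⊢ with k
    · rw [c2, this]
    · rw [c0, g rfl, add_zero]
  · rw [r1, b1, c2, c1, c1, u1, add_assoc, z2, add_zero, hU (up i + 1), gap h1 k1 e1 hi, ← hU, u1,
      add_assoc, z2, add_zero]
    exact ⟨rfl, rfl⟩
  · have : L i = U i + z (4 * i + 2) := by
      rw [w i hi]
      linear_combination -z2 (U i)
    rw [r2, c3, c2]
    refine ⟨this, ?_⟩
    rcases i with _ | i
    · rw [b20, c2, (hz _ hd).2 b20, add_zero]
    · rw [b21, c0, this]
  · have g := gap h2 k2 e2 hi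
    have g' := (e2 i hi).1
    simp only at g'
    rw [← hL, ← hL, l1, l1, g'] at g
    rw [r3, b3, c0, c3, c3]
    exact ⟨l1 i, by linear_combination g⟩

lemma sc (ha : a < 4 * q) : a / 4 = b / 4 ↔ Sc (4 * q) r4 a b := by
  refine ⟨fun h => (sc_iff pm.1 ha).2 ?_, fun h => Sc.ind (Q := fun d => a / 4 = d / 4) pm.1 ha rfl
    (fun d _ k => by unfold r4; omega) h⟩
  by_cases k0 : a = b
  · exact ⟨0, k0⟩
  by_cases k1 : r4 a = b
  · exact ⟨1, k1⟩
  by_cases k2 : r4 (r4 a) = b
  · exact ⟨2, k2⟩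
  refine ⟨3, show r4 (r4 (r4 a)) = b from ?_⟩
  unfold r4 at *
  omega

end Two

theorem twoS : GenK → TwoS := fun _ _ _ _ h1 h2 k1 k2 =>
  ⟨Two.pm, Two.iv h1 h2, (Two.col h1 h2 k1 k2).pl Two.pm (Two.iv h1 h2), fun _ ha _ _ =>
    Two.sc ha⟩

end Pool.Agent.MP_1a6d78_lc.PR

end MrgPart2

-- marker of a merged file
example : 731051 + 289632 = 731051 + 289632 := rfl
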