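import Pool.Agent.MP_1a6d78_lc.PR.Next
import Pool.Agent.MP_1a6d78_lc.PR.Tab
import Pool.Agent.MP_1a6d78_lc.PR.Two

/-! PROJECT PR: the assembly. -/

namespace Pool.Agent.MP_1a6d78_lc.PR

theorem part : PartS := fun G h =>
  have s := pSetS (twoS (genK swapK nclK)) (msfS nclK) (msfC nclK) ballS hashS G h
  have l := pSlabS (contS swapK) G h s
  ⟨pEdgeS sectS secUS stS G h s l, pSizeS sectS secUS G h s l, pCountS secQS G h s l⟩

theorem glev : GlevS := fun M D f hD h hf =>
  have s := gSetS (msfS nclK) (msfC nclK) (contS swapK) M f h hf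
  have p := gPtS sectS secUS secQS part M D f hD h hf s
  have c := gCntS sectS M D f hD h hf p
  ⟨gLabS sectS secUS stS M D f h hf s p c, c⟩

theorem main : MainS :=
  fin (aLev aTm (aLd aFm aLn (aPt aFm aLn aBall)))
    (levS glev (nextS (tmD tbS) (tmC tbS)) (tmD tbS) (tmC tbS)) codS eulS (genK swapK nclK)

end Pool.Agent.MP_1a6d78_lc.PR
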