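import Mathlib.GroupTheory.GroupAction.Defs
import Mathlib.Algebra.Group.Action.End
import Mathlib.Algebra.Group.Subgroup.ZPowers.Basic
import Mathlib.SetTheory.Cardinal.Finite
import Pool.Agent.MP_1a6d78_lc.ED.Defs

/-! Plane digraphs as combinatorial maps of genus zero; reachability. -/

namespace Pool.Agent.MP_1a6d78_lc.PR

/-- The number of orbits of a group of permutations of the darts. -/
noncomputable def orb {n : ℕ} (H : Subgroup (Equiv.Perm (Fin n))) : ℕ :=
  Nat.card (MulAction.orbitRel.Quotient H (Fin n))

/-- Euler's formula.  Vertices are the cycles of `σ`, edges the 2-cycles of the involution `α`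
(a fixed point of `α` is an unused dart), faces the cycles of `σ * α`; every component has
`V - E + F = 2`. -/
def Planar {n : ℕ} (σ α : Equiv.Perm (Fin n)) : Prop :=
  orb (Subgroup.zpowers σ) + orb (Subgroup.zpowers α) + orb (Subgroup.zpowers (σ * α)) =
    n + 2 * orb (Subgroup.closure {σ, α})

/-- The vertex of the dart `t` is reachable from the vertex of the dart `s`; the edge of a dart
`a` may be used from the vertex of `a` to the vertex of `α a` iff `dir a`. -/
def Reach {n : ℕ} (σ α : Equiv.Perm (Fin n)) (dir : Fin n → Bool) (s t : Fin n) : Prop :=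
  Relation.ReflTransGen (fun a b => b = σ a ∨ (dir a = true ∧ b = α a)) s t

/-- The code of an instance: `n, s, t` and the tables of `σ, α, dir`, in unary. -/
def code {n : ℕ} (σ α : Equiv.Perm (Fin n)) (dir : Fin n → Bool) (s t : Fin n) : List Bool :=
  ED.unary ([n, s.val, t.val] ++ List.ofFn (fun a => (σ a).val) ++
    List.ofFn (fun a => (α a).val) ++ List.ofFn fun a => if dir a then 1 else 0)

end Pool.Agent.MP_1a6d78_lc.PR
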