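import Pool.Agent.MP_1a6d78_lc.ED.All
import Pool.Agent.MP_1a6d78_lc.PR.Defs

/-! PROJECT PR: the algorithm and the module statements.  Blueprint: PR1a6d78_BLUEPRINT.md. -/

namespace Pool.Agent.MP_1a6d78_lc.PR

open Classical ED

noncomputable section

/-! ### Bounded operators -/

/-- Iteration, clipped at `n`. -/
def it (n : ℕ) (f : ℕ → ℕ) (t d : ℕ) : ℕ := itr (fun _ a => min (f a) n) d t

def cnt (n : ℕ) (P : ℕ → Prop) : ℕ := ((Finset.range n).filter P).card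

/-- The least `m < n` with `P m` (0 if there is none). -/
def lst (n : ℕ) (P : ℕ → Prop) : ℕ := sInf {m | m < n ∧ P m}

def amin (n : ℕ) (f : ℕ → ℕ) : ℕ := lst n fun m => ∀ m' < n, f m ≤ f m'

/-- The `e`-th number below `n` with `P` (`n` if there is none). -/
def sel (n : ℕ) (P : ℕ → Prop) (e : ℕ) : ℕ := lst (n + 1) fun x => x = n ∨ (P x ∧ cnt x P = e)

/-! ### Maps -/

def Pm (n : ℕ) (f : ℕ → ℕ) : Prop := (∀ d < n, f d < n) ∧ ∀ a < n, ∀ b < n, f a = f b → a = b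

def Iv (n : ℕ) (γ : ℕ → ℕ) : Prop := ∀ d < n, γ d < n ∧ γ (γ d) = d

def Sb (n : ℕ) (γ β : ℕ → ℕ) : Prop := ∀ d < n, γ d = d ∨ γ d = β d

def Sc (n : ℕ) (f : ℕ → ℕ) (a b : ℕ) : Prop := ∃ t < n, it n f t a = b

def Conn (n : ℕ) (ρ γ : ℕ → ℕ) : ℕ → ℕ → Prop :=
  Relation.EqvGen fun a b => a < n ∧ (b = ρ a ∨ b = γ a)

def sw (a b d : ℕ) : ℕ := if d = a then b else if d = b then a else d

def del (γ : ℕ → ℕ) (a d : ℕ) : ℕ := if d = a ∨ d = γ a then d else γ d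

def Mg (r : ℕ → ℕ → Prop) (a b x y : ℕ) : Prop := r x y ∨ (r x a ∧ r b y) ∨ (r x b ∧ r a y)

def Eqv (n : ℕ) (r : ℕ → ℕ → Prop) : Prop :=
  (∀ x < n, r x x) ∧ (∀ x < n, ∀ y < n, r x y → r y x) ∧
    ∀ x < n, ∀ y < n, ∀ z < n, r x y → r y z → r x z

/-- The number of classes of `r` inside `A`. -/
def ncl (n : ℕ) (A : ℕ → Prop) (r : ℕ → ℕ → Prop) : ℕ :=
  cnt n fun d => A d ∧ ∀ e < n, r d e → d ≤ e

/-- Twice the genus. -/
def gen (n : ℕ) (ρ γ : ℕ → ℕ) : ℤ :=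
  2 * (ncl n (fun _ => True) (Conn n ρ γ) : ℤ) + n - ncl n (fun _ => True) (Sc n γ) -
    ncl n (fun _ => True) (Sc n fun d => ρ (γ d)) - ncl n (fun _ => True) (Sc n ρ)

def Pl (n : ℕ) (ρ β : ℕ → ℕ) : Prop :=
  ∀ γ, Iv n γ → Sb n γ β → ∀ a < n, γ a = a → Conn n ρ γ a (β a) →
    Sc n (fun d => ρ (γ d)) a (β a)

def Nc (n : ℕ) (pos o : ℕ → ℕ) : Prop :=
  ∀ a < n, ∀ c < n, ¬(pos a < pos c ∧ pos c < pos (o a) ∧ pos (o a) < pos (o c))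

/-- SWAP -/
structure SwapK : Prop where
  pm : ∀ {n f a b}, Pm n f → a < n → b < n → Pm n fun d => f (sw a b d)
  merge : ∀ {n f a b}, Pm n f → a < n → b < n → ¬Sc n f a b → ∀ x < n, ∀ y < n,
    (Sc n (fun d => f (sw a b d)) x y ↔ Mg (Sc n f) a b x y)
  split : ∀ {n f a b}, Pm n f → a < n → b < n → a ≠ b → Sc n f a b →
    ¬Sc n (fun d => f (sw a b d)) a b
  sep : ∀ {n f z i j k l}, Pm n f → z < n → i < j → j ≤ k → k < l →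
    (∀ s ≤ l, ∀ t ≤ l, f^[s] z = f^[t] z → s = t) →
      ¬Sc n (fun d => f (sw (f^[i] z) (f^[k] z) d)) (f^[j] z) (f^[l] z)

/-- NCL -/
structure NclK : Prop where
  congr : ∀ {n A r r'}, (∀ x < n, ∀ y < n, r x y ↔ r' x y) → ncl n A r = ncl n A r'
  merge : ∀ {n A r r' a b}, Eqv n r → a < n → b < n → A a → A b → ¬r a b →
    (∀ x < n, ∀ y < n, r x y → A x → A y) → (∀ x < n, ∀ y < n, r' x y ↔ Mg r a b x y) →
      ncl n A r' + 1 = ncl n A r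
  le : ∀ {n A B r}, Eqv n r → (∀ x < n, A x → ∃ y < n, r x y ∧ B y) → ncl n A r ≤ cnt n B
  add : ∀ {n ρ γ a b}, Pm n ρ → Iv n γ → a < n → b < n → γ a = a → γ b = b →
    ∀ x < n, ∀ y < n, (Conn n ρ (fun d => γ (sw a b d)) x y ↔ Mg (Conn n ρ γ) a b x y)

/-- GEN -/
structure GenK : Prop where
  congr : ∀ {n ρ γ γ'}, Pm n ρ → Iv n γ → (∀ d < n, γ d = γ' d) → gen n ρ γ = gen n ρ γ'
  zero : ∀ {n ρ}, Pm n ρ → gen n ρ id = 0
  good : ∀ {n ρ γ a b}, Pm n ρ → Iv n γ → a < n → b < n → a ≠ b → γ a = a → γ b = b →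
    Sc n (fun d => ρ (γ d)) a b ∨ ¬Conn n ρ γ a b →
      gen n ρ (fun d => γ (sw a b d)) = gen n ρ γ
  pl : ∀ {n ρ β}, Pm n ρ → Iv n β → gen n ρ β ≤ 0 → Pl n ρ β

def r4 (d : ℕ) : ℕ := 4 * (d / 4) + (d + 1) % 4

/-- The edges of the two-page graph: spine, upper chords, lower chords. -/
def b2 (q : ℕ) (up dn : ℕ → ℕ) (d : ℕ) : ℕ :=
  if d % 4 = 0 then (if d / 4 + 1 < q then d + 6 else d)
  else if d % 4 = 1 then 4 * up (d / 4) + 1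
  else if d % 4 = 2 then (if 0 < d / 4 then d - 6 else d) else 4 * dn (d / 4) + 3

/-- TWO -/
def TwoS : Prop :=
  ∀ q up dn, Iv q up → Iv q dn → Nc q id up → Nc q id dn →
    Pm (4 * q) r4 ∧ Iv (4 * q) (b2 q up dn) ∧ Pl (4 * q) r4 (b2 q up dn) ∧
      ∀ a < 4 * q, ∀ b < 4 * q, a / 4 = b / 4 ↔ Sc (4 * q) r4 a b

/-! ### Greedy forests, contours, sectors -/

/-- A map with parent darts `pd` (at least `n` at a root) and heights. -/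
structure Fm where
  n : ℕ
  ρ : ℕ → ℕ
  β : ℕ → ℕ
  nd : ℕ → ℕ
  pd : ℕ → ℕ
  ht : ℕ → ℕ

namespace Fm

variable (F : Fm)

def isF (d : ℕ) : Prop := F.pd (F.nd d) = d ∨ F.pd (F.nd (F.β d)) = F.β d

def mx (d : ℕ) : ℕ := max (F.ht (F.nd d)) (F.ht (F.nd (F.β d)))

def wt (d : ℕ) : ℕ := (F.mx d * 2 + if F.isF d then 0 else 1) * F.n + min d (F.β d)

def tau (d : ℕ) : ℕ :=
  if Sc F.n (fun e => F.ρ (if F.wt e < F.wt d then F.β e else e)) d (F.β d) then d else F.β d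

def con (d : ℕ) : Prop := F.tau d ≠ d ∧ ¬F.isF d

structure Ok : Prop where
  pm : Pm F.n F.ρ
  iv : Iv F.n F.β
  pl : Pl F.n F.ρ F.β
  nd : ∀ a < F.n, ∀ b < F.n, F.nd a = F.nd b ↔ Sc F.n F.ρ a b
  pd : ∀ d < F.n, F.pd (F.nd d) < F.n → F.nd (F.pd (F.nd d)) = F.nd d
  par : ∀ d < F.n, F.pd (F.nd d) = d → F.β d ≠ d ∧ F.ht (F.nd (F.β d)) < F.ht (F.nd d)

/-- MSF -/
structure MsfK : Prop where
  iv : Iv F.n F.tau
  sb : Sb F.n F.tau F.β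
  span : ∀ d < F.n, Conn F.n F.ρ (fun e => if F.mx e ≤ F.mx d then F.tau e else e) d (F.β d)
  br : ∀ d < F.n, F.tau d ≠ d → ¬Conn F.n F.ρ (del F.tau d) d (F.tau d)
  phi : ∀ d < F.n, F.isF d → F.tau d = F.β d

end Fm

def MsfS : Prop := ∀ F : Fm, F.Ok → F.MsfK

/-- MSFC: at most two connecting darts per root. -/
def MsfC : Prop :=
  ∀ (F : Fm) (A B : ℕ → Prop), F.Ok → F.MsfK → (∀ d < F.n, A d ↔ A (F.ρ d)) →
    (∀ d < F.n, ¬A d → F.β d = d) →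
    (∀ d < F.n, A d → F.n ≤ F.pd (F.nd d) → ∃ e < F.n, B e ∧ F.nd e = F.nd d) →
      cnt F.n F.con ≤ 2 * cnt F.n B

def st (n : ℕ) (φ : ℕ → ℕ) (rt : ℕ → Prop) (d : ℕ) : ℕ := lst n fun e => Sc n φ d e ∧ rt e

def ps (n : ℕ) (φ : ℕ → ℕ) (rt : ℕ → Prop) (d : ℕ) : ℕ :=
  st n φ rt d * n + lst n fun t => it n φ t (st n φ rt d) = d

def out (β τ : ℕ → ℕ) (d : ℕ) : ℕ := if τ d = d then β d else d

structure ContK (n : ℕ) (ρ β τ : ℕ → ℕ) (rt : ℕ → Prop) (s pos : ℕ → ℕ) : Prop where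
  inj : ∀ a < n, ∀ b < n, pos a = pos b → a = b
  succ : ∀ d < n, s (ρ (τ d)) ≠ ρ (τ d) → pos (ρ (τ d)) = pos d + 1
  root : ∀ d < n, rt (s d)
  uniq : ∀ a < n, ∀ b < n, Sc n ρ a b → s a = s b
  ivo : Iv n (out β τ)
  nco : Nc n pos (out β τ)
  nci : Nc n pos τ

/-- CONT -/
def ContS : Prop :=
  ∀ (n : ℕ) (ρ β τ : ℕ → ℕ) (rt : ℕ → Prop), Pm n ρ → Iv n β → Pl n ρ β → Iv n τ → Sb n τ β →
    (∀ d < n, Conn n ρ τ d (β d)) → (∀ d < n, τ d ≠ d → ¬Conn n ρ (del τ d) d (τ d)) →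
    (∀ d < n, ∃ e < n, Conn n ρ τ d e ∧ rt e) →
      ContK n ρ β τ rt (st n (fun d => ρ (τ d)) rt) (ps n (fun d => ρ (τ d)) rt)

/-- Darts on a line with chords `o` and special darts `sp`. -/
structure Ln where
  n : ℕ
  pos : ℕ → ℕ
  o : ℕ → ℕ
  sp : ℕ → Prop

namespace Ln

variable (L : Ln)

def blk (d : ℕ) : ℕ := 2 * cnt L.n (fun e => L.sp e ∧ L.pos e < L.pos d) + if L.sp d then 1 else 0

def ess (d : ℕ) : Prop := L.blk (L.o d) ≠ L.blk d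

def aft (d e : ℕ) : Prop := L.blk e = L.blk d ∧ L.pos d ≤ L.pos e ∧ L.ess e

def key (d : ℕ) : ℕ :=
  if ∃ e < L.n, L.aft d e then
    L.blk (L.o (lst L.n fun e => L.aft d e ∧ ∀ e' < L.n, L.aft d e' → L.pos e ≤ L.pos e')) + 1
  else 0

def fs (d : ℕ) : Prop := ∀ e < L.n, L.blk e = L.blk d → L.key e = L.key d → L.pos d ≤ L.pos e

def rk (d : ℕ) : ℕ := cnt L.n (fun e => L.fs e ∧ L.pos e ≤ L.pos d) - 1

def q : ℕ := cnt L.n L.fs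

/-- The pairing of the sectors induced by `f` on the darts with `P`. -/
def ind (P : ℕ → Prop) (f : ℕ → ℕ) (i : ℕ) : ℕ :=
  if ∃ d < L.n, L.rk d = i ∧ P d then L.rk (f (lst L.n fun d => L.rk d = i ∧ P d)) else i

def up : ℕ → ℕ := L.ind L.ess L.o

structure Ok : Prop where
  inj : ∀ a < L.n, ∀ b < L.n, L.pos a = L.pos b → a = b
  iv : Iv L.n L.o
  nc : Nc L.n L.pos L.o

/-- SECT -/
structure SecK : Prop where
  lt : ∀ d < L.n, L.rk d < L.q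
  mono : ∀ d < L.n, ∀ e < L.n, L.pos d ≤ L.pos e → L.rk d ≤ L.rk e
  same : ∀ d < L.n, ∀ e < L.n, L.rk d = L.rk e ↔ L.blk d = L.blk e ∧ L.key d = L.key e
  step : ∀ d < L.n, ∀ e < L.n, L.pos e = L.pos d + 1 →
    L.rk e = L.rk d ∨ (L.rk e = L.rk d + 1 ∧ L.fs e)
  finj : ∀ d < L.n, ∀ e < L.n, L.fs d → L.fs e → L.rk d = L.rk e → d = e
  sing : ∀ d < L.n, ∀ e < L.n, L.sp d → L.blk e = L.blk d → e = d
  gap : ∀ d < L.n, ∀ e < L.n, ∀ f < L.n, L.sp f → L.pos d < L.pos f → L.pos f ≤ L.pos e →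
    L.blk d < L.blk e
  keye : ∀ d < L.n, L.ess d → L.key d = L.blk (L.o d) + 1
  ines : ∀ d < L.n, ¬L.ess d → L.rk (L.o d) = L.rk d

/-- SECU -/
structure SecU : Prop where
  iv : Iv L.q L.up
  nc : Nc L.q id L.up
  chord : ∀ d < L.n, L.rk (L.o d) = L.rk d ∨ L.rk (L.o d) = L.up (L.rk d)
  fix : ∀ d < L.n, L.sp d → L.o d = d → L.up (L.rk d) = L.rk d
  dn : ∀ (P : ℕ → Prop) (τ : ℕ → ℕ), Iv L.n τ → Nc L.n L.pos τ → (∀ d < L.n, P d → L.sp d) →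
    (∀ d < L.n, P d → P (τ d)) → Iv L.q (L.ind P τ) ∧ Nc L.q id (L.ind P τ) ∧
      (∀ d < L.n, P d → L.ind P τ (L.rk d) = L.rk (τ d)) ∧
      ∀ i, L.ind P τ i = i ∨ ∃ d < L.n, L.rk d = i ∧ P d

end Ln

def SectS : Prop := ∀ L : Ln, L.Ok → L.SecK

def SecUS : Prop := ∀ L : Ln, L.Ok → L.SecK → L.SecU

/-- SECQ -/
def SecQS : Prop := ∀ L : Ln, L.Ok → L.q ≤ 10 * cnt L.n L.sp + 5

/-- ST -/
def StS : Prop :=
  ∀ (n H : ℕ) (ρ τ nd pd ht lab : ℕ → ℕ) (Y sta : ℕ → Prop), Pm n ρ → Iv n τ →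
    (∀ a < n, ∀ b < n, nd a = nd b ↔ Sc n ρ a b) →
    (∀ d < n, pd (nd d) < n → nd (pd (nd d)) = nd d) → (∀ d < n, Y (nd d) → ht (nd d) ≤ H) →
    (∀ d < n, τ d ≠ d → pd (nd (τ d)) = τ d → Y (nd d) →
      Y (nd (τ d)) ∧ ht (nd d) < ht (nd (τ d))) →
    (∀ d < n, sta d → Y (nd d) → n ≤ pd (nd d)) →
    (∀ d < n, ∀ e < n, sta d → sta e → nd d = nd e → d = e) →
    (∀ d < n, Y (nd (ρ (τ d))) → ¬sta (ρ (τ d)) → lab (ρ (τ d)) = lab d) →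
    (∀ d < n, τ d ≠ d → pd (nd d) ≠ d → pd (nd (τ d)) ≠ τ d → Y (nd d) → lab (τ d) = lab d) →
      (∀ d < n, ∀ e < n, nd d = nd e → Y (nd d) → lab d = lab e) ∧
        ∀ d < n, τ d ≠ d → Y (nd d) → Y (nd (τ d)) → lab (τ d) = lab d

/-! ### The partition of a two-page graph -/

/-- Balls around `v`, frozen when they have `k` nodes. -/
def ball (q : ℕ) (nb : ℕ → ℕ → ℕ) (k v : ℕ) : ℕ → ℕ → Prop
  | 0 => fun u => u = v
  | t + 1 => fun u => ball q nb k v t u ∨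
      (cnt q (ball q nb k v t) < k ∧ ∃ w < q, ball q nb k v t w ∧ ∃ r < 4, nb w r = u)

def ctr (q : ℕ) (nb : ℕ → ℕ → ℕ) (k : ℕ) (hc : ℕ → Prop) (v : ℕ) : Prop :=
  hc v ∨ ∀ u < q, ball q nb k v k u → ¬hc u

def gd (q : ℕ) (nb : ℕ → ℕ → ℕ) (k : ℕ) (c : ℕ → Prop) (v : ℕ) : ℕ :=
  lst (k + 1) fun t => ∃ u < q, ball q nb k v t u ∧ c u

structure BallK (q : ℕ) (nb : ℕ → ℕ → ℕ) (k : ℕ) (c : ℕ → Prop) (g : ℕ → ℕ) : Prop where
  le : ∀ v, g v ≤ k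
  zero : ∀ v < q, g v = 0 ↔ c v
  lip : ∀ v < q, ∀ r < 4, g (nb v r) ≤ g v + 1
  desc : ∀ v < q, g v ≠ 0 → ∃ r < 4, g (nb v r) < g v
  big : (∀ i, i + 1 < q → nb i 0 = i + 1) → k ≤ q → ∀ v < q, k ≤ cnt q (ball q nb k v k)

/-- BALL -/
def BallS : Prop :=
  ∀ (q : ℕ) (nb : ℕ → ℕ → ℕ) (k : ℕ) (hc : ℕ → Prop), (∀ w < q, ∀ r < 4, nb w r < q) →
    (∀ w < q, ∀ r < 4, ∃ r' < 4, nb (nb w r) r' = w) →
      BallK q nb k (ctr q nb k hc) (gd q nb k (ctr q nb k hc))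

/-- Hashed centres for the seed `s`, which codes a modulus, a slope and a shift below `M`. -/
def hsh (M P s u : ℕ) : Prop := (s / M % M * u + s % M) % (s / M / M) ≤ s / M / M / P

/-- HASH -/
def HashS : Prop :=
  ∀ (q P : ℕ) (B : ℕ → ℕ → Prop), 1 ≤ P → (∀ v < q, P * P ≤ cnt q (B v)) →
    ∃ s < (2 * q + 1) ^ 3, P * cnt q (fun v => hsh (2 * q + 1) P s v ∨
      ∀ u < q, B v u → ¬hsh (2 * q + 1) P s u) ≤ 2 * q + P

structure Pt where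
  q : ℕ
  up : ℕ → ℕ
  dn : ℕ → ℕ
  D : ℕ

namespace Pt

variable (G : Pt)

def β : ℕ → ℕ := b2 G.q G.up G.dn

def nb (v r : ℕ) : ℕ := G.β (4 * v + r) / 4

def cs (s : ℕ) : ℕ → Prop := ctr G.q G.nb (G.D ^ 4) (hsh (2 * G.q + 1) (G.D ^ 2) s)

def c : ℕ → Prop := G.cs (amin ((2 * G.q + 1) ^ 3) fun s => cnt G.q (G.cs s))

def g : ℕ → ℕ := gd G.q G.nb (G.D ^ 4) G.c

def h (v : ℕ) : ℕ := G.g v + amin G.D fun a => cnt G.q fun u => (G.g u + a) % G.D = 0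

def pd (v : ℕ) : ℕ :=
  if G.g v = 0 then 4 * G.q else 4 * v + lst 4 fun r => G.g (G.nb v r) < G.g v

def par (v : ℕ) : ℕ := if G.g v = 0 then v else G.β (G.pd v) / 4

def F : Fm := ⟨4 * G.q, r4, G.β, fun d => d / 4, G.pd, G.g⟩

def ok (i d : ℕ) : Prop := G.h (d / 4) < (i + 1) * G.D ∧ G.h (G.β d / 4) < (i + 1) * G.D

def bi (i d : ℕ) : ℕ := if G.ok i d then G.β d else d

def ti (i d : ℕ) : ℕ := if G.ok i d then G.F.tau d else d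

def rt (i e : ℕ) : Prop := G.g (e / 4) = 0 ∨ (i + 1) * G.D ≤ G.h (e / 4)

def psi (i : ℕ) : ℕ → ℕ := ps (4 * G.q) (fun d => r4 (G.ti i d)) (G.rt i)

def idx (i d : ℕ) : ℕ := cnt (4 * G.q) fun e => G.h (e / 4) / G.D = i ∧ G.psi i e ≤ G.psi i d

def L (i : ℕ) : Ln := ⟨4 * G.q, G.psi i, out (G.bi i) (G.ti i),
  fun d => G.h (d / 4) / G.D = i ∧ (G.idx i d % G.D ^ 2 = 0 ∨ G.F.con d)⟩

def S (v : ℕ) : Prop :=
  G.g v = 0 ∨ G.h v % G.D = 0 ∨ ∃ d < 4 * G.q, G.h (d / 4) / G.D = G.h v / G.D ∧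
    (G.L (G.h v / G.D)).fs d ∧ ∃ s < G.D, it G.q G.par s (d / 4) = v

def lab (v : ℕ) : ℕ :=
  G.h v / G.D * (4 * G.q) + min ((G.L (G.h v / G.D)).rk (4 * v))
    ((G.L (G.h v / G.D)).up ((G.L (G.h v / G.D)).rk (4 * v)))

structure Ok : Prop where
  iu : Iv G.q G.up
  id : Iv G.q G.dn
  nu : Nc G.q _root_.id G.up
  nd : Nc G.q _root_.id G.dn
  D : 1 ≤ G.D

/-- PSET -/
structure SetK : Prop where
  fok : G.F.Ok
  msf : G.F.MsfK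
  nb : ∀ v < G.q, ∀ r < 4, G.nb v r < G.q
  le : ∀ v, G.g v ≤ G.D ^ 4
  off : ∃ a < G.D, (∀ v, G.h v = G.g v + a) ∧ G.D * cnt G.q (fun u => G.h u % G.D = 0) ≤ G.q
  lip : ∀ v < G.q, ∀ r < 4, G.g (G.nb v r) ≤ G.g v + 1 ∧ G.g v ≤ G.g (G.nb v r) + 1
  par : ∀ v < G.q, G.par v < G.q ∧
    (G.g v ≠ 0 → G.g (G.par v) + 1 = G.g v ∧ G.pd v < 4 * G.q ∧ G.pd v / 4 = v)
  few : G.D ^ 4 ≤ G.q → G.D ^ 2 * cnt G.q (fun v => G.g v = 0) ≤ 2 * G.q + G.D ^ 2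
  con : cnt (4 * G.q) G.F.con ≤ 2 * cnt G.q fun v => G.g v = 0

/-- PSLAB -/
def SlabK : Prop :=
  ∀ i, Iv (4 * G.q) (G.ti i) ∧ Iv (4 * G.q) (G.bi i) ∧ ContK (4 * G.q) r4 (G.bi i) (G.ti i) (G.rt i)
    (st (4 * G.q) (fun d => r4 (G.ti i d)) (G.rt i)) (G.psi i)

/-- PEDGE -/
def EdgeK : Prop := ∀ v < G.q, ∀ r < 4, ¬G.S v → ¬G.S (G.nb v r) → G.lab (G.nb v r) = G.lab v

/-- PSIZE -/
def SizeK : Prop := ∀ y, cnt G.q (fun v => ¬G.S v ∧ G.lab v = y) ≤ 2 * G.D ^ 2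

/-- PCOUNT -/
def CountK : Prop := G.D * cnt G.q G.S ≤ 83 * G.q + 36 * G.D ^ 5

end Pt

def PSetS : Prop := ∀ G : Pt, G.Ok → G.SetK

def PSlabS : Prop := ∀ G : Pt, G.Ok → G.SetK → G.SlabK

def PEdgeS : Prop := ∀ G : Pt, G.Ok → G.SetK → G.SlabK → G.EdgeK

def PSizeS : Prop := ∀ G : Pt, G.Ok → G.SetK → G.SlabK → G.SizeK

def PCountS : Prop := ∀ G : Pt, G.Ok → G.SetK → G.SlabK → G.CountK

def PartS : Prop := ∀ G : Pt, G.Ok → G.EdgeK ∧ G.SizeK ∧ G.CountK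

/-! ### The search -/

/-- An out-forest with heights below `H`, live vertices and marks. -/
structure Fo where
  par : ℕ → ℕ
  ht : ℕ → ℕ
  H : ℕ
  live : ℕ → Prop
  mk' : ℕ → Prop

structure Fo.Ok (N : ℕ) (arc : ℕ → ℕ → Prop) (f : Fo) : Prop where
  lt : ∀ v, f.live v → v < N
  clo : ∀ u v, f.live u → arc u v → f.live v
  par : ∀ v, f.live v → f.par v ≠ v →
    arc (f.par v) v ∧ f.live (f.par v) ∧ f.ht (f.par v) < f.ht v
  ht : ∀ v, f.live v → f.ht v < f.H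
  mk' : ∀ v, f.mk' v → f.live v

/-- Every root has a mark below it; `s` is a root; live vertices have `V`. -/
structure Fo.Rt (s : ℕ) (V : ℕ → Prop) (f : Fo) : Prop where
  rt : ∀ v, f.live v → f.par v = v → ∃ x, f.mk' x ∧ ∃ t, f.par^[t] x = v
  ls : f.live s
  ps : f.par s = s
  vx : ∀ v, f.live v → V v

/-- A level: forest, skeleton, pieces. -/
structure LD where
  fo : Fo
  K : ℕ → Prop
  pc : ℕ → ℕ

structure LD.Ok (N R : ℕ) (arc : ℕ → ℕ → Prop) (l : LD) : Prop where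
  fo : l.fo.Ok N arc
  kpar : ∀ v, l.K v → l.K (l.fo.par v)
  klive : ∀ v, l.K v → l.fo.live v
  pc : ∀ u v, l.fo.live u → arc u v → ¬l.K u → ¬l.K v → l.pc u = l.pc v
  small : ∀ y, cnt N (fun x => l.fo.mk' x ∧ ¬l.K x ∧ l.pc x = y) ≤ R

def Ktop : List LD → ℕ → Prop
  | [] => fun _ => True
  | l :: _ => l.K

def Ltop : List LD → ℕ → Prop
  | [] => fun _ => True
  | l :: _ => l.fo.live

def StOk (N R : ℕ) (arc : ℕ → ℕ → Prop) : List LD → Prop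
  | [] => True
  | l :: L => l.Ok N R arc ∧ (∀ v, l.fo.live v → Ltop L v) ∧
      (∀ v, l.fo.live v → Ktop L v → ∃ x, l.fo.mk' x ∧ ∃ t, l.fo.par^[t] x = v) ∧ StOk N R arc L

def Wd (N : ℕ) : List LD → ℕ
  | [] => 2
  | l :: L => (N + 1) * (l.fo.H + Wd N L) + 1

/-- The `e`-th mark of the piece of `z`. -/
def LD.ml (l : LD) (N z : ℕ) : ℕ → ℕ := sel N fun x => l.fo.mk' x ∧ ¬l.K x ∧ l.pc x = l.pc z

/-- The set coded by the table `T`. -/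
def LD.inP (l : LD) (N R z : ℕ) (T : List ℕ) (v : ℕ) : Prop :=
  ∃ e < R, l.ml N z e < N ∧ ∃ s < gt T e, it N l.fo.par s (l.ml N z e) = v

/-- The table of the piece of `z` after `t` rounds; `f B v` means that `v` is found from `B`. -/
def LD.tb (l : LD) (N R : ℕ) (f : (ℕ → Prop) → ℕ → Prop) (B : ℕ → Prop) (z t : ℕ) : List ℕ :=
  itr (fun _ T => tab R fun e => lst (N + 1) fun τ => ∀ s < N,
    ¬l.K (it N l.fo.par s (l.ml N z e)) →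
      f (fun u => B u ∨ l.inP N R z T u) (it N l.fo.par s (l.ml N z e)) → s < τ)
    (tab R fun _ => 0) t

/-- The set promoted in the piece of `z` after `t` rounds. -/
def LD.P (l : LD) (N R : ℕ) (f : (ℕ → Prop) → ℕ → Prop) (B : ℕ → Prop) (z t : ℕ) : ℕ → Prop :=
  l.inP N R z (l.tb N R f B z t)

/-- The time at which `v` is found from `B`. -/
def tm (N R : ℕ) (arc : ℕ → ℕ → Prop) : List LD → (ℕ → Prop) → ℕ → ℕ
  | [] => fun B v => if B v then 0 else if ∃ u < N, B u ∧ arc u v then 1 else 2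
  | l :: L => fun B v => if B v then 0 else lst (Wd N (l :: L) + 1) fun a =>
      a = Wd N (l :: L) ∨ ∃ z < N, ∃ t < N + 1,
        (l.P N R (fun B u => tm N R arc L B u < Wd N L) B z t v ∧
          a = t * (l.fo.H + Wd N L) + l.fo.ht v + 1) ∨
        (tm N R arc L (fun u => B u ∨ l.P N R (fun B u => tm N R arc L B u < Wd N L) B z t u) v <
            Wd N L ∧ a = t * (l.fo.H + Wd N L) + l.fo.H + tm N R arc L
          (fun u => B u ∨ l.P N R (fun B u => tm N R arc L B u < Wd N L) B z t u) v + 1)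

/-- `v` is reached from `B` by a path whose interior avoids `K`. -/
inductive Cl (arc : ℕ → ℕ → Prop) (K B : ℕ → Prop) : ℕ → Prop
  | base {v : ℕ} : B v → Cl arc K B v
  | one {u v : ℕ} : B u → arc u v → Cl arc K B v
  | step {u v : ℕ} : Cl arc K B u → ¬K u → arc u v → Cl arc K B v

structure TabK (N R : ℕ) (l : LD) (f : (ℕ → Prop) → ℕ → Prop) (B : ℕ → Prop) (z : ℕ) : Prop where
  zero : ∀ v, ¬l.P N R f B z 0 v
  live : ∀ t v, l.P N R f B z t v → l.fo.live v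
  top : ∀ t v, l.P N R f B z (t + 1) v → (l.fo.par v ≠ v ∧ l.P N R f B z (t + 1) (l.fo.par v)) ∨
    f (fun u => B u ∨ l.P N R f B z t u) v
  mem : ∀ t x s v, l.fo.mk' x → l.fo.par^[s] x = v → ¬l.K v → l.pc v = l.pc z →
    f (fun u => B u ∨ l.P N R f B z t u) v → l.P N R f B z (t + 1) v
  stab : ∀ t v, l.P N R f B z t v → l.P N R f B z N v

/-- TAB -/
def TbS : Prop :=
  ∀ (N R : ℕ) (arc : ℕ → ℕ → Prop) (l : LD) (f : (ℕ → Prop) → ℕ → Prop) (B : ℕ → Prop) (z : ℕ),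
    l.Ok N R arc → (∀ B v, B v → f B v) → TabK N R l f B z

/-- TMD: descent. -/
def TmD : Prop :=
  ∀ (N R : ℕ) (arc : ℕ → ℕ → Prop) (L : List LD), StOk N R arc L → ∀ (B : ℕ → Prop) (v : ℕ),
    (tm N R arc L B v = 0 ↔ B v) ∧ (tm N R arc L B v ≠ 0 → tm N R arc L B v < Wd N L →
      ∃ u, arc u v ∧ tm N R arc L B u < tm N R arc L B v)

/-- TMC: completeness. -/
def TmC : Prop :=
  ∀ (N R : ℕ) (arc : ℕ → ℕ → Prop) (L : List LD), (∀ u v, arc u v → u < N ∧ v < N) →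
    StOk N R arc L → ∀ (B : ℕ → Prop) (v : ℕ), (∀ u, B u → Ltop L u) → Cl arc (Ktop L) B v →
      tm N R arc L B v < Wd N L

/-- The next forest. -/
def nx (N R : ℕ) (arc : ℕ → ℕ → Prop) (l : LD) (L : List LD) (X : ℕ → Prop) : Fo where
  par v := if l.K v then l.fo.par v else if tm N R arc (l :: L) l.K v < Wd N (l :: L) then
    lst N fun u => arc u v ∧ tm N R arc (l :: L) l.K u < tm N R arc (l :: L) l.K v else v
  ht v := if l.K v then l.fo.ht v else l.fo.H + tm N R arc (l :: L) l.K v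
  H := l.fo.H + Wd N (l :: L)
  live v := tm N R arc (l :: L) l.K v < Wd N (l :: L)
  mk' := X

/-- NEXT -/
def NextS : Prop :=
  ∀ (N R s : ℕ) (arc : ℕ → ℕ → Prop) (V : ℕ → Prop) (l : LD) (L : List LD) (X : ℕ → Prop),
    (∀ u v, arc u v → u < N ∧ v < N) → StOk N R arc (l :: L) → l.fo.Rt s V → X s →
    (∀ v, l.K v ↔ ∃ x, X x ∧ ∃ t, l.fo.par^[t] x = v) →
      (nx N R arc l L X).Ok N arc ∧ (nx N R arc l L X).Rt s V ∧
        (∀ v, (nx N R arc l L X).live v → l.fo.live v) ∧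
        ∀ v, l.K v → ∃ x, X x ∧ ∃ t, (nx N R arc l L X).par^[t] x = v

/-! ### The levels -/

structure Mp where
  n : ℕ
  ρ : ℕ → ℕ
  β : ℕ → ℕ
  dir : ℕ → Prop
  s : ℕ
  t : ℕ

namespace Mp

variable (M : Mp) (D : ℕ) (f : Fo)

def nd (d : ℕ) : ℕ := lst M.n (Sc M.n M.ρ d)

def arc (u v : ℕ) : Prop := ∃ d < M.n, M.dir d ∧ M.nd d = u ∧ M.nd (M.β d) = v

def F : Fm where
  n := M.n
  ρ := M.ρ
  β d := if f.live (M.nd d) ∧ f.live (M.nd (M.β d)) then M.β d else d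
  nd := M.nd
  pd v := if f.live v ∧ f.par v ≠ v then lst M.n fun d => M.nd d = v ∧ M.nd (M.β d) = f.par v
    else M.n
  ht := f.ht

def rt (e : ℕ) : Prop := M.n ≤ (M.F f).pd (M.nd e)

def L : Ln := ⟨M.n, ps M.n (fun d => M.ρ ((M.F f).tau d)) (M.rt f), out (M.F f).β (M.F f).tau,
  fun d => (M.F f).con d ∨ f.mk' d⟩

def G : Pt := ⟨(M.L f).q, (M.L f).up, (M.L f).ind (M.F f).con (M.F f).tau, D⟩

def mate (i : ℕ) : ℕ := if (M.G D f).up i = i then (M.G D f).dn i else (M.G D f).up i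

def l2 (i : ℕ) : ℕ :=
  if ¬(M.G D f).S i then 2 * (M.G D f).lab i
  else if ¬(M.G D f).S (M.mate D f i) then 2 * (M.G D f).lab (M.mate D f i)
  else 2 * min i (M.mate D f i) + 1

def X (v : ℕ) : Prop :=
  v = M.nd M.s ∨ (f.live v ∧ ∃ d < M.n, M.nd d = v ∧ (M.L f).fs d ∧
    ((M.G D f).S ((M.L f).rk d) ∨ (M.G D f).S ((M.L f).rk d - 1)))

def ld : LD :=
  ⟨f, fun v => ∃ x < M.n, M.X D f x ∧ ∃ t < M.n, it M.n f.par t x = v,
    fun v => M.l2 D f ((M.L f).rk v)⟩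

def f0 : Fo :=
  ⟨fun v => v, fun _ => 0, 1, fun v => v < M.n ∧ M.nd v = v, fun v => v < M.n ∧ M.nd v = v⟩

def lev (R : ℕ) : ℕ → Fo × List LD
  | 0 => (M.f0, [])
  | j + 1 => (nx M.n R M.arc (M.ld D (lev R j).1) (lev R j).2 (M.X D (lev R j).1),
      M.ld D (lev R j).1 :: (lev R j).2)

def top (R J : ℕ) : List LD :=
  ⟨(M.lev D R J).1, fun v => v = M.nd M.s, fun _ => 0⟩ :: (M.lev D R J).2

def ans (R J : ℕ) : Prop :=
  tm M.n R M.arc (M.top D R J) (fun v => v = M.nd M.s) (M.nd M.t) < Wd M.n (M.top D R J)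

structure Ok : Prop where
  pm : Pm M.n M.ρ
  iv : Iv M.n M.β
  pl : Pl M.n M.ρ M.β
  s : M.s < M.n

/-- The forest fits the map. -/
def Fit : Prop := f.Ok M.n M.arc ∧ f.Rt (M.nd M.s) fun v => M.nd v = v

/-- GSET -/
structure SetK : Prop where
  fok : (M.F f).Ok
  msf : (M.F f).MsfK
  cont : ContK M.n M.ρ (M.F f).β (M.F f).tau (M.rt f)
    (st M.n (fun d => M.ρ ((M.F f).tau d)) (M.rt f)) (M.L f).pos
  con : cnt M.n (M.F f).con ≤ 2 * cnt M.n f.mk'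
  child : ∀ d < M.n, (M.F f).pd (M.nd d) = d →
    f.live (M.nd d) ∧ f.par (M.nd d) = M.nd (M.β d) ∧ (M.F f).β d = M.β d

/-- GPT -/
structure PtK : Prop where
  lok : (M.L f).Ok
  gok : (M.G D f).Ok
  q : (M.L f).q ≤ 30 * cnt M.n f.mk' + 5
  one : ∀ i < (M.L f).q, (M.G D f).up i = i ∨ (M.G D f).dn i = i
  dn : ∀ d < M.n, (M.F f).con d → (M.G D f).dn ((M.L f).rk d) = (M.L f).rk ((M.F f).tau d) ∧
    (M.G D f).up ((M.L f).rk d) = (M.L f).rk d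
  mate : ∀ i < (M.L f).q, M.mate D f i < (M.L f).q ∧ M.mate D f (M.mate D f i) = i ∧
    M.l2 D f (M.mate D f i) = M.l2 D f i
  spine : ∀ i, i + 1 < (M.L f).q → ¬(M.G D f).S i → ¬(M.G D f).S (i + 1) →
    M.l2 D f (i + 1) = M.l2 D f i
  size : ∀ y, cnt (M.L f).q (fun i => M.l2 D f i = y) ≤ 4 * D ^ 2
  few : D * cnt (M.L f).q (M.G D f).S ≤ 83 * (M.L f).q + 36 * D ^ 5

/-- GLAB -/
def LabK : Prop :=
  ∀ u v, f.live u → M.arc u v → ¬(M.ld D f).K u → ¬(M.ld D f).K v →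
    (M.ld D f).pc u = (M.ld D f).pc v

/-- GCNT -/
structure CntK : Prop where
  K : ∀ v, (M.ld D f).K v ↔ ∃ x, M.X D f x ∧ ∃ t, f.par^[t] x = v
  kpar : ∀ v, (M.ld D f).K v → (M.ld D f).K (f.par v)
  klive : ∀ v, (M.ld D f).K v → f.live v
  small : ∀ y, cnt M.n (fun x => f.mk' x ∧ (M.ld D f).pc x = y) ≤ 4 * D ^ 2
  few : D * cnt M.n (M.X D f) ≤ 5000 * cnt M.n f.mk' + 1000 * D ^ 5

end Mp

def GSetS : Prop := ∀ (M : Mp) (f : Fo), M.Ok → M.Fit f → M.SetK f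

def GPtS : Prop := ∀ (M : Mp) (D : ℕ) (f : Fo), 1 ≤ D → M.Ok → M.Fit f → M.SetK f → M.PtK D f

def GLabS : Prop :=
  ∀ (M : Mp) (D : ℕ) (f : Fo), M.Ok → M.Fit f → M.SetK f → M.PtK D f → M.CntK D f → M.LabK D f

def GCntS : Prop :=
  ∀ (M : Mp) (D : ℕ) (f : Fo), 1 ≤ D → M.Ok → M.Fit f → M.PtK D f → M.CntK D f

def GlevS : Prop := ∀ (M : Mp) (D : ℕ) (f : Fo), 1 ≤ D → M.Ok → M.Fit f → M.LabK D f ∧ M.CntK D f

/-- LEV -/
def LevS : Prop :=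
  ∀ (M : Mp) (E R J : ℕ), M.Ok → 1 ≤ E → M.n < E ^ J → (J + 1) * 1000 * (5000 * E) ^ 4 ≤ R →
    (M.ans (5000 * E) R J ↔ Relation.ReflTransGen M.arc (M.nd M.s) (M.nd M.t))

/-- The map read from the input. -/
def inp (x : List Bool) : Mp :=
  ⟨num x 0, fun d => num x (3 + d), fun d => num x (3 + num x 0 + d),
    fun d => num x (3 + num x 0 + num x 0 + d) = 1, num x 1, num x 2⟩

/-- `M` is the instance. -/
structure Rep {n : ℕ} (σ α : Equiv.Perm (Fin n)) (dir : Fin n → Bool) (s t : Fin n) (M : Mp) :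
    Prop where
  hn : M.n = n
  ρ : ∀ a : Fin n, M.ρ a = σ a
  β : ∀ a : Fin n, M.β a = α a
  dir : ∀ a : Fin n, M.dir a ↔ dir a = true
  s : M.s = s
  t : M.t = t

/-- CODE -/
def CodS : Prop :=
  ∀ {n : ℕ} (σ α : Equiv.Perm (Fin n)) (dir : Fin n → Bool) (s t : Fin n),
    Rep σ α dir s t (inp (code σ α dir s t)) ∧ ∀ M, Rep σ α dir s t M →
      (Reach σ α dir s t ↔ Relation.ReflTransGen M.arc (M.nd M.s) (M.nd M.t))

/-- EUL -/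
def EulS : Prop :=
  ∀ {n : ℕ} (σ α : Equiv.Perm (Fin n)) (dir : Fin n → Bool) (s t : Fin n) (M : Mp),
    Rep σ α dir s t M → α * α = 1 → Planar σ α → Pm M.n M.ρ ∧ Iv M.n M.β ∧ gen M.n M.ρ M.β = 0

/-! ### Computability -/

def Cp (κ : List Bool → ℕ) (P : List Bool → Env → Prop) : Prop :=
  Cn κ fun x ρ => if P x ρ then 1 else 0

def F1 (κ : List Bool → ℕ) (f : List Bool → Env → ℕ → ℕ) : Prop :=
  Cn κ fun x ρ => f x (tl ρ) (hd (ρ 0))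

def P1 (κ : List Bool → ℕ) (P : List Bool → Env → ℕ → Prop) : Prop :=
  Cp κ fun x ρ => P x (tl ρ) (hd (ρ 0))

/-- A binary relation that depends on the input only. -/
def P2 (κ : List Bool → ℕ) (r : List Bool → ℕ → ℕ → Prop) : Prop :=
  ∀ a b : List Bool → Env → ℕ, Cn κ a → Cn κ b → Cp κ fun x ρ => r x (a x ρ) (b x ρ)

def Fm.C (κ : List Bool → ℕ) (F : List Bool → Fm) : Prop :=
  (Cn κ fun x _ => (F x).n) ∧ (F1 κ fun x _ => (F x).ρ) ∧ (F1 κ fun x _ => (F x).β) ∧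
    (F1 κ fun x _ => (F x).nd) ∧ (F1 κ fun x _ => (F x).pd) ∧ F1 κ fun x _ => (F x).ht

def Ln.C (κ : List Bool → ℕ) (L : List Bool → Env → Ln) : Prop :=
  (Cn κ fun x ρ => (L x ρ).n) ∧ (F1 κ fun x ρ => (L x ρ).pos) ∧ (F1 κ fun x ρ => (L x ρ).o) ∧
    P1 κ fun x ρ => (L x ρ).sp

def Pt.C (κ : List Bool → ℕ) (G : List Bool → Pt) : Prop :=
  (Cn κ fun x _ => (G x).q) ∧ (F1 κ fun x _ => (G x).up) ∧ (F1 κ fun x _ => (G x).dn) ∧
    (Cn κ fun x _ => (G x).D) ∧ ∀ x, 5 * (G x).D ^ 4 + 1 ≤ κ x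

def Fo.C (κ : List Bool → ℕ) (f : List Bool → Fo) : Prop :=
  (F1 κ fun x _ => (f x).par) ∧ (F1 κ fun x _ => (f x).ht) ∧ (Cn κ fun x _ => (f x).H) ∧
    (P1 κ fun x _ => (f x).live) ∧ P1 κ fun x _ => (f x).mk'

def LD.C (κ : List Bool → ℕ) (l : List Bool → LD) : Prop :=
  Fo.C κ (fun x => (l x).fo) ∧ (P1 κ fun x _ => (l x).K) ∧ F1 κ fun x _ => (l x).pc

def Mp.C (κ : List Bool → ℕ) (M : List Bool → Mp) : Prop :=
  (Cn κ fun x _ => (M x).n) ∧ (F1 κ fun x _ => (M x).ρ) ∧ (F1 κ fun x _ => (M x).β) ∧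
    (P1 κ fun x _ => (M x).dir) ∧ (Cn κ fun x _ => (M x).s) ∧ Cn κ fun x _ => (M x).t

/-- AFM -/
def AFm : Prop :=
  ∀ κ, (∀ F, Fm.C κ F → (F1 κ fun x _ => (F x).tau) ∧ P1 κ fun x _ => (F x).con) ∧
    ∀ (n : List Bool → Env → ℕ) (φ : List Bool → Env → ℕ → ℕ) (rt : List Bool → Env → ℕ → Prop),
      Cn κ n → F1 κ φ → P1 κ rt → F1 κ fun x ρ => ps (n x ρ) (φ x ρ) (rt x ρ)

/-- ALN -/
def ALn : Prop :=
  ∀ κ L, Ln.C κ L → (P1 κ fun x ρ => (L x ρ).fs) ∧ (F1 κ fun x ρ => (L x ρ).rk) ∧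
    (Cn κ fun x ρ => (L x ρ).q) ∧ (F1 κ fun x ρ => (L x ρ).up) ∧
    ∀ P f, P1 κ P → F1 κ f → F1 κ fun x ρ => (L x ρ).ind (P x ρ) (f x ρ)

/-- ABALL -/
def ABall : Prop :=
  ∀ (κ q k : List Bool → ℕ) (nb : List Bool → ℕ → ℕ → ℕ), (Cn κ fun x _ => q x) →
    (Cn κ fun x _ => k x) → (∀ x, 5 * k x + 1 ≤ κ x) →
    (∀ a b : List Bool → Env → ℕ, Cn κ a → Cn κ b → Cn κ fun x ρ => nb x (a x ρ) (b x ρ)) →
    ∀ v t u : List Bool → Env → ℕ, Cn κ v → Cn κ t → Cn κ u →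
      Cp κ fun x ρ => u x ρ < q x ∧ ball (q x) (nb x) (k x) (v x ρ) (t x ρ) (u x ρ)

/-- APT -/
def APt : Prop := ∀ κ G, Pt.C κ G → (P1 κ fun x _ => (G x).S) ∧ F1 κ fun x _ => (G x).lab

/-- ATM -/
def ATm : Prop :=
  ∀ (κ N R : List Bool → ℕ) (arc : List Bool → ℕ → ℕ → Prop), (Cn κ fun x _ => N x) →
    (Cn κ fun x _ => R x) → (∀ x, R x ≤ κ x) → P2 κ arc →
    ∀ Ls : List (List Bool → LD), (∀ l ∈ Ls, LD.C κ l) →
      (Cn κ fun x _ => Wd (N x) (Ls.map fun l => l x)) ∧ ∀ B, P1 κ B →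
        F1 κ fun x ρ => tm (N x) (R x) (arc x) (Ls.map fun l => l x) (B x ρ)

/-- ALD -/
def ALd : Prop :=
  ∀ (κ D : List Bool → ℕ) (M : List Bool → Mp), Mp.C κ M → (Cn κ fun x _ => D x) →
    (∀ x, 5 * D x ^ 4 + 1 ≤ κ x) → (F1 κ fun x _ => (M x).nd) ∧ (P2 κ fun x => (M x).arc) ∧
      ∀ f, Fo.C κ f → LD.C κ (fun x => (M x).ld (D x) (f x)) ∧
        P1 κ fun x _ => (M x).X (D x) (f x)

/-- The space bound. -/
def kap (r : ℕ) (x : List Bool) : ℕ := (r + 1) * 1000 * (5000 * kk r x) ^ 4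

/-- ALEV -/
def ALev : Prop :=
  ∀ r, 1 ≤ r → Cp (kap r) fun x _ => (inp x).ans (5000 * kk r x) (kap r x) r

/-- The theorem. -/
def MainS : Prop :=
  ∀ ε : ℝ, 0 < ε → ∃ (M : TM) (c : ℕ), ∀ x : List Bool, ∃ r : Bool,
    M.out (M.run x ((x.length + 2) ^ c)).q = some r ∧
    (∀ t i, ((M.run x t).head i : ℝ) ≤ c * ((x.length : ℝ) + 1) ^ ε) ∧
    ∀ (n : ℕ) (σ α : Equiv.Perm (Fin n)) (dir : Fin n → Bool) (s t : Fin n),
      α * α = 1 → Planar σ α → x = code σ α dir s t → (r = true ↔ Reach σ α dir s t)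

end

end Pool.Agent.MP_1a6d78_lc.PR
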